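import Mathlib

set_option autoImplicit false
open Classical Relation

namespace Pool.Agent.Lib.MP_f8d2b9_co

/-- connectivity of a vertex set, as a chain of adjacent vertices inside the set -/
def Ch {V : Type} (G : SimpleGraph V) (A : V → Prop) : V → V → Prop :=
  ReflTransGen (fun a b => G.Adj a b ∧ A a ∧ A b)

theorem Ch.refl {V : Type} {G : SimpleGraph V} {A : V → Prop} (a : V) : Ch G A a a :=
  ReflTransGen.refl

theorem Ch.trans {V : Type} {G : SimpleGraph V} {A : V → Prop} {a b c : V}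
    (h : Ch G A a b) (h' : Ch G A b c) : Ch G A a c := ReflTransGen.trans h h'

theorem Ch.single {V : Type} {G : SimpleGraph V} {A : V → Prop} {a b : V}
    (h : G.Adj a b) (ha : A a) (hb : A b) : Ch G A a b := ReflTransGen.single ⟨h, ha, hb⟩

theorem Ch.symm {V : Type} {G : SimpleGraph V} {A : V → Prop} {a b : V}
    (h : Ch G A a b) : Ch G A b a := by
  induction h with
  | refl => exact Ch.refl _
  | tail _ h ih => exact (Ch.single h.1.symm h.2.2 h.2.1).trans ih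

theorem Ch.mono {V : Type} {G : SimpleGraph V} {A A' : V → Prop} {a b : V}
    (hA : ∀ x, A x → A' x) (h : Ch G A a b) : Ch G A' a b := by
  induction h with
  | refl => exact Ch.refl _
  | tail _ h ih => exact ih.trans (Ch.single h.1 (hA _ h.2.1) (hA _ h.2.2))

theorem Ch.map {V W : Type} {G : SimpleGraph V} {H : SimpleGraph W} {A : V → Prop} {A' : W → Prop}
    (f : V → W) (hf : ∀ a b, G.Adj a b → A a → A b → H.Adj (f a) (f b) ∧ A' (f a) ∧ A' (f b))
    {a b : V} (h : Ch G A a b) : Ch H A' (f a) (f b) := by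
  induction h with
  | refl => exact Ch.refl _
  | tail _ h ih => exact ReflTransGen.tail ih (hf _ _ h.1 h.2.1 h.2.2)

theorem Ch.right {V : Type} {G : SimpleGraph V} {A : V → Prop} {a b : V}
    (h : Ch G A a b) (ha : A a) : A b := by
  induction h with
  | refl => exact ha
  | tail _ h _ => exact h.2.2

/-- A tree-decomposition of the subgraph induced by `S`. -/
structure TD {V : Type} (G : SimpleGraph V) (S : Set V) where
  ι : Type
  fin : Finite ι
  T : SimpleGraph ι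
  B : ι → Finset V
  tree : T.IsTree
  sub : ∀ x, ∀ v ∈ B x, v ∈ S
  cov : ∀ v ∈ S, ∃ x, v ∈ B x
  edge : ∀ u ∈ S, ∀ v ∈ S, G.Adj u v → ∃ x, u ∈ B x ∧ v ∈ B x
  conn : ∀ v x y, v ∈ B x → v ∈ B y → Ch T (fun a => v ∈ B a) x y

/-- `G[S]` has a tree-decomposition all of whose bags satisfy `P`, some bag containing `A`. -/
def Has {V : Type} (G : SimpleGraph V) (S : Set V) (P : Finset V → Prop) (A : Set V) : Prop :=
  ∃ D : TD G S, (∀ x, P (D.B x)) ∧ ∃ x, ∀ v ∈ A, v ∈ D.B x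

theorem Has.mono {V : Type} {G : SimpleGraph V} {S : Set V} {P P' : Finset V → Prop}
    {A A' : Set V} (h : Has G S P A) (hP : ∀ B, P B → P' B) (hA : A' ⊆ A) : Has G S P' A' := by
  obtain ⟨D, h1, x, h2⟩ := h
  exact ⟨D, fun x => hP _ (h1 x), x, fun v hv => h2 v (hA hv)⟩

theorem Has.congr {V : Type} {G : SimpleGraph V} {S S' : Set V} {P : Finset V → Prop}
    {A : Set V} (h : Has G S P A) (hS : S = S') : Has G S' P A := hS ▸ h

theorem Has.leaf {V : Type} (G : SimpleGraph V) {P : Finset V → Prop} (B : Finset V) (hB : P B) :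
    Has G (B : Set V) P B := by
  refine ⟨⟨Unit, inferInstance, ⊥, fun _ => B, SimpleGraph.IsTree.of_subsingleton,
    fun _ _ h => h, fun _ h => ⟨(), h⟩, fun _ hu _ hv _ => ⟨(), hu, hv⟩,
    fun _ _ _ _ _ => Ch.refl _⟩, fun _ => hB, (), fun _ h => h⟩

theorem isTree_glue {ι κ : Type} [Finite ι] [Finite κ] {T : SimpleGraph ι} {U : SimpleGraph κ}
    (hT : T.IsTree) (hU : U.IsTree) (x : ι) (y : κ) :
    (T.sum U ⊔ SimpleGraph.edge (Sum.inl x) (Sum.inr y)).IsTree := by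
  rw [SimpleGraph.isTree_iff_connected_and_card] at hT hU ⊢
  refine ⟨hT.1.sum_sup_edge hU.1, ?_⟩
  rw [SimpleGraph.edgeSet_sup, SimpleGraph.edgeSet_edge_of_ne (by simp), Set.union_singleton,
    Nat.card_coe_set_eq, Set.ncard_insert_of_notMem (by simp), ← Nat.card_coe_set_eq,
    Nat.card_congr SimpleGraph.edgeSetSumEquiv, Nat.card_sum, Nat.card_sum]
  omega

theorem Has.glue {V : Type} {G : SimpleGraph V} {S1 S2 : Set V} {P : Finset V → Prop}
    {A1 A2 : Set V} (h1 : Has G S1 P A1) (h2 : Has G S2 P A2)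
    (hI : ∀ v ∈ S1, v ∈ S2 → v ∈ A1 ∧ v ∈ A2)
    (hE : ∀ u ∈ S1, ∀ v ∈ S2, G.Adj u v → u ∈ S2 ∨ v ∈ S1) :
    Has G (S1 ∪ S2) P A1 := by
  obtain ⟨D1, hP1, x1, hx1⟩ := h1
  obtain ⟨D2, hP2, x2, hx2⟩ := h2
  have := D1.fin
  have := D2.fin
  have hl : ∀ v x y, v ∈ D1.B x → v ∈ D1.B y →
      Ch (D1.T.sum D2.T ⊔ SimpleGraph.edge (Sum.inl x1) (Sum.inr x2))
        (fun a => v ∈ Sum.elim D1.B D2.B a) (Sum.inl x) (Sum.inl y) := by
    intro v x y hx hy
    refine Ch.map Sum.inl ?_ (D1.conn v x y hx hy)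
    intro a b hab ha hb
    exact ⟨Or.inl hab, ha, hb⟩
  have hr : ∀ v x y, v ∈ D2.B x → v ∈ D2.B y →
      Ch (D1.T.sum D2.T ⊔ SimpleGraph.edge (Sum.inl x1) (Sum.inr x2))
        (fun a => v ∈ Sum.elim D1.B D2.B a) (Sum.inr x) (Sum.inr y) := by
    intro v x y hx hy
    refine Ch.map Sum.inr ?_ (D2.conn v x y hx hy)
    intro a b hab ha hb
    exact ⟨Or.inl hab, ha, hb⟩
  have hm : ∀ v x y, v ∈ D1.B x → v ∈ D2.B y →
      Ch (D1.T.sum D2.T ⊔ SimpleGraph.edge (Sum.inl x1) (Sum.inr x2))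
        (fun a => v ∈ Sum.elim D1.B D2.B a) (Sum.inl x) (Sum.inr y) := by
    intro v x y hx hy
    have hv := hI v (D1.sub x v hx) (D2.sub y v hy)
    refine (hl v x x1 hx (hx1 v hv.1)).trans (Ch.trans ?_ (hr v x2 y (hx2 v hv.2) hy))
    exact Ch.single (Or.inr (by simp [SimpleGraph.edge_adj])) (hx1 v hv.1) (hx2 v hv.2)
  refine ⟨⟨D1.ι ⊕ D2.ι, inferInstance, D1.T.sum D2.T ⊔ SimpleGraph.edge (Sum.inl x1) (Sum.inr x2),
    Sum.elim D1.B D2.B, isTree_glue D1.tree D2.tree x1 x2, ?_, ?_, ?_, ?_⟩, ?_, Sum.inl x1, hx1⟩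
  · rintro (x | x) v hv
    · exact Or.inl (D1.sub x v hv)
    · exact Or.inr (D2.sub x v hv)
  · rintro v (hv | hv)
    · obtain ⟨x, hx⟩ := D1.cov v hv
      exact ⟨Sum.inl x, hx⟩
    · obtain ⟨x, hx⟩ := D2.cov v hv
      exact ⟨Sum.inr x, hx⟩
  · have e1 : ∀ u ∈ S1, ∀ v ∈ S1, G.Adj u v →
        ∃ x, u ∈ Sum.elim D1.B D2.B x ∧ v ∈ Sum.elim D1.B D2.B x := by
      intro u hu v hv h
      obtain ⟨x, hx⟩ := D1.edge u hu v hv h
      exact ⟨Sum.inl x, hx⟩
    have e2 : ∀ u ∈ S2, ∀ v ∈ S2, G.Adj u v →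
        ∃ x, u ∈ Sum.elim D1.B D2.B x ∧ v ∈ Sum.elim D1.B D2.B x := by
      intro u hu v hv h
      obtain ⟨x, hx⟩ := D2.edge u hu v hv h
      exact ⟨Sum.inr x, hx⟩
    rintro u (hu | hu) v (hv | hv) h
    · exact e1 u hu v hv h
    · rcases hE u hu v hv h with h' | h'
      · exact e2 u h' v hv h
      · exact e1 u hu v h' h
    · rcases hE v hv u hu h.symm with h' | h'
      · exact e2 u hu v h' h
      · exact e1 u h' v hv h
    · exact e2 u hu v hv h
  · rintro v (x | x) (y | y) hx hy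
    · exact hl v x y hx hy
    · exact hm v x y hx hy
    · exact (hm v y x hy hx).symm
    · exact hr v x y hx hy
  · rintro (x | x)
    · exact hP1 x
    · exact hP2 x

/-- A connected vertex set meets a connected set of bags. -/
theorem TD.conn_set {V : Type} {G : SimpleGraph V} {S : Set V} (D : TD G S) (K : V → Prop)
    (hK : ∀ v, K v → v ∈ S) {u v : V} (huv : Ch G K u v) (hu : K u) {x y : D.ι}
    (hx : u ∈ D.B x) (hy : v ∈ D.B y) : Ch D.T (fun a => ∃ p ∈ D.B a, K p) x y := by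
  induction huv generalizing y with
  | refl => exact (D.conn u x y hx hy).mono (fun a ha => ⟨u, ha, hu⟩)
  | @tail b c _ h ih =>
    obtain ⟨z, hz1, hz2⟩ := D.edge b (hK b h.2.1) c (hK c h.2.2) h.1
    exact (ih hz1).trans ((D.conn c z y hz2 hy).mono (fun a ha => ⟨c, ha, h.2.2⟩))

/-- Pushing a tree-decomposition through a model. -/
theorem Has.map {V W : Type} {O : SimpleGraph V} {G : SimpleGraph W} {S : Set V} {S' : Set W}
    {k m : ℕ} {A : Set V} (h : Has O S (fun B => B.card ≤ k) A) (f : V → Finset W)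
    (hf : ∀ p ∈ S, (f p).card ≤ m)
    (hsub : ∀ p ∈ S, ∀ u ∈ f p, u ∈ S')
    (hcov : ∀ u ∈ S', ∃ p ∈ S, u ∈ f p)
    (hedge : ∀ u ∈ S', ∀ v ∈ S', G.Adj u v → ∃ p ∈ S, ∃ q ∈ S, u ∈ f p ∧ v ∈ f q ∧
      (p = q ∨ O.Adj p q))
    (hconn : ∀ u, ∀ p ∈ S, ∀ q ∈ S, u ∈ f p → u ∈ f q → Ch O (fun a => a ∈ S ∧ u ∈ f a) p q) :
    Has G S' (fun B => B.card ≤ k * m) ∅ := by
  obtain ⟨D, hP, x0, -⟩ := h
  refine ⟨⟨D.ι, D.fin, D.T, fun x => (D.B x).biUnion f, D.tree, ?_, ?_, ?_, ?_⟩, ?_, x0,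
    fun _ h => h.elim⟩
  · intro x v hv
    obtain ⟨p, hp, hv⟩ := Finset.mem_biUnion.1 hv
    exact hsub p (D.sub x p hp) v hv
  · intro v hv
    obtain ⟨p, hp, hv⟩ := hcov v hv
    obtain ⟨x, hx⟩ := D.cov p hp
    exact ⟨x, Finset.mem_biUnion.2 ⟨p, hx, hv⟩⟩
  · intro u hu v hv huv
    obtain ⟨p, hp, q, hq, hu, hv, hpq⟩ := hedge u hu v hv huv
    rcases hpq with rfl | hpq
    · obtain ⟨x, hx⟩ := D.cov p hp
      exact ⟨x, Finset.mem_biUnion.2 ⟨p, hx, hu⟩, Finset.mem_biUnion.2 ⟨p, hx, hv⟩⟩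
    · obtain ⟨x, hx, hx'⟩ := D.edge p hp q hq hpq
      exact ⟨x, Finset.mem_biUnion.2 ⟨p, hx, hu⟩, Finset.mem_biUnion.2 ⟨q, hx', hv⟩⟩
  · intro v x y hx hy
    obtain ⟨p, hp, hv⟩ := Finset.mem_biUnion.1 hx
    obtain ⟨q, hq, hv'⟩ := Finset.mem_biUnion.1 hy
    have := D.conn_set (fun a => a ∈ S ∧ v ∈ f a) (fun _ h => h.1)
      (hconn v p (D.sub x p hp) q (D.sub y q hq) hv hv') ⟨D.sub x p hp, hv⟩ hp hq
    exact this.mono (fun a ⟨r, hr, hr'⟩ => Finset.mem_biUnion.2 ⟨r, hr, hr'.2⟩)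
  · intro x
    refine (Finset.card_biUnion_le_card_mul _ _ m (fun p hp => hf p (D.sub x p hp))).trans ?_
    exact Nat.mul_le_mul_right _ (hP x)

/-- In a tree there is a depth function such that of two intersecting subtrees,
the deeper top lies in the other subtree. -/
theorem exists_depth {ι : Type} {T : SimpleGraph ι} (hT : T.IsTree) :
    ∃ dp : ι → ℕ, ∀ (A A' : ι → Prop) (t t' i : ι), (∀ x y, A x → A y → Ch T A x y) →
      (∀ x y, A' x → A' y → Ch T A' x y) → A t → (∀ x, A x → dp t ≤ dp x) → A' t' →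
      dp t' ≤ dp t → A i → A' i → A' t := by
  obtain ⟨ρ⟩ := hT.connected.nonempty
  let Down : ι → ι → Prop := fun a b => T.Adj a b ∧ T.dist ρ b = T.dist ρ a + 1
  have huniq : ∀ a b u, Down a u → Down b u → a = b := by
    intro a b u ha hb
    obtain ⟨p, hp⟩ := hT.connected.exists_walk_length_eq_dist ρ a
    obtain ⟨q, hq⟩ := hT.connected.exists_walk_length_eq_dist ρ b
    have h1 : (p.concat ha.1).IsPath :=
      SimpleGraph.Walk.isPath_of_length_eq_dist _ (by rw [SimpleGraph.Walk.length_concat, hp, ha.2])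
    have h2 : (q.concat hb.1).IsPath :=
      SimpleGraph.Walk.isPath_of_length_eq_dist _ (by rw [SimpleGraph.Walk.length_concat, hq, hb.2])
    have h3 : p.concat ha.1 = q.concat hb.1 :=
      ((hT.existsUnique_path ρ u).unique h1 h2)
    have := congrArg SimpleGraph.Walk.penultimate h3
    simpa using this
  have hup : ∀ (A : ι → Prop) (i j : ι), Ch T A i j → (∀ a, Down a i → ¬ A a) →
      ReflTransGen Down i j := by
    intro A i j h hi
    induction h with
    | refl => exact ReflTransGen.refl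
    | @tail b c _ h ih =>
      rcases hT.dist_eq_dist_add_one_of_adj ρ h.1 with h' | h'
      · have hd : Down c b := ⟨h.1.symm, h'⟩
        rcases ReflTransGen.cases_tail ih with rfl | ⟨e, he, he'⟩
        · exact (hi c hd h.2.2).elim
        · exact huniq _ _ _ he' hd ▸ he
      · exact ih.tail ⟨h.1, h'⟩
  have hle : ∀ i j, ReflTransGen Down i j → i = j ∨ T.dist ρ i < T.dist ρ j := by
    intro i j h
    induction h with
    | refl => exact Or.inl rfl
    | tail _ h ih =>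
      right
      rcases ih with rfl | ih
      · rw [h.2]; omega
      · rw [h.2]; omega
  refine ⟨T.dist ρ, ?_⟩
  intro A A' t t' i hA hA' ht hmin ht' hle' hi hi'
  induction hn : T.dist ρ i using Nat.strong_induction_on generalizing i with
  | _ n ih =>
    by_cases hit : i = t
    · exact hit ▸ hi'
    have h1 : ∃ a, Down a i ∧ A a := by
      by_contra hc
      push Not at hc
      rcases hle _ _ (hup A i t (hA i t hi ht) hc) with h | h
      · exact hit h
      · exact absurd (hmin i hi) (by omega)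
    obtain ⟨a, ha, haA⟩ := h1
    have h2 : ∃ b, Down b i ∧ A' b := by
      by_contra hc
      push Not at hc
      have := hmin a haA
      have h3 := ha.2
      rcases hle _ _ (hup A' i t' (hA' i t' hi' ht') hc) with h | h
      · subst h; omega
      · omega
    obtain ⟨b, hb, hbA⟩ := h2
    have hab := huniq _ _ _ ha hb
    subst hab
    exact ih (T.dist ρ a) (by rw [← hn, ha.2]; omega) a haA hbA rfl

/-- bounded out-degree orientation from a tree-decomposition -/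
theorem Has.orient {V : Type} {G : SimpleGraph V} {S : Set V} {k : ℕ} {A : Set V}
    (h : Has G S (fun B => B.card ≤ k) A) :
    ∃ N : V → Finset V, (∀ v, (N v).card ≤ k) ∧
      ∀ u ∈ S, ∀ v ∈ S, G.Adj u v → v ∈ N u ∨ u ∈ N v := by
  obtain ⟨D, hP, x0, -⟩ := h
  obtain ⟨dp, hdp⟩ := exists_depth D.tree
  have htop : ∀ v, ∃ t : D.ι, v ∈ S → v ∈ D.B t ∧ ∀ x, v ∈ D.B x → dp t ≤ dp x := by
    intro v
    by_cases hv : v ∈ S
    · obtain ⟨t, ht, hmin⟩ := (InvImage.wf dp wellFounded_lt).has_min {x | v ∈ D.B x}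
        (D.cov v hv)
      exact ⟨t, fun _ => ⟨ht, fun x hx => not_lt.1 (hmin x hx)⟩⟩
    · exact ⟨x0, fun h => (hv h).elim⟩
  choose top htop using htop
  refine ⟨fun v => D.B (top v), fun v => hP _, ?_⟩
  intro u hu v hv huv
  obtain ⟨x, hx, hx'⟩ := D.edge u hu v hv huv
  rcases le_total (dp (top v)) (dp (top u)) with h | h
  · exact Or.inl (hdp (fun a => u ∈ D.B a) (fun a => v ∈ D.B a) (top u) (top v) x
      (D.conn u) (D.conn v) (htop u hu).1 (htop u hu).2 (htop v hv).1 h hx hx')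
  · exact Or.inr (hdp (fun a => v ∈ D.B a) (fun a => u ∈ D.B a) (top v) (top u) x
      (D.conn v) (D.conn u) (htop v hv).1 (htop v hv).2 (htop u hu).1 h hx' hx)

/-- Separator lemma: few vertices hit all connected sets that are heavy. -/
theorem Has.hit {V : Type} {G : SimpleGraph V} {k : ℕ} {A : Set V}
    (h : Has G Set.univ (fun B => B.card ≤ k) A) (q : ℕ) (Z : Finset V)
    (F : Set (Set V)) (hF : ∀ K ∈ F, ∀ u ∈ K, ∀ v ∈ K, Ch G (fun a => a ∈ K) u v)
    (hq : ∀ K ∈ F, q < (Z.filter (· ∈ K)).card) :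
    ∃ S : Finset V, S.card * q ≤ k * Z.card ∧ ∀ K ∈ F, ∃ s ∈ S, s ∈ K := by
  obtain ⟨D, hP, x0, -⟩ := h
  obtain ⟨dp, hdp⟩ := exists_depth D.tree
  have := D.fin
  have hne : ∀ (Z : Finset V) (K : Set V), q < (Z.filter (· ∈ K)).card → ∃ v, v ∈ K := by
    intro Z K h
    obtain ⟨v, hv⟩ := Finset.card_pos.1 (Nat.zero_lt_of_lt h)
    exact ⟨v, (Finset.mem_filter.1 hv).2⟩
  have htop : ∀ K : Set V, ∃ t : D.ι, (∃ v, v ∈ K) →
      (∃ p ∈ D.B t, p ∈ K) ∧ ∀ x, (∃ p ∈ D.B x, p ∈ K) → dp t ≤ dp x := by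
    intro K
    by_cases hK : ∃ v, v ∈ K
    · obtain ⟨v, hv⟩ := hK
      obtain ⟨x, hx⟩ := D.cov v trivial
      obtain ⟨t, ht, hmin⟩ := (InvImage.wf dp wellFounded_lt).has_min
        {x | ∃ p ∈ D.B x, p ∈ K} ⟨x, v, hx, hv⟩
      exact ⟨t, fun _ => ⟨ht, fun x hx => not_lt.1 (hmin x hx)⟩⟩
    · exact ⟨x0, fun h => (hK h).elim⟩
  choose top htop using htop
  have hc : ∀ K : Set V, (∀ u ∈ K, ∀ v ∈ K, Ch G (fun a => a ∈ K) u v) →
      ∀ x y, (∃ p ∈ D.B x, p ∈ K) → (∃ p ∈ D.B y, p ∈ K) →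
        Ch D.T (fun a => ∃ p ∈ D.B a, p ∈ K) x y := by
    rintro K hK x y ⟨p, hp, hpK⟩ ⟨r, hr, hrK⟩
    exact D.conn_set (fun a => a ∈ K) (fun _ _ => trivial) (hK p hpK r hrK) hpK hp hr
  induction hn : Z.card using Nat.strong_induction_on generalizing Z F with
  | _ n ih =>
    rcases F.eq_empty_or_nonempty with rfl | hFne
    · exact ⟨∅, by simp, fun K hK => hK.elim⟩
    obtain ⟨m, ⟨K0, hK0, rfl⟩, hmax⟩ := Set.exists_max_image (top '' F) dp (Set.toFinite _)
      (hFne.image _)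
    have hK0ne := hne Z K0 (hq K0 hK0)
    let F' : Set (Set V) := {K | K ∈ F ∧ ¬ ∃ p ∈ D.B (top K0), p ∈ K}
    have hdis : ∀ K ∈ F', ∀ v ∈ K, v ∉ K0 := by
      intro K hK v hv hv0
      obtain ⟨x, hx⟩ := D.cov v trivial
      have hKne := hne Z K (hq K hK.1)
      exact hK.2 (hdp (fun a => ∃ p ∈ D.B a, p ∈ K0) (fun a => ∃ p ∈ D.B a, p ∈ K) (top K0)
        (top K) x (hc K0 (hF K0 hK0)) (hc K (hF K hK.1)) (htop K0 hK0ne).1 (htop K0 hK0ne).2
        (htop K hKne).1 (hmax _ ⟨K, hK.1, rfl⟩) ⟨v, hx, hv0⟩ ⟨v, hx, hv⟩)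
    have hsplit := Finset.card_filter_add_card_filter_not (s := Z) (fun v => v ∈ K0)
    have hq0 := hq K0 hK0
    obtain ⟨S, hS, hS'⟩ := ih (Z.filter (fun v => ¬ v ∈ K0)).card (by omega)
      (Z.filter (fun v => ¬ v ∈ K0)) F' (fun K hK => hF K hK.1) (by
        intro K hK
        refine (hq K hK.1).trans_le (Finset.card_le_card ?_)
        intro v hv
        rw [Finset.mem_filter] at hv
        exact Finset.mem_filter.2 ⟨Finset.mem_filter.2 ⟨hv.1, hdis K hK v hv.2⟩, hv.2⟩) rfl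
    refine ⟨S ∪ D.B (top K0), ?_, ?_⟩
    · have h1 : (S ∪ D.B (top K0)).card ≤ S.card + k :=
        (Finset.card_union_le _ _).trans (Nat.add_le_add_left (hP _) _)
      calc (S ∪ D.B (top K0)).card * q ≤ (S.card + k) * q := Nat.mul_le_mul_right _ h1
        _ = S.card * q + k * q := by ring
        _ ≤ k * (Z.filter (fun v => ¬ v ∈ K0)).card + k * (Z.filter (fun v => v ∈ K0)).card :=
          Nat.add_le_add hS (Nat.mul_le_mul_left _ hq0.le)
        _ = k * n := by rw [← hn, ← hsplit]; ring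
    · intro K hK
      by_cases hm : ∃ p ∈ D.B (top K0), p ∈ K
      · obtain ⟨p, hp, hpK⟩ := hm
        exact ⟨p, Finset.mem_union_right _ hp, hpK⟩
      · obtain ⟨s, hs, hsK⟩ := hS' K ⟨hK, hm⟩
        exact ⟨s, Finset.mem_union_left _ hs, hsK⟩

/-- Separator lemma in terms of classes. -/
theorem Has.sep {V : Type} {G : SimpleGraph V} {k : ℕ} {A : Set V}
    (h : Has G Set.univ (fun B => B.card ≤ k) A) (q : ℕ) (Z : Finset V) :
    ∃ S : Finset V, S.card * q ≤ k * Z.card ∧ ∀ v, v ∉ S →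
      (Z.filter (fun z => Ch G (fun a => a ∉ S) v z)).card ≤ q := by
  obtain ⟨S, hS, hS'⟩ := h.hit q Z
    {K | (∀ u ∈ K, ∀ v ∈ K, Ch G (fun a => a ∈ K) u v) ∧ q < (Z.filter (· ∈ K)).card}
    (fun K hK => hK.1) (fun K hK => hK.2)
  refine ⟨S, hS, fun v hv => ?_⟩
  by_contra hc
  push Not at hc
  have key : ∀ u, Ch G (fun a => a ∉ S) v u →
      Ch G (fun a => a ∈ {z | Ch G (fun a => a ∉ S) v z}) v u := by
    intro u hu
    induction hu with
    | refl => exact Ch.refl _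
    | tail h1 h2 ih => exact ih.trans (Ch.single h2.1 h1 (ReflTransGen.tail h1 h2))
  obtain ⟨s, hs, hsK⟩ := hS' {z | Ch G (fun a => a ∉ S) v z}
    ⟨fun u hu w hw => (key u hu).symm.trans (key w hw), hc⟩
  exact Ch.right hsK hv hs

end Pool.Agent.Lib.MP_f8d2b9_co
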