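import Mathlib
import Pool.Agent.Lib.MP_f8d2b9_co.TD

set_option autoImplicit false
open Classical Relation Equiv Equiv.Perm

namespace Pool.Agent.Lib.MP_f8d2b9_co

/-- A non-crossing graph on an interval of naturals has bags of size three. -/
theorem noncrossing (O : SimpleGraph ℕ) (L : ℕ)
    (hO : ∀ a b a' b', a < b → b < a' → a' < b' → b' ≤ L → O.Adj a a' → ¬ O.Adj b b') :
    ∀ n i j, j - i = n → i < j → j ≤ L →
      Has O (Set.Icc i j) (fun B => B.card ≤ 3) {i, j} := by
  intro n
  induction n using Nat.strong_induction_on with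
  | _ n ih =>
    intro i j hn hij hL
    by_cases h1 : j = i + 1
    · subst h1
      have := Has.leaf O (P := fun B => B.card ≤ 3) {i, i + 1}
        ((Finset.card_le_two).trans (by norm_num))
      refine (this.congr ?_).mono (fun _ h => h) (by simp)
      ext x
      simp only [Finset.coe_insert, Finset.coe_singleton, Set.mem_insert_iff,
        Set.mem_singleton_iff, Set.mem_Icc]
      omega
    obtain ⟨k, hik, hkj, hk1, hk2⟩ : ∃ k, i < k ∧ k < j ∧ (k = i + 1 ∨ O.Adj i k) ∧
        ∀ b, k < b → b < j → ¬ O.Adj i b := by
      by_cases hex : ∃ b, i < b ∧ b < j ∧ O.Adj i b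
      · obtain ⟨b, hb⟩ := hex
        let s := (Finset.Ioo i j).filter (fun b => O.Adj i b)
        have hs : s.Nonempty := ⟨b, by simp [s, hb]⟩
        have hm := s.max'_mem hs
        simp only [s, Finset.mem_filter, Finset.mem_Ioo] at hm
        refine ⟨s.max' hs, hm.1.1, hm.1.2, Or.inr hm.2, fun c hc hcj hadj => ?_⟩
        have : c ≤ s.max' hs := s.le_max' c (by simp [s, hadj, hcj]; exact hm.1.1.trans hc)
        omega
      · refine ⟨i + 1, by omega, by omega, Or.inl rfl, fun b hb hbj hadj => hex ⟨b, by omega, hbj, hadj⟩⟩
    have h0 := Has.leaf O (P := fun B => B.card ≤ 3) {i, k, j} Finset.card_le_three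
    have hA := ih (k - i) (by omega) i k rfl hik (by omega)
    have hB := ih (j - k) (by omega) k j rfl hkj hL
    have h2 := h0.glue hA (by
      intro v hv hv'
      refine ⟨hv, ?_⟩
      simp only [Finset.coe_insert, Finset.coe_singleton, Set.mem_insert_iff,
        Set.mem_singleton_iff, Set.mem_Icc] at hv hv' ⊢
      omega) (by
      intro u hu v hv huv
      simp only [Finset.coe_insert, Finset.coe_singleton, Set.mem_insert_iff,
        Set.mem_singleton_iff, Set.mem_Icc] at hu hv ⊢
      by_contra hc
      have hu' : u = j := by omega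
      subst hu'
      rcases hk1 with h | h
      · omega
      · exact hO i v k u (by omega) (by omega) hkj hL h huv.symm)
    have h3 := h2.glue hB (by
      intro v hv hv'
      simp only [Finset.coe_insert, Finset.coe_singleton, Set.mem_insert_iff,
        Set.mem_singleton_iff, Set.mem_Icc, Set.mem_union] at hv hv' ⊢
      omega) (by
      intro u hu v hv huv
      simp only [Finset.coe_insert, Finset.coe_singleton, Set.mem_insert_iff,
        Set.mem_singleton_iff, Set.mem_Icc, Set.mem_union] at hu hv ⊢
      by_contra hc
      by_cases hui : u = i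
      · subst hui
        exact hk2 v (by omega) (by omega) huv
      · rcases hk1 with h | h
        · omega
        · exact hO i u k v (by omega) (by omega) (by omega) (by omega) h huv)
    refine (h3.congr ?_).mono (fun _ h => h) ?_
    · ext x
      simp only [Finset.coe_insert, Finset.coe_singleton, Set.mem_insert_iff,
        Set.mem_singleton_iff, Set.mem_Icc, Set.mem_union]
      omega
    · intro x hx
      simp only [Finset.coe_insert, Finset.coe_singleton, Set.mem_insert_iff,
        Set.mem_singleton_iff] at hx ⊢
      omega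

variable {α : Type} [Fintype α]

/-- number of cycles, fixed points included -/
noncomputable def cyc (π : Perm α) : ℕ := Nat.card (Quotient (SameCycle.setoid π))

theorem inv_of_sameCycle {β : Type} {π : Perm α} {f : α → β} (hf : ∀ x, f (π x) = f x) {x y : α}
    (h : π.SameCycle x y) : f x = f y := by
  obtain ⟨n, rfl⟩ := h.exists_nat_pow_eq
  clear h
  induction n with
  | zero => rfl
  | succ n ih => rw [pow_succ', Perm.mul_apply, hf, ← ih]

theorem card_le_cyc {β : Type} {π : Perm α} (f : α → β) (hf : ∀ x, f (π x) = f x) :
    (Set.range f).ncard ≤ cyc π := by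
  let g : Quotient (SameCycle.setoid π) → β :=
    Quotient.lift f (fun a b h => inv_of_sameCycle hf h)
  have : Set.range f = g '' Set.univ := by
    ext y
    constructor
    · rintro ⟨x, rfl⟩
      exact ⟨Quotient.mk _ x, trivial, rfl⟩
    · rintro ⟨x, -, rfl⟩
      induction x using Quotient.inductionOn with
      | _ x => exact ⟨x, rfl⟩
  rw [this]
  exact (Set.ncard_image_le (Set.toFinite _)).trans (by rw [Set.ncard_univ]; rfl)

theorem card_lt_cyc {β : Type} {π : Perm α} (f : α → β) (hf : ∀ x, f (π x) = f x) {a b : α}
    (hab : ¬ π.SameCycle a b) (hfab : f a = f b) : (Set.range f).ncard + 1 ≤ cyc π := by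
  let g : Quotient (SameCycle.setoid π) → β :=
    Quotient.lift f (fun a b h => inv_of_sameCycle hf h)
  have : Set.range f = g '' ({Quotient.mk _ a}ᶜ) := by
    ext y
    constructor
    · rintro ⟨x, rfl⟩
      by_cases hx : (Quotient.mk (SameCycle.setoid π) x) = Quotient.mk _ a
      · refine ⟨Quotient.mk _ b, fun h => hab ?_, ?_⟩
        · exact (Quotient.exact h : π.SameCycle b a).symm
        · exact hfab.symm.trans (inv_of_sameCycle hf (Quotient.exact hx)).symm
      · exact ⟨Quotient.mk _ x, hx, rfl⟩
    · rintro ⟨x, -, rfl⟩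
      induction x using Quotient.inductionOn with
      | _ x => exact ⟨x, rfl⟩
  rw [this]
  refine (Nat.add_le_add_right (Set.ncard_image_le (Set.toFinite _)) 1).trans ?_
  have h := Set.ncard_add_ncard_compl ({Quotient.mk (SameCycle.setoid π) a} : Set _)
  rw [Set.ncard_singleton] at h
  unfold cyc
  omega

theorem cyc_le_card {β : Type} {π : Perm α} (g : α → β)
    (hg : ∀ x y, g x = g y → π.SameCycle x y) : cyc π ≤ (Set.range g).ncard := by
  have : Function.Injective
      (fun c : Quotient (SameCycle.setoid π) => (⟨g c.out, c.out, rfl⟩ : Set.range g)) := by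
    intro c c' h
    have h1 : g c.out = g c'.out := congrArg Subtype.val h
    rw [← c.out_eq, ← c'.out_eq]
    exact Quotient.sound (hg _ _ h1)
  exact (Nat.card_le_card_of_injective _ this).trans (Nat.card_coe_set_eq _).le

theorem cyc_swap_le [DecidableEq α] (π : Perm α) (a b : α) : cyc (π * swap a b) ≤ cyc π + 1 := by
  set π' := π * swap a b with hπ'
  let mk : α → Quotient (SameCycle.setoid π') := Quotient.mk _
  have hmk : ∀ x, mk (π' x) = mk x := fun x =>
    Quotient.sound (show π'.SameCycle (π' x) x from by simpa using SameCycle.refl π' x)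
  let r : Quotient (SameCycle.setoid π') → Quotient (SameCycle.setoid π') :=
    fun c => if c = mk a then mk b else c
  have hr : r (mk a) = r (mk b) := by
    simp only [r, if_true]
    split_ifs <;> rfl
  have h1 := card_le_cyc (π := π) (fun x => r (mk x)) (by
    intro x
    have : π x = π' (swap a b x) := by simp [hπ']
    rw [this, hmk]
    by_cases hxa : x = a
    · rw [hxa, swap_apply_left, hr]
    by_cases hxb : x = b
    · rw [hxb, swap_apply_right, hr]
    rw [swap_apply_of_ne_of_ne hxa hxb])
  have h2 : ({mk a}ᶜ : Set _) ⊆ Set.range (fun x => r (mk x)) := by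
    intro c hc
    induction c using Quotient.inductionOn with
    | _ x => exact ⟨x, if_neg hc⟩
  have h3 := Set.ncard_le_ncard h2 (Set.toFinite _)
  have h := Set.ncard_add_ncard_compl ({mk a} : Set _)
  rw [Set.ncard_singleton] at h
  unfold cyc at *
  omega

theorem cyc_swap_lt [DecidableEq α] (π : Perm α) {a b : α} (hab : ¬ π.SameCycle a b) :
    cyc (π * swap a b) + 1 ≤ cyc π := by
  set π' := π * swap a b with hπ'
  let mk : α → Quotient (SameCycle.setoid π') := Quotient.mk _
  have hmk : ∀ x, mk (π' x) = mk x := fun x =>
    Quotient.sound (show π'.SameCycle (π' x) x from by simpa using SameCycle.refl π' x)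
  have hstep : ∀ x, mk (π x) = mk (swap a b x) := by
    intro x
    have : π x = π' (swap a b x) := by simp [hπ']
    rw [this, hmk]
  have hr : mk a = mk b := by
    have : ∀ t : ℕ, mk a = mk ((π ^ (t + 1)) b) ∨ mk a = mk b := by
      intro t
      induction t with
      | zero => left; rw [zero_add, pow_one, hstep, swap_apply_right]
      | succ t ih =>
        rcases ih with ih | ih
        · by_cases hb : (π ^ (t + 1)) b = b
          · right; rw [ih, hb]
          · left
            have ha : (π ^ (t + 1)) b ≠ a := by
              intro h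
              exact hab (SameCycle.symm ⟨(t + 1 : ℕ), by rw [zpow_natCast]; exact h⟩)
            rw [pow_succ' π (t + 1), Perm.mul_apply, hstep, swap_apply_of_ne_of_ne ha hb, ih]
        · exact Or.inr ih
    rcases this (orderOf π - 1) with h | h
    · rwa [Nat.sub_add_cancel (orderOf_pos π), pow_orderOf_eq_one, Perm.one_apply] at h
    · exact h
  have h1 := card_lt_cyc (π := π) mk (by
    intro x
    rw [hstep]
    by_cases hxa : x = a
    · rw [hxa, swap_apply_left, hr]
    by_cases hxb : x = b
    · rw [hxb, swap_apply_right, hr]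
    rw [swap_apply_of_ne_of_ne hxa hxb]) hab hr
  have h2 : Set.range mk = Set.univ := Set.range_eq_univ.2 Quotient.mk_surjective
  rw [h2, Set.ncard_univ] at h1
  exact h1

theorem cycleType_card_le [DecidableEq α] (π : Perm α) : π.cycleType.card ≤ cyc π := by
  have h1 : π.cycleType.card = π.cycleFactorsFinset.card := by
    simp [cycleType_def]
  rw [h1]
  have h2 := card_le_cyc (π := π) (fun x => π.cycleOf x) (fun x => cycleOf_self_apply π x)
  refine le_trans ?_ h2
  rw [← Set.ncard_coe_finset]
  refine Set.ncard_le_ncard ?_ (Set.toFinite _)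
  intro c hc
  have hc' := mem_cycleFactorsFinset_iff.1 hc
  obtain ⟨x, hx, -⟩ := hc'.1
  exact ⟨x, (cycle_is_cycleOf (mem_support.2 hx) hc).symm⟩

theorem mem_of_sameCycle {π : Perm α} {I : α → Prop} (hI : ∀ x, I x → I (π x)) {x y : α}
    (h : π.SameCycle x y) (hx : I x) : I y := by
  obtain ⟨n, rfl⟩ := h.exists_nat_pow_eq
  clear h
  induction n with
  | zero => exact hx
  | succ n ih => rw [pow_succ', Perm.mul_apply]; exact hI _ ih

end Pool.Agent.Lib.MP_f8d2b9_co
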