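import Mathlib

set_option autoImplicit false
open Classical

namespace Pool.Agent.Lib.MP_f8d2b9_co

/-- Planarity of a finite graph: a rotation system whose Euler genus is zero. -/
def IsPlanar {W : Type} [Fintype W] (H : SimpleGraph W) : Prop :=
  ∃ σ : Equiv.Perm H.Dart,
    (∀ d : H.Dart, (σ d).fst = d.fst) ∧
    (∀ d e : H.Dart, d.fst = e.fst → σ.SameCycle d e) ∧
    2 * (Nat.card H.ConnectedComponent : ℤ) ≤
      (Nat.card W : ℤ) - (Nat.card H.edgeSet : ℤ)
      + ((σ * Function.Involutive.toPerm (SimpleGraph.Dart.symm : H.Dart → H.Dart)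
            SimpleGraph.Dart.symm_involutive).cycleType.card : ℤ)
      + (Nat.card {v : W // ∀ w, ¬ H.Adj v w} : ℤ)

/-- The planarisation: each crossing `x` of the edges `e (x, false)` and `e (x, true)` becomes
a vertex adjacent to the ends of these two edges, which are deleted. -/
def planarisation {V X : Type} (G : SimpleGraph V) (e : X × Bool → Sym2 V) :
    SimpleGraph (V ⊕ X) :=
  SimpleGraph.fromRel fun a b =>
    (∃ u v, a = Sum.inl u ∧ b = Sum.inl v ∧ G.Adj u v ∧ ∀ p, e p ≠ s(u, v)) ∨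
    (∃ u x i, a = Sum.inl u ∧ b = Sum.inr x ∧ u ∈ e (x, i))

/-- One-planarity: there are `m` crossings, each of two edges, no edge taking part in two
crossings, such that the planarisation is planar. -/
def IsOnePlanar {V : Type} [Fintype V] (G : SimpleGraph V) : Prop :=
  ∃ (m : ℕ) (e : Fin m × Bool → Sym2 V),
    Function.Injective e ∧ (∀ p, e p ∈ G.edgeSet) ∧ IsPlanar (planarisation G e)

/-- Tree-decomposition. -/
def IsTreeDecomp {V ι : Type} (G : SimpleGraph V) (T : SimpleGraph ι) (B : ι → Finset V) : Prop :=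
  T.IsTree ∧ (∀ u v, G.Adj u v → ∃ x, u ∈ B x ∧ v ∈ B x) ∧
    ∀ v, (T.induce {x | v ∈ B x}).Connected

/-- Treewidth. -/
noncomputable def treewidth {V : Type} (G : SimpleGraph V) : ℕ :=
  sInf {w | ∃ (ι : Type) (_ : Finite ι) (T : SimpleGraph ι) (B : ι → Finset V),
    IsTreeDecomp G T B ∧ ∀ x, (B x).card ≤ w + 1}

end Pool.Agent.Lib.MP_f8d2b9_co
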