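import Mathlib
import Pool.Agent.Lib.MP_f8d2b9_co.Defs
import Pool.Agent.Lib.MP_f8d2b9_co.Cyc

set_option autoImplicit false
open Classical Relation Equiv Equiv.Perm

namespace Pool.Agent.Lib.MP_f8d2b9_co

variable {W : Type} {H : SimpleGraph W}

/-- flip the darts of the edges in `E` -/
noncomputable def flipE (H : SimpleGraph W) (E : Finset (Sym2 W)) : Perm H.Dart :=
  Function.Involutive.toPerm (fun d => if d.edge ∈ E then d.symm else d) (by
    intro d
    by_cases h : d.edge ∈ E <;> simp [h])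

theorem flipE_apply (E : Finset (Sym2 W)) (d : H.Dart) :
    flipE H E d = if d.edge ∈ E then d.symm else d := rfl

theorem flipE_insert (E : Finset (Sym2 W)) (d : H.Dart) (hd : d.edge ∉ E) :
    flipE H (insert d.edge E) = flipE H E * swap d d.symm := by
  ext1 x
  rw [Perm.mul_apply, flipE_apply, flipE_apply]
  by_cases h1 : x = d
  · subst h1
    simp [hd]
  by_cases h2 : x = d.symm
  · subst h2
    simp [hd]
  have h3 : x.edge ≠ d.edge := fun h => by
    rcases (SimpleGraph.dart_edge_eq_iff x d).1 h with h | h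
    exacts [h1 h, h2 h]
  rw [swap_apply_of_ne_of_ne h1 h2]
  simp [h3]

theorem exists_dart_of_mem {e : Sym2 W} (he : e ∈ H.edgeSet) : ∃ d : H.Dart, d.edge = e := by
  induction e using Sym2.ind with
  | _ u v => exact ⟨⟨(u, v), he⟩, rfl⟩

theorem cyc_flipE_union [Fintype W] (σ : Perm H.Dart) (E E' : Finset (Sym2 W))
    (hE' : ∀ e ∈ E', e ∈ H.edgeSet) :
    cyc (σ * flipE H (E' ∪ E)) ≤ cyc (σ * flipE H E) + E'.card := by
  induction E' using Finset.induction_on with
  | empty => simp
  | insert e E' he ih =>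
    have ih' := ih (fun e he => hE' e (Finset.mem_insert_of_mem he))
    rw [Finset.insert_union, Finset.card_insert_of_notMem he]
    by_cases h : e ∈ E' ∪ E
    · rw [Finset.insert_eq_of_mem h]
      omega
    · obtain ⟨d, rfl⟩ := exists_dart_of_mem (hE' e (Finset.mem_insert_self _ _))
      rw [flipE_insert _ d h, ← mul_assoc]
      have := cyc_swap_le (σ * flipE H (E' ∪ E)) d d.symm
      omega

/-- A rooted spanning forest with one root in each component. -/
structure Forest (H : SimpleGraph W) where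
  par : W → W
  dp : W → ℕ
  adj : ∀ v, dp v ≠ 0 → H.Adj v (par v) ∧ dp v = dp (par v) + 1
  uniq : ∀ u v, dp u = 0 → dp v = 0 → H.Reachable u v → u = v

namespace Forest

variable (F : Forest H)

/-- ancestor relation -/
def Anc : W → W → Prop := ReflTransGen (fun a b => F.dp b ≠ 0 ∧ F.par b = a)

theorem anc_refl (v : W) : F.Anc v v := ReflTransGen.refl

theorem anc_par {u v : W} (hv : F.dp v ≠ 0) (h : F.Anc u (F.par v)) : F.Anc u v :=
  ReflTransGen.tail h ⟨hv, rfl⟩

theorem anc_cases {u v : W} (h : F.Anc u v) : u = v ∨ (F.dp v ≠ 0 ∧ F.Anc u (F.par v)) := by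
  rcases ReflTransGen.cases_tail h with h | ⟨c, hc, hc'⟩
  · exact Or.inl h.symm
  · exact Or.inr ⟨hc'.1, hc'.2 ▸ hc⟩

theorem anc_le {u v : W} (h : F.Anc u v) : F.dp u ≤ F.dp v := by
  induction h with
  | refl => exact le_rfl
  | tail _ h ih =>
    have := (F.adj _ h.1).2
    rw [h.2] at this
    omega

theorem anc_reach {u v : W} (h : F.Anc u v) : H.Reachable u v := by
  induction h with
  | refl => exact SimpleGraph.Reachable.refl _
  | tail _ h ih => exact ih.trans (h.2 ▸ (F.adj _ h.1).1.symm.reachable)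

theorem exists_root (v : W) : ∃ ρ, F.dp ρ = 0 ∧ F.Anc ρ v := by
  induction hn : F.dp v generalizing v with
  | zero => exact ⟨v, hn, F.anc_refl v⟩
  | succ n ih =>
    have hv : F.dp v ≠ 0 := by omega
    obtain ⟨ρ, h1, h2⟩ := ih (F.par v) (by have := (F.adj v hv).2; omega)
    exact ⟨ρ, h1, F.anc_par hv h2⟩

theorem anc_of_reach {ρ v : W} (hρ : F.dp ρ = 0) (h : H.Reachable ρ v) : F.Anc ρ v := by
  obtain ⟨ρ', h1, h2⟩ := F.exists_root v
  rw [F.uniq ρ ρ' hρ h1 (h.trans (F.anc_reach h2).symm)]
  exact h2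

variable [Fintype W]

/-- tree edges -/
noncomputable def ET : Finset (Sym2 W) :=
  (Finset.univ.filter (fun v => F.dp v ≠ 0)).image (fun v => s(v, F.par v))

theorem mem_ET (d : H.Dart) : d.edge ∈ F.ET ↔
    (F.dp d.fst ≠ 0 ∧ F.par d.fst = d.snd) ∨ (F.dp d.snd ≠ 0 ∧ F.par d.snd = d.fst) := by
  simp only [ET, Finset.mem_image, Finset.mem_filter, Finset.mem_univ, true_and,
    SimpleGraph.Dart.edge, Sym2.eq_iff]
  constructor
  · rintro ⟨v, hv, ⟨h1, h2⟩ | ⟨h1, h2⟩⟩
    · left; rw [← h1]; exact ⟨hv, h2⟩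
    · right; rw [← h1]; exact ⟨hv, h2⟩
  · rintro (⟨h1, h2⟩ | ⟨h1, h2⟩)
    · exact ⟨_, h1, Or.inl ⟨rfl, h2⟩⟩
    · exact ⟨_, h1, Or.inr ⟨rfl, h2⟩⟩

theorem card_ET : F.ET.card + (Finset.univ.filter (fun v => F.dp v = 0)).card = Fintype.card W := by
  rw [ET, Finset.card_image_of_injOn]
  · rw [add_comm]
    exact (Finset.card_filter_add_card_filter_not (s := Finset.univ) (fun v => F.dp v = 0)).trans
      Finset.card_univ
  · intro u hu v hv h
    simp only [Finset.coe_filter, Finset.mem_univ, true_and, Set.mem_ofPred_eq] at hu hv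
    rcases Sym2.eq_iff.1 h with h | ⟨h1, h2⟩
    · exact h.1
    · have a1 := (F.adj u hu).2
      have a2 := (F.adj v hv).2
      rw [h2] at a1
      rw [← h1] at a2
      omega

theorem ET_sub {e : Sym2 W} (he : e ∈ F.ET) : e ∈ H.edgeSet := by
  obtain ⟨v, hv, rfl⟩ := Finset.mem_image.1 he
  exact (F.adj v (Finset.mem_filter.1 hv).2).1

variable {σ : Perm H.Dart} (hσ : ∀ d : H.Dart, (σ d).fst = d.fst)
  (hσ' : ∀ d e : H.Dart, d.fst = e.fst → σ.SameCycle d e)

include hσ in
theorem tau_fst (d : H.Dart) :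
    ((σ * flipE H F.ET) d).fst = if d.edge ∈ F.ET then d.snd else d.fst := by
  rw [Perm.mul_apply, hσ, flipE_apply]
  split_ifs <;> rfl

include hσ in
theorem enter {u : W} {d : H.Dart} (h1 : F.Anc u ((σ * flipE H F.ET) d).fst)
    (h2 : ¬ F.Anc u d.fst) : d.snd = u ∧ F.par u = d.fst := by
  rw [F.tau_fst hσ] at h1
  split_ifs at h1 with h
  · rcases (F.mem_ET d).1 h with h | h
    · exact (h2 (F.anc_par h.1 (h.2 ▸ h1))).elim
    · rcases F.anc_cases h1 with h3 | h3
      · exact ⟨h3.symm, h3 ▸ h.2⟩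
      · exact (h2 (h.2 ▸ h3.2)).elim
  · exact (h2 h1).elim

include hσ in
theorem leave {u : W} {d : H.Dart} (h1 : ¬ F.Anc u ((σ * flipE H F.ET) d).fst)
    (h2 : F.Anc u d.fst) : d.fst = u ∧ F.par u = d.snd := by
  rw [F.tau_fst hσ] at h1
  split_ifs at h1 with h
  · rcases (F.mem_ET d).1 h with h | h
    · rcases F.anc_cases h2 with h3 | h3
      · exact ⟨h3.symm, h3 ▸ h.2⟩
      · exact (h1 (h.2 ▸ h3.2)).elim
    · exact (h1 (F.anc_par h.1 (h.2 ▸ h2))).elim
  · exact (h1 h2).elim

include hσ in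
theorem same_down {d : H.Dart} (h : F.dp d.snd ≠ 0 ∧ F.par d.snd = d.fst) :
    (σ * flipE H F.ET).SameCycle d d.symm := by
  by_contra hc
  have hna : ¬ F.Anc d.snd d.fst := fun h' => by
    have a1 := F.anc_le h'
    have a2 := (F.adj _ h.1).2
    rw [h.2] at a2
    omega
  have := mem_of_sameCycle (π := σ * flipE H F.ET)
    (I := fun x => (σ * flipE H F.ET).SameCycle d x ∧ F.Anc d.snd x.fst) (by
      intro x hx
      refine ⟨by simpa only [sameCycle_apply_right] using hx.1, ?_⟩
      by_contra h3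
      obtain ⟨h4, h5⟩ := F.leave hσ h3 hx.2
      have : x = d.symm := by
        ext
        · exact h4
        · exact h5.symm.trans h.2
      exact hc (this ▸ hx.1)) (x := (σ * flipE H F.ET) d) (y := d)
    (by simpa only [sameCycle_apply_left] using SameCycle.refl _ d)
    ⟨by simpa only [sameCycle_apply_right] using SameCycle.refl _ d, by
      rw [F.tau_fst hσ, if_pos ((F.mem_ET d).2 (Or.inr h))]
      exact F.anc_refl _⟩
  exact hna this.2

include hσ in
theorem same_symm {d : H.Dart} (h : d.edge ∈ F.ET) :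
    (σ * flipE H F.ET).SameCycle d d.symm := by
  rcases (F.mem_ET d).1 h with h | h
  · have := F.same_down hσ (d := d.symm) h
    rw [SimpleGraph.Dart.symm_symm] at this
    exact this.symm
  · exact F.same_down hσ h

include hσ in
theorem same_sigma (d : H.Dart) : (σ * flipE H F.ET).SameCycle d (σ d) := by
  by_cases h : d.edge ∈ F.ET
  · refine (F.same_symm hσ h).trans ?_
    have : σ d = (σ * flipE H F.ET) d.symm := by
      rw [Perm.mul_apply, flipE_apply, if_pos (by simpa using h), SimpleGraph.Dart.symm_symm]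
    rw [this, sameCycle_apply_right]
  · have : σ d = (σ * flipE H F.ET) d := by
      rw [Perm.mul_apply, flipE_apply, if_neg h]
    rw [this, sameCycle_apply_right]

include hσ hσ' in
theorem same_fst {d e : H.Dart} (h : d.fst = e.fst) : (σ * flipE H F.ET).SameCycle d e :=
  mem_of_sameCycle (π := σ) (I := fun x => (σ * flipE H F.ET).SameCycle d x)
    (fun x hx => hx.trans (F.same_sigma hσ x)) (hσ' d e h) (SameCycle.refl _ _)

include hσ hσ' in
theorem same_anc {u v : W} (h : F.Anc u v) {d e : H.Dart} (hd : d.fst = u) (he : e.fst = v) :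
    (σ * flipE H F.ET).SameCycle d e := by
  induction h generalizing e with
  | refl => exact F.same_fst hσ hσ' (hd.trans he.symm)
  | @tail b c _ h ih =>
    let x : H.Dart := ⟨(b, c), h.2 ▸ (F.adj c h.1).1.symm⟩
    exact (ih (e := x) rfl).trans ((F.same_down hσ (d := x) h).trans
      (F.same_fst hσ hσ' he.symm))

include hσ hσ' in
theorem cyc_tau : cyc (σ * flipE H F.ET) + Nat.card {v : W // ∀ w, ¬ H.Adj v w} ≤
    (Finset.univ.filter (fun v => F.dp v = 0)).card := by
  choose rt hrt using F.exists_root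
  have h1 := cyc_le_card (π := σ * flipE H F.ET) (fun d => rt d.fst) (by
    intro x y hxy
    have hr : H.Reachable x.fst y.fst :=
      (F.anc_reach (hrt x.fst).2).symm.trans (hxy ▸ F.anc_reach (hrt y.fst).2)
    by_cases h0 : rt x.fst = x.fst
    · exact F.same_anc hσ hσ' (hxy ▸ (hrt y.fst).2) h0.symm rfl
    · obtain ⟨c, hc⟩ := (F.anc_reach (hrt x.fst).2).nonempty_neighborSet_left h0
      let z : H.Dart := ⟨(rt x.fst, c), hc⟩
      exact (F.same_anc hσ hσ' (hrt x.fst).2 (d := z) rfl rfl).symm.trans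
        (F.same_anc hσ hσ' (hrt y.fst).2 (d := z) hxy rfl))
  have h2 : Disjoint (Set.range (fun d : H.Dart => rt d.fst)) {v : W | ∀ w, ¬ H.Adj v w} := by
    rw [Set.disjoint_left]
    rintro _ ⟨x, rfl⟩ hx
    by_cases h0 : rt x.fst = x.fst
    · exact hx x.snd (by simp only [h0]; exact x.adj)
    · obtain ⟨c, hc⟩ := (F.anc_reach (hrt x.fst).2).nonempty_neighborSet_left h0
      exact hx c hc
  have h3 := Set.ncard_union_eq h2
  have h4 : Set.range (fun d : H.Dart => rt d.fst) ∪ {v : W | ∀ w, ¬ H.Adj v w} ⊆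
      ↑(Finset.univ.filter (fun v => F.dp v = 0)) := by
    rintro v (⟨x, rfl⟩ | hv)
    · simpa using (hrt x.fst).1
    · simp only [Finset.coe_filter, Finset.mem_univ, true_and, Set.mem_ofPred_eq]
      by_contra h
      exact hv _ (F.adj v h).1
  have h5 := Set.ncard_le_ncard h4
  rw [Set.ncard_coe_finset] at h5
  have h6 : Nat.card {v : W // ∀ w, ¬ H.Adj v w} = {v : W | ∀ w, ¬ H.Adj v w}.ncard :=
    Nat.card_coe_set_eq _
  omega

theorem roots_le : (Finset.univ.filter (fun v => F.dp v = 0)).card ≤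
    Nat.card H.ConnectedComponent := by
  rw [← Nat.card_eq_finsetCard]
  refine Nat.card_le_card_of_injective (fun v => H.connectedComponentMk v.1) ?_
  intro u v h
  exact Subtype.ext (F.uniq _ _ (Finset.mem_filter.1 u.2).2 (Finset.mem_filter.1 v.2).2
    (SimpleGraph.ConnectedComponent.exact h))

include hσ hσ' in
/-- Two non-tree edges of a plane graph do not cross around a spanning forest. -/
theorem no_cross
    (hE : 2 * (Nat.card H.ConnectedComponent : ℤ) ≤
      (Nat.card W : ℤ) - (Nat.card H.edgeSet : ℤ)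
      + ((σ * Function.Involutive.toPerm (SimpleGraph.Dart.symm : H.Dart → H.Dart)
            SimpleGraph.Dart.symm_involutive).cycleType.card : ℤ)
      + (Nat.card {v : W // ∀ w, ¬ H.Adj v w} : ℤ))
    {a b : H.Dart} (ha : a.edge ∉ F.ET) (hb : b.edge ∉ F.ET) (hab : b.edge ≠ a.edge) :
    (σ * flipE H F.ET * swap a a.symm).SameCycle b b.symm := by
  by_contra hc
  have h1 := cyc_swap_lt _ hc
  have h2 := cyc_swap_le (σ * flipE H F.ET) a a.symm
  have hb' : b.edge ∉ insert a.edge F.ET := by simp [hab, hb]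
  have h3 : σ * flipE H F.ET * swap a a.symm * swap b b.symm =
      σ * flipE H (insert b.edge (insert a.edge F.ET)) := by
    rw [flipE_insert _ b hb', flipE_insert _ a ha]
    simp only [mul_assoc]
  have hsub : insert b.edge (insert a.edge F.ET) ⊆ H.edgeFinset := by
    intro e he
    rw [SimpleGraph.mem_edgeFinset]
    rcases Finset.mem_insert.1 he with rfl | he
    · exact b.edge_mem
    rcases Finset.mem_insert.1 he with rfl | he
    · exact a.edge_mem
    exact F.ET_sub he
  have h4 := cyc_flipE_union σ (insert b.edge (insert a.edge F.ET))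
    (H.edgeFinset \ insert b.edge (insert a.edge F.ET))
    (fun e he => SimpleGraph.mem_edgeFinset.1 (Finset.mem_sdiff.1 he).1)
  rw [Finset.sdiff_union_of_subset hsub] at h4
  have h5 : flipE H H.edgeFinset = Function.Involutive.toPerm
      (SimpleGraph.Dart.symm : H.Dart → H.Dart) SimpleGraph.Dart.symm_involutive := by
    ext1 d
    rw [flipE_apply, if_pos (SimpleGraph.mem_edgeFinset.2 d.edge_mem)]
    rfl
  rw [h5] at h4
  have h6 := cycleType_card_le (σ * Function.Involutive.toPerm
      (SimpleGraph.Dart.symm : H.Dart → H.Dart) SimpleGraph.Dart.symm_involutive)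
  have h7 := Finset.card_sdiff_add_card_eq_card hsub
  rw [Finset.card_insert_of_notMem hb', Finset.card_insert_of_notMem ha] at h7
  have h8 : Nat.card H.edgeSet = H.edgeFinset.card := by
    rw [SimpleGraph.edgeFinset_card, Nat.card_eq_fintype_card]
  have h9 := F.card_ET
  have h10 := F.cyc_tau hσ hσ'
  have h11 := F.roots_le
  rw [h3] at h1
  rw [h8, Nat.card_eq_fintype_card (α := W)] at hE
  have h6' : (σ * Function.Involutive.toPerm (SimpleGraph.Dart.symm : H.Dart → H.Dart)
            SimpleGraph.Dart.symm_involutive).cycleType.card ≤ cyc (σ * Function.Involutive.toPerm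
      (SimpleGraph.Dart.symm : H.Dart → H.Dart) SimpleGraph.Dart.symm_involutive) := by
    convert h6
  omega

end Forest

end Pool.Agent.Lib.MP_f8d2b9_co
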