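import Mathlib
import Pool.Agent.Lib.MP_f8d2b9_co.Forest
import Pool.Agent.Lib.MP_25cd9a_co.VanKampen

/-! A square piece of the grid has a rotation system of genus zero. -/

set_option autoImplicit false
open Classical Equiv Equiv.Perm

namespace Pool.Agent.Lib.MP_f8d2b9_co

open Pool.Agent.Lib.MP_25cd9a_co (grid)

/-- the square of lattice points -/
def sq (N : ℕ) : Set (ℤ × ℤ) := {p | -(N : ℤ) ≤ p.1 ∧ p.1 ≤ N ∧ -(N : ℤ) ≤ p.2 ∧ p.2 ≤ N}

theorem mem_sq {N : ℕ} {p : ℤ × ℤ} :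
    p ∈ sq N ↔ -(N : ℤ) ≤ p.1 ∧ p.1 ≤ N ∧ -(N : ℤ) ≤ p.2 ∧ p.2 ≤ N := Iff.rfl

theorem sq_eq (N : ℕ) :
    sq N = ↑(Finset.Icc (-(N : ℤ)) N ×ˢ Finset.Icc (-(N : ℤ)) N) := by
  ext p
  simp only [mem_sq, Finset.coe_product, Finset.coe_Icc, Set.mem_prod, Set.mem_Icc]
  tauto

theorem sq_finite (N : ℕ) : (sq N).Finite := by
  rw [sq_eq]; exact Finset.finite_toSet _

noncomputable instance (N : ℕ) : Fintype (sq N) := (sq_finite N).fintype

theorem grid_adj {p q : ℤ × ℤ} : grid.Adj p q ↔ (p.1 = q.1 ∧ (p.2 + 1 = q.2 ∨ q.2 + 1 = p.2)) ∨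
    (p.2 = q.2 ∧ (p.1 + 1 = q.1 ∨ q.1 + 1 = p.1)) := Iff.rfl

theorem dirs {x y : ℤ} {q : ℤ × ℤ} (h : grid.Adj (x, y) q) :
    q = (x + 1, y) ∨ q = (x, y + 1) ∨ q = (x - 1, y) ∨ q = (x, y - 1) := by
  obtain ⟨a, b⟩ := q
  rw [grid_adj] at h
  simp only [Prod.mk.injEq] at h ⊢
  omega

/-- the next neighbour of `p` after `q`, counterclockwise -/
noncomputable def nxt (U : Set (ℤ × ℤ)) (p q : ℤ × ℤ) : ℤ × ℤ :=
  if (p.1 - (q.2 - p.2), p.2 + (q.1 - p.1)) ∈ U then (p.1 - (q.2 - p.2), p.2 + (q.1 - p.1))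
  else if (p.1 - (q.1 - p.1), p.2 - (q.2 - p.2)) ∈ U then (p.1 - (q.1 - p.1), p.2 - (q.2 - p.2))
  else if (p.1 + (q.2 - p.2), p.2 - (q.1 - p.1)) ∈ U then (p.1 + (q.2 - p.2), p.2 - (q.1 - p.1))
  else q

variable {U : Set (ℤ × ℤ)} {x y : ℤ}

theorem nxtE : nxt U (x, y) (x + 1, y) = if (x, y + 1) ∈ U then (x, y + 1) else
    if (x - 1, y) ∈ U then (x - 1, y) else if (x, y - 1) ∈ U then (x, y - 1) else (x + 1, y) := by
  simp [nxt]

theorem nxtN : nxt U (x, y) (x, y + 1) = if (x - 1, y) ∈ U then (x - 1, y) else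
    if (x, y - 1) ∈ U then (x, y - 1) else if (x + 1, y) ∈ U then (x + 1, y) else (x, y + 1) := by
  simp [nxt]

theorem nxtW : nxt U (x, y) (x - 1, y) = if (x, y - 1) ∈ U then (x, y - 1) else
    if (x + 1, y) ∈ U then (x + 1, y) else if (x, y + 1) ∈ U then (x, y + 1) else (x - 1, y) := by
  simp [nxt, sub_eq_add_neg]

theorem nxtS : nxt U (x, y) (x, y - 1) = if (x + 1, y) ∈ U then (x + 1, y) else
    if (x, y + 1) ∈ U then (x, y + 1) else if (x - 1, y) ∈ U then (x - 1, y) else (x, y - 1) := by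
  simp [nxt, sub_eq_add_neg]

theorem nxt_mem {p q : ℤ × ℤ} (hq : q ∈ U) : nxt U p q ∈ U := by
  unfold nxt
  split_ifs <;> assumption

theorem nxt_adj {p q : ℤ × ℤ} (h : grid.Adj p q) : grid.Adj p (nxt U p q) := by
  rw [grid_adj] at h ⊢
  unfold nxt
  split_ifs <;> (try simp only) <;> omega

theorem nxt_cyc {p q q' : ℤ × ℤ} (hq : q ∈ U) (hq' : q' ∈ U) (h : grid.Adj p q)
    (h' : grid.Adj p q') : q' = nxt U p q ∨ q' = nxt U p (nxt U p q) ∨
      q' = nxt U p (nxt U p (nxt U p q)) ∨ q' = nxt U p (nxt U p (nxt U p (nxt U p q))) := by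
  obtain ⟨x, y⟩ := p
  by_cases h1 : (x + 1, y) ∈ U <;> by_cases h2 : (x, y + 1) ∈ U <;>
    by_cases h3 : (x - 1, y) ∈ U <;> by_cases h4 : (x, y - 1) ∈ U <;>
    rcases dirs h with rfl | rfl | rfl | rfl <;> rcases dirs h' with rfl | rfl | rfl | rfl <;>
    first
    | contradiction
    | simp only [nxtE, nxtN, nxtW, nxtS, h1, h2, h3, h4, if_true, if_false, true_or, or_true]

/-- the rotation map on darts -/
noncomputable def rotD (U : Set (ℤ × ℤ)) (d : (grid.induce U).Dart) : (grid.induce U).Dart :=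
  ⟨(d.fst, ⟨nxt U d.fst.1 d.snd.1, nxt_mem d.snd.2⟩), nxt_adj (U := U) d.adj⟩

theorem rotD_cyc (d e : (grid.induce U).Dart) (h : d.fst = e.fst) :
    ∃ n, (rotD U)^[n + 1] d = e := by
  have he : grid.Adj d.fst.1 e.snd.1 := by rw [h]; exact e.adj
  rcases nxt_cyc d.snd.2 e.snd.2 d.adj he with h1 | h1 | h1 | h1
  · exact ⟨0, SimpleGraph.Dart.ext _ _ (Prod.ext h (Subtype.ext h1.symm))⟩
  · exact ⟨1, SimpleGraph.Dart.ext _ _ (Prod.ext h (Subtype.ext h1.symm))⟩
  · exact ⟨2, SimpleGraph.Dart.ext _ _ (Prod.ext h (Subtype.ext h1.symm))⟩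
  · exact ⟨3, SimpleGraph.Dart.ext _ _ (Prod.ext h (Subtype.ext h1.symm))⟩

theorem rotD_surj : Function.Surjective (rotD U) := by
  intro d
  obtain ⟨n, hn⟩ := rotD_cyc d d rfl
  exact ⟨_, (Function.iterate_succ_apply' _ _ _).symm.trans hn⟩

/-- the face on the right of a dart -/
def face (N : ℕ) (p q : ℤ × ℤ) : Option (ℤ × ℤ) :=
  if -(2 * N : ℤ) < p.1 + q.1 + (q.2 - p.2) ∧ p.1 + q.1 + (q.2 - p.2) < 2 * N ∧
      -(2 * N : ℤ) < p.2 + q.2 - (q.1 - p.1) ∧ p.2 + q.2 - (q.1 - p.1) < 2 * N then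
    some (p.1 + q.1 + (q.2 - p.2), p.2 + q.2 - (q.1 - p.1)) else none

theorem face_nxt {N : ℕ} {p q : ℤ × ℤ} (hp : p ∈ sq N) (hq : q ∈ sq N) (h : grid.Adj p q) :
    face N q (nxt (sq N) q p) = face N p q := by
  obtain ⟨x, y⟩ := q
  rw [mem_sq] at hq
  rcases dirs h.symm with rfl | rfl | rfl | rfl <;>
    simp only [nxtE, nxtN, nxtW, nxtS, mem_sq] at hp hq ⊢ <;> split_ifs <;>
    simp only [face] <;> split_ifs <;>
    first
    | rfl
    | (exfalso; omega)
    | (congr 2 <;> omega)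

theorem cyc_le_cycleType {α : Type} {_ : Fintype α} {_ : DecidableEq α} (π : Perm α)
    (h : ∀ a, π a ≠ a) : cyc π ≤ π.cycleType.card := by
  have h1 : π.cycleType.card = π.cycleFactorsFinset.card := by simp [cycleType_def]
  rw [h1, ← Set.ncard_coe_finset]
  refine (cyc_le_card (π := π) (fun a => π.cycleOf a) ?_).trans
    (Set.ncard_le_ncard ?_ (Finset.finite_toSet _))
  · intro a b hab
    have : b ∈ (π.cycleOf a).support := by
      rw [show π.cycleOf a = π.cycleOf b from hab, mem_support_cycleOf_iff]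
      exact ⟨SameCycle.refl _ _, mem_support.2 (h b)⟩
    exact (mem_support_cycleOf_iff.1 this).1
  · rintro _ ⟨a, rfl⟩
    exact Finset.mem_coe.2 (cycleOf_mem_cycleFactorsFinset_iff.2 (mem_support.2 (h a)))

theorem sq_reach (N : ℕ) (u v : sq N) : (grid.induce (sq N)).Reachable u v := by
  have key : ∀ (n : ℕ) (u : sq N), (u.1.1 + N + (u.1.2 + N)).toNat = n →
      (grid.induce (sq N)).Reachable u ⟨(-N, -N), by simp [mem_sq]⟩ := by
    intro n
    induction n with
    | zero =>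
      rintro ⟨⟨a, b⟩, hu⟩ h
      have hu' := mem_sq.1 hu
      simp only at h hu'
      obtain rfl : a = -N := by omega
      obtain rfl : b = -N := by omega
      rfl
    | succ n ih =>
      rintro ⟨⟨a, b⟩, hu⟩ h
      have hu' := mem_sq.1 hu
      simp only at h hu'
      by_cases ha : a = -N
      · refine SimpleGraph.Reachable.trans (SimpleGraph.Adj.reachable ?_)
          (ih ⟨(a, b - 1), by rw [mem_sq]; simp only; omega⟩ (by simp only; omega))
        exact grid_adj.2 (by simp)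
      · refine SimpleGraph.Reachable.trans (SimpleGraph.Adj.reachable ?_)
          (ih ⟨(a - 1, b), by rw [mem_sq]; simp only; omega⟩ (by simp only; omega))
        exact grid_adj.2 (by simp)
  exact (key _ u rfl).trans (key _ v rfl).symm

theorem card_sq (N : ℕ) : Nat.card (sq N) = (2 * N + 1) * (2 * N + 1) := by
  rw [Nat.card_coe_set_eq, sq_eq, Set.ncard_coe_finset, Finset.card_product, Int.card_Icc]
  have : ((N : ℤ) + 1 - -(N : ℤ)).toNat = 2 * N + 1 := by omega
  rw [this]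

theorem card_edges (N : ℕ) :
    Nat.card (grid.induce (sq N)).edgeSet ≤ 2 * N * (2 * N + 1) + (2 * N + 1) * (2 * N) := by
  let f : Sym2 (sq N) → ℤ × ℤ :=
    Sym2.lift ⟨fun p q => (p.1.1 + q.1.1, p.1.2 + q.1.2), fun p q => by simp [add_comm]⟩
  let A := (Finset.Ico (-(N : ℤ)) N ×ˢ Finset.Icc (-(N : ℤ)) N).image
    (fun p => (2 * p.1 + 1, 2 * p.2))
  let B := (Finset.Icc (-(N : ℤ)) N ×ˢ Finset.Ico (-(N : ℤ)) N).image
    (fun p => (2 * p.1, 2 * p.2 + 1))
  have c1 : ((N : ℤ) + 1 - -(N : ℤ)).toNat = 2 * N + 1 := by omega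
  have c2 : ((N : ℤ) - -(N : ℤ)).toNat = 2 * N := by omega
  have hA : A.card ≤ 2 * N * (2 * N + 1) := Finset.card_image_le.trans (by
    rw [Finset.card_product, Int.card_Icc, Int.card_Ico, c1, c2])
  have hB : B.card ≤ (2 * N + 1) * (2 * N) := Finset.card_image_le.trans (by
    rw [Finset.card_product, Int.card_Icc, Int.card_Ico, c1, c2])
  refine le_trans ?_ ((Finset.card_union_le A B).trans (add_le_add hA hB))
  rw [Nat.card_coe_set_eq, ← Set.ncard_coe_finset]
  refine Set.ncard_le_ncard_of_injOn f ?_ ?_ (Finset.finite_toSet _)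
  · intro z hz
    induction z using Sym2.ind with
    | _ u v =>
      obtain ⟨⟨a, b⟩, hu⟩ := u
      obtain ⟨⟨c, d⟩, hv⟩ := v
      have h := grid_adj.1 hz
      have hu' := mem_sq.1 hu
      have hv' := mem_sq.1 hv
      simp only [Function.Embedding.coe_subtype] at h hu' hv'
      simp only [f, A, B, Sym2.lift_mk, Finset.coe_union, Finset.coe_image, Set.mem_union,
        Set.mem_image, Finset.mem_coe, Finset.mem_product, Finset.mem_Ico, Finset.mem_Icc,
        Prod.mk.injEq]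
      rcases h with ⟨h1, h2 | h2⟩ | ⟨h1, h2 | h2⟩
      · exact Or.inr ⟨(a, b), by simp only; omega, by simp only; omega⟩
      · exact Or.inr ⟨(c, d), by simp only; omega, by simp only; omega⟩
      · exact Or.inl ⟨(a, b), by simp only; omega, by simp only; omega⟩
      · exact Or.inl ⟨(c, d), by simp only; omega, by simp only; omega⟩
  · intro z hz w hw h
    induction z using Sym2.ind with
    | _ u v =>
      induction w using Sym2.ind with
      | _ u' v' =>
        obtain ⟨⟨a, b⟩, hu⟩ := u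
        obtain ⟨⟨c, d⟩, hv⟩ := v
        obtain ⟨⟨a', b'⟩, hu'⟩ := u'
        obtain ⟨⟨c', d'⟩, hv'⟩ := v'
        have h1 := grid_adj.1 hz
        have h2 := grid_adj.1 hw
        simp only [Function.Embedding.coe_subtype] at h1 h2
        simp only [f, Sym2.lift_mk, Prod.mk.injEq] at h
        simp only [Sym2.eq_iff, Subtype.mk.injEq, Prod.mk.injEq]
        omega

theorem sq_planar (N : ℕ) (hN : 1 ≤ N) : IsPlanar (grid.induce (sq N)) := by
  let σ : Perm (grid.induce (sq N)).Dart := Equiv.ofBijective (rotD (sq N))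
    (Finite.surjective_iff_bijective.1 rotD_surj)
  refine ⟨σ, fun d => rfl, fun d e h => ?_, ?_⟩
  · obtain ⟨n, hn⟩ := rotD_cyc d e h
    refine ⟨(n + 1 : ℕ), ?_⟩
    rw [zpow_natCast, ← iterate_eq_pow]
    exact hn
  set φ := σ * Function.Involutive.toPerm
    (SimpleGraph.Dart.symm : (grid.induce (sq N)).Dart → _) SimpleGraph.Dart.symm_involutive
  have h1 : ∀ d, φ d ≠ d := fun d h => d.adj.ne (congrArg (fun x => x.fst) h).symm
  have h2 := card_le_cyc (π := φ) (fun d => face N d.fst.1 d.snd.1)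
    (fun d => face_nxt d.fst.2 d.snd.2 d.adj)
  have h3 : 2 * N * (2 * N) + 1 ≤
      (Set.range fun d : (grid.induce (sq N)).Dart => face N d.fst.1 d.snd.1).ncard := by
    have c2 : ((N : ℤ) - -(N : ℤ)).toNat = 2 * N := by omega
    have : (insert none ((Finset.Ico (-(N : ℤ)) N ×ˢ Finset.Ico (-(N : ℤ)) N).image
        (fun p => some (2 * p.1 + 1, 2 * p.2 + 1)))).card = 2 * N * (2 * N) + 1 := by
      rw [Finset.card_insert_of_notMem (by simp), Finset.card_image_of_injective,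
        Finset.card_product, Int.card_Ico, c2]
      rintro ⟨a, b⟩ ⟨c, d⟩ h
      simp only [Option.some.injEq, Prod.mk.injEq] at h ⊢
      omega
    rw [← this, ← Set.ncard_coe_finset]
    refine Set.ncard_le_ncard ?_ (Set.toFinite _)
    intro z hz
    simp only [Finset.coe_insert, Finset.coe_image, Set.mem_insert_iff, Set.mem_image,
      Finset.mem_coe, Finset.mem_product, Finset.mem_Ico] at hz
    rcases hz with rfl | ⟨⟨a, b⟩, hab, rfl⟩
    · refine ⟨⟨(⟨(N, 0), by rw [mem_sq]; simp only; omega⟩,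
        ⟨(N, 1), by rw [mem_sq]; simp only; omega⟩), grid_adj.2 (by simp)⟩, ?_⟩
      simp only [face]
      rw [if_neg (by omega)]
    · simp only at hab
      refine ⟨⟨(⟨(a, b), by rw [mem_sq]; simp only; omega⟩,
        ⟨(a, b + 1), by rw [mem_sq]; simp only; omega⟩), grid_adj.2 (by simp)⟩, ?_⟩
      simp only [face]
      rw [if_pos (by omega)]
      congr 2 <;> omega
  have h4 : Nat.card (grid.induce (sq N)).ConnectedComponent ≤ 1 := by
    have : Subsingleton (grid.induce (sq N)).ConnectedComponent := ⟨by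
      intro a b
      induction a using SimpleGraph.ConnectedComponent.ind
      induction b using SimpleGraph.ConnectedComponent.ind
      exact SimpleGraph.ConnectedComponent.sound (sq_reach N _ _)⟩
    exact Finite.card_le_one_iff_subsingleton.2 this
  have h5 := card_edges N
  have h6 := card_sq N
  have key : ∀ c i : ℕ, 2 * N * (2 * N) + 1 ≤ c →
      2 * (Nat.card (grid.induce (sq N)).ConnectedComponent : ℤ) ≤ (Nat.card (sq N) : ℤ)
        - (Nat.card (grid.induce (sq N)).edgeSet : ℤ) + (c : ℤ) + (i : ℤ) := by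
    intro c i hc
    rw [h6]
    zify at h4 h5 hc
    push_cast
    have := Int.natCast_nonneg i
    nlinarith
  exact key _ _ (h3.trans (h2.trans (cyc_le_cycleType φ h1)))

end Pool.Agent.Lib.MP_f8d2b9_co
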