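import Mathlib
import Pool.Agent.Lib.MP_f8d2b9_co.Forest

set_option autoImplicit false
open Classical Relation Equiv Equiv.Perm

namespace Pool.Agent.Lib.MP_f8d2b9_co

variable {W : Type} {H : SimpleGraph W} [Fintype W]

namespace Forest

variable (F : Forest H)

/-- the part of the root path inside `Z` -/
noncomputable def P (Z : Set W) (v : W) : Finset W :=
  Finset.univ.filter (fun z => z ∈ Z ∧ F.Anc z v)

theorem mem_P {Z : Set W} {v z : W} : z ∈ F.P Z v ↔ z ∈ Z ∧ F.Anc z v := by simp [P]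

theorem tc_comp (hH : IsPlanar H) (Z : Set W) (r : ℕ) (hr : ∀ v, (F.P Z v).card ≤ r)
    (ρ : W) (hρ : F.dp ρ = 0) :
    Has H {z | z ∈ Z ∧ H.Reachable ρ z} (fun B => B.card ≤ 3 * r) ∅ := by
  by_cases hx0 : ∃ x0 : H.Dart, x0.fst = ρ
  swap
  · have := Has.leaf H (P := fun B => B.card ≤ 3 * r) (F.P Z ρ) ((hr ρ).trans (by omega))
    refine (this.congr ?_).mono (fun _ h => h) (Set.empty_subset _)
    ext z
    simp only [Finset.mem_coe, mem_P, Set.mem_ofPred_eq]
    constructor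
    · exact fun h => ⟨h.1, (F.anc_reach h.2).symm⟩
    · rintro ⟨h1, h2⟩
      refine ⟨h1, ?_⟩
      by_cases h : ρ = z
      · exact h ▸ F.anc_refl ρ
      · obtain ⟨c, hc⟩ := h2.nonempty_neighborSet_left h
        exact (hx0 ⟨⟨(ρ, c), hc⟩, rfl⟩).elim
  obtain ⟨x0, hx0⟩ := hx0
  obtain ⟨σ, hσ, hσ', hE⟩ := hH
  set τ := σ * flipE H F.ET with hτ
  let L := Function.minimalPeriod τ x0
  let pos : ℕ → H.Dart := fun i => τ^[i] x0
  have hL : 0 < L := Function.minimalPeriod_pos_of_mem_periodicPts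
    (Function.mk_mem_periodicPts (orderOf_pos τ) (by
      show τ^[orderOf τ] x0 = x0
      rw [iterate_eq_pow, pow_orderOf_eq_one]; rfl))
  have hinj : ∀ i j, i < L → j < L → pos i = pos j → i = j := fun i j hi hj h =>
    Function.iterate_injOn_Iio_minimalPeriod hi hj h
  have hsucc : ∀ i, pos (i + 1) = τ (pos i) := fun i => Function.iterate_succ_apply' _ _ _
  have hposL : pos L = x0 := Function.isPeriodicPt_minimalPeriod τ x0
  have hsurj : ∀ e : H.Dart, H.Reachable ρ e.fst → ∃ i < L, pos i = e := by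
    intro e he
    obtain ⟨n, hn⟩ := (F.same_anc hσ hσ' (F.anc_of_reach hρ he) hx0 rfl).exists_nat_pow_eq
    exact ⟨n % L, Nat.mod_lt _ hL, Function.iterate_mod_minimalPeriod_eq.trans hn⟩
  have hreach : ∀ i, H.Reachable ρ (pos i).fst := by
    intro i
    induction i with
    | zero => exact hx0 ▸ SimpleGraph.Reachable.refl _
    | succ i ih =>
      rw [hsucc, hτ, F.tau_fst hσ]
      split_ifs
      · exact ih.trans (pos i).adj.reachable
      · exact ih
  let O : SimpleGraph ℕ := SimpleGraph.fromRel (fun i j => j = i + 1 ∨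
    (i < L ∧ j < L ∧ (pos i).edge ∉ F.ET ∧ pos j = (pos i).symm))
  have hchord : ∀ a a', a + 1 < a' → O.Adj a a' →
      a < L ∧ a' < L ∧ (pos a).edge ∉ F.ET ∧ pos a' = (pos a).symm := by
    intro a a' h hadj
    rw [SimpleGraph.fromRel_adj] at hadj
    rcases hadj.2 with (h1 | h1) | (h1 | h1)
    · omega
    · exact h1
    · omega
    · refine ⟨h1.2.1, h1.1, ?_, ?_⟩
      · rw [h1.2.2.2]; simpa using h1.2.2.1
      · rw [h1.2.2.2, SimpleGraph.Dart.symm_symm]
  have hnc := noncrossing O L (by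
    intro a b a' b' h1 h2 h3 _ ha hb
    obtain ⟨a1, a2, a3, a4⟩ := hchord a a' (by omega) ha
    obtain ⟨b1, b2, b3, b4⟩ := hchord b b' (by omega) hb
    have hne : (pos b).edge ≠ (pos a).edge := by
      intro h
      rcases (SimpleGraph.dart_edge_eq_iff _ _).1 h with h | h
      · have := hinj _ _ b1 a1 h; omega
      · have := hinj _ _ b1 a2 (h.trans a4.symm); omega
    have hs := F.no_cross hσ hσ' hE a3 b3 hne
    have := mem_of_sameCycle (I := fun x => ∃ i, a < i ∧ i ≤ a' ∧ pos i = x) (by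
      rintro x ⟨i, hi1, hi2, rfl⟩
      by_cases hi : i = a'
      · subst hi
        refine ⟨a + 1, by omega, by omega, ?_⟩
        rw [Perm.mul_apply, a4, swap_apply_right, hsucc]
      · refine ⟨i + 1, by omega, by omega, ?_⟩
        rw [Perm.mul_apply, swap_apply_of_ne_of_ne, hsucc]
        · intro h
          have := hinj _ _ (by omega) a1 h; omega
        · intro h
          exact hi (hinj _ _ (by omega) a2 (h.trans a4.symm))) hs ⟨b, h1, h2.le, rfl⟩
    obtain ⟨i, hi1, hi2, hi3⟩ := this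
    have := hinj _ _ (by omega) b2 (hi3.trans b4.symm)
    omega) _ 0 L rfl hL le_rfl
  refine hnc.map (fun i => F.P Z (pos i).fst) (fun p _ => hr _) ?_ ?_ ?_ ?_
  · intro p _ u hu
    rw [mem_P] at hu
    exact ⟨hu.1, (hreach p).trans (F.anc_reach hu.2).symm⟩
  · intro u hu
    obtain ⟨e, he⟩ : ∃ e : H.Dart, e.fst = u := by
      by_cases h : u = ρ
      · exact ⟨x0, h ▸ hx0⟩
      · obtain ⟨c, hc⟩ := hu.2.symm.nonempty_neighborSet_left h
        exact ⟨⟨(u, c), hc⟩, rfl⟩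
    obtain ⟨i, hi, rfl⟩ := hsurj e (he ▸ hu.2)
    exact ⟨i, ⟨Nat.zero_le _, hi.le⟩, F.mem_P.2 ⟨hu.1, he ▸ F.anc_refl _⟩⟩
  · intro u hu v hv huv
    obtain ⟨i, hi, hi'⟩ := hsurj ⟨(u, v), huv⟩ hu.2
    obtain ⟨j, hj, hj'⟩ := hsurj ⟨(v, u), huv.symm⟩ hv.2
    have hiu : (pos i).fst = u := by rw [hi']
    have hjv : (pos j).fst = v := by rw [hj']
    have hui : u ∈ F.P Z (pos i).fst := F.mem_P.2 ⟨hu.1, hiu ▸ F.anc_refl _⟩
    have hvj : v ∈ F.P Z (pos j).fst := F.mem_P.2 ⟨hv.1, hjv ▸ F.anc_refl _⟩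
    by_cases ht : (pos i).edge ∈ F.ET
    · rw [hi'] at ht
      rcases (F.mem_ET _).1 ht with h | h
      · refine ⟨i, ⟨Nat.zero_le _, hi.le⟩, i, ⟨Nat.zero_le _, hi.le⟩, hui,
          F.mem_P.2 ⟨hv.1, ?_⟩, Or.inl rfl⟩
        rw [hiu]
        exact F.anc_par h.1 (h.2 ▸ F.anc_refl _)
      · refine ⟨j, ⟨Nat.zero_le _, hj.le⟩, j, ⟨Nat.zero_le _, hj.le⟩,
          F.mem_P.2 ⟨hu.1, ?_⟩, hvj, Or.inl rfl⟩
        rw [hjv]
        exact F.anc_par h.1 (h.2 ▸ F.anc_refl _)
    · refine ⟨i, ⟨Nat.zero_le _, hi.le⟩, j, ⟨Nat.zero_le _, hj.le⟩, hui, hvj, ?_⟩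
      by_cases hij : i = j
      · exact Or.inl hij
      · refine Or.inr ((SimpleGraph.fromRel_adj _ _ _).2 ⟨hij, Or.inl (Or.inr ⟨hi, hj, ht, ?_⟩)⟩)
        rw [hi', hj']; rfl
  · intro u p hp q hq hup huq
    have key : ∀ i, i ≤ L → u ∈ F.P Z (pos i).fst → ∃ s ≤ L, u ∈ F.P Z (pos s).fst ∧
        (s = 0 ∨ ∃ t, s = t + 1 ∧ u ∉ F.P Z (pos t).fst) ∧
        Ch O (fun a => a ∈ Set.Icc 0 L ∧ u ∈ F.P Z (pos a).fst) s i := by
      intro i
      induction i with
      | zero => exact fun h hu => ⟨0, h, hu, Or.inl rfl, Ch.refl _⟩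
      | succ i ih =>
        intro h hu
        by_cases hi : u ∈ F.P Z (pos i).fst
        · obtain ⟨s, h1, h2, h3, h4⟩ := ih (by omega) hi
          refine ⟨s, h1, h2, h3, h4.trans (Ch.single ?_ ⟨⟨Nat.zero_le _, by omega⟩, hi⟩
            ⟨⟨Nat.zero_le _, h⟩, hu⟩)⟩
          exact (SimpleGraph.fromRel_adj _ _ _).2 ⟨by omega, Or.inl (Or.inl rfl)⟩
        · exact ⟨i + 1, h, hu, Or.inr ⟨i, rfl, hi⟩, Ch.refl _⟩
    obtain ⟨s, s1, s2, s3, s4⟩ := key p hp.2 hup
    obtain ⟨s', s1', s2', s3', s4'⟩ := key q hq.2 huq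
    have huZ := (F.mem_P.1 hup).1
    have h0 : u ∈ F.P Z (pos 0).fst → ∀ t, u ∈ F.P Z (pos t).fst := by
      intro h t
      have h1 : F.Anc u ρ := hx0 ▸ (F.mem_P.1 h).2
      have h2 : u = ρ := by
        rcases F.anc_cases h1 with h | h
        · exact h
        · exact (h.1 hρ).elim
      exact F.mem_P.2 ⟨huZ, h2 ▸ F.anc_of_reach hρ (hreach t)⟩
    have hent : ∀ t, u ∈ F.P Z (pos (t + 1)).fst → u ∉ F.P Z (pos t).fst →
        (pos t).snd = u ∧ F.par u = (pos t).fst := by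
      intro t h1 h2
      refine F.enter hσ ?_ (fun h => h2 (F.mem_P.2 ⟨huZ, h⟩))
      rw [← hτ, ← hsucc]
      exact (F.mem_P.1 h1).2
    have hss : s = s' := by
      rcases s3 with rfl | ⟨t, rfl, ht⟩
      · rcases s3' with rfl | ⟨t', rfl, ht'⟩
        · rfl
        · exact (ht' (h0 s2 _)).elim
      · rcases s3' with rfl | ⟨t', rfl, ht'⟩
        · exact (ht (h0 s2' _)).elim
        · have e1 := hent t s2 ht
          have e2 := hent t' s2' ht'
          have : pos t = pos t' := by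
            ext
            · exact e1.2.symm.trans e2.2
            · exact e1.1.trans e2.1.symm
          rw [hinj t t' (by omega) (by omega) this]
    subst hss
    exact s4.symm.trans s4'

theorem tc_all (hH : IsPlanar H) (Z : Set W) (r : ℕ) (hr : ∀ v, (F.P Z v).card ≤ r) :
    Has H Z (fun B => B.card ≤ 3 * r) ∅ := by
  have key : ∀ Rs : Finset W, (∀ ρ ∈ Rs, F.dp ρ = 0) →
      Has H {z | z ∈ Z ∧ ∃ ρ ∈ Rs, H.Reachable ρ z} (fun B => B.card ≤ 3 * r) ∅ := by
    intro Rs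
    induction Rs using Finset.induction_on with
    | empty =>
      intro _
      have := Has.leaf H (P := fun B => B.card ≤ 3 * r) ∅ (by simp)
      exact (this.congr (by ext; simp)).mono (fun _ h => h) (Set.empty_subset _)
    | insert ρ Rs hρ ih =>
      intro h
      have h1 := ih (fun x hx => h x (Finset.mem_insert_of_mem hx))
      have h2 := F.tc_comp hH Z r hr ρ (h ρ (Finset.mem_insert_self _ _))
      refine (h1.glue h2 ?_ ?_).congr ?_
      · rintro v ⟨-, ρ', h3, h4⟩ ⟨-, h5⟩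
        have := F.uniq ρ ρ' (h ρ (Finset.mem_insert_self _ _)) (h ρ' (Finset.mem_insert_of_mem h3))
          (h5.trans h4.symm)
        exact (hρ (this ▸ h3)).elim
      · rintro u hu v hv huv
        exact Or.inl ⟨hu.1, hv.2.trans huv.symm.reachable⟩
      · ext z
        simp only [Set.mem_union, Set.mem_ofPred_eq, Finset.mem_insert, exists_eq_or_imp]
        rw [← and_or_left, or_comm]
  refine (key (Finset.univ.filter (fun v => F.dp v = 0))
    (fun ρ h => (Finset.mem_filter.1 h).2)).congr ?_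
  ext z
  simp only [Set.mem_ofPred_eq, Finset.mem_filter, Finset.mem_univ, true_and, and_iff_left_iff_imp]
  intro _
  obtain ⟨ρ, h1, h2⟩ := F.exists_root z
  exact ⟨ρ, h1, F.anc_reach h2⟩

end Forest

/-- `Rl H Rt Z v n l`: a walk of length `l` from a root to `v` with at most `n` vertices in `Z` -/
inductive Rl (H : SimpleGraph W) (Rt Z : Set W) : W → ℕ → ℕ → Prop
  | root (v : W) (n : ℕ) : v ∈ Rt → (v ∈ Z → 1 ≤ n) → Rl H Rt Z v n 0
  | step1 (u v : W) (n l : ℕ) : Rl H Rt Z u n l → H.Adj u v → Rl H Rt Z v (n + 1) (l + 1)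
  | step0 (u v : W) (n l : ℕ) : Rl H Rt Z u n l → H.Adj u v → v ∉ Z → Rl H Rt Z v n (l + 1)

/-- a walk from a root to `v` with at most `n` vertices in `Z` -/
def Rch (H : SimpleGraph W) (Rt Z : Set W) (v : W) (n : ℕ) : Prop := ∃ l, Rl H Rt Z v n l

omit [Fintype W] in
theorem Rch.root {Rt Z : Set W} {v : W} {n : ℕ} (h : v ∈ Rt) (h' : v ∈ Z → 1 ≤ n) :
    Rch H Rt Z v n := ⟨0, Rl.root v n h h'⟩

omit [Fintype W] in
theorem Rch.step1 {Rt Z : Set W} {u v : W} {n : ℕ} (h : Rch H Rt Z u n) (h' : H.Adj u v) :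
    Rch H Rt Z v (n + 1) := by
  obtain ⟨l, h⟩ := h
  exact ⟨l + 1, Rl.step1 u v n l h h'⟩

omit [Fintype W] in
theorem Rch.step0 {Rt Z : Set W} {u v : W} {n : ℕ} (h : Rch H Rt Z u n) (h' : H.Adj u v)
    (hv : v ∉ Z) : Rch H Rt Z v n := by
  obtain ⟨l, h⟩ := h
  exact ⟨l + 1, Rl.step0 u v n l h h' hv⟩

omit [Fintype W] in
theorem Rch.ind {Rt Z : Set W} {M : W → ℕ → Prop}
    (h0 : ∀ v n, v ∈ Rt → (v ∈ Z → 1 ≤ n) → M v n)
    (h1 : ∀ u v n, Rch H Rt Z u n → M u n → H.Adj u v → M v (n + 1))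
    (h2 : ∀ u v n, Rch H Rt Z u n → M u n → H.Adj u v → v ∉ Z → M v n)
    {v : W} {n : ℕ} (h : Rch H Rt Z v n) : M v n := by
  obtain ⟨l, h⟩ := h
  induction h with
  | root v n a b => exact h0 v n a b
  | step1 u v n l a b ih => exact h1 u v n ⟨l, a⟩ ih b
  | step0 u v n l a b c ih => exact h2 u v n ⟨l, a⟩ ih b c

omit [Fintype W] in
theorem Rch.mono {Rt Z Z' : Set W} {v : W} {n m : ℕ} (h : Rch H Rt Z v n) (hZ : Z' ⊆ Z)
    (hm : n ≤ m) : Rch H Rt Z' v m := by
  refine Rch.ind (M := fun v n => ∀ m, n ≤ m → Rch H Rt Z' v m) ?_ ?_ ?_ h m hm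
  · exact fun v n a b m hm => Rch.root a (fun h => (b (hZ h)).trans hm)
  · intro u v n _ ih huv m hm
    obtain ⟨m, rfl⟩ : ∃ m', m = m' + 1 := ⟨m - 1, by omega⟩
    exact (ih m (by omega)).step1 huv
  · exact fun u v n _ ih huv hv m hm => (ih m hm).step0 huv (fun h => hv (hZ h))

/-- a set containing exactly one vertex of each component -/
def IsRoots (H : SimpleGraph W) (Rt : Set W) : Prop :=
  (∀ v, ∃ ρ ∈ Rt, H.Reachable ρ v) ∧ ∀ ρ ∈ Rt, ∀ ρ' ∈ Rt, H.Reachable ρ ρ' → ρ = ρ'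

omit [Fintype W] in
theorem exists_roots (H : SimpleGraph W) : ∃ Rt, IsRoots H Rt := by
  refine ⟨Set.range (fun c : H.ConnectedComponent => c.out), fun v => ?_, ?_⟩
  · exact ⟨_, ⟨H.connectedComponentMk v, rfl⟩, SimpleGraph.ConnectedComponent.exact (Quot.out_eq _)⟩
  · rintro _ ⟨c, rfl⟩ _ ⟨c', rfl⟩ h
    have := SimpleGraph.ConnectedComponent.sound h
    have h1 : H.connectedComponentMk c.out = c := Quot.out_eq c
    have h2 : H.connectedComponentMk c'.out = c' := Quot.out_eq c'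
    rw [h1, h2] at this
    rw [this]

/-- the least number of vertices of `Z` on a walk from a root -/
noncomputable def lev (H : SimpleGraph W) (Rt Z : Set W) (v : W) : ℕ := sInf {n | Rch H Rt Z v n}

omit [Fintype W] in
theorem rch_lev {Rt : Set W} (hR : IsRoots H Rt) (Z : Set W) (v : W) :
    Rch H Rt Z v (lev H Rt Z v) := by
  refine Nat.sInf_mem (s := {n | Rch H Rt Z v n}) ?_
  obtain ⟨ρ, h1, h2⟩ := hR.1 v
  rw [SimpleGraph.reachable_iff_reflTransGen] at h2
  induction h2 with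
  | refl => exact ⟨1, Rch.root h1 (fun _ => le_rfl)⟩
  | tail _ h ih =>
    obtain ⟨n, hn⟩ := ih
    exact ⟨n + 1, Rch.step1 hn h⟩

omit [Fintype W] in
theorem lev_le {Rt Z : Set W} {v : W} {n : ℕ} (h : Rch H Rt Z v n) : lev H Rt Z v ≤ n :=
  Nat.sInf_le h

/-- Planar graphs of small radius have small treewidth, the vertices outside `Z` being free. -/
theorem tc (hH : IsPlanar H) {Rt : Set W} (hR : IsRoots H Rt) (Z : Set W) (r : ℕ)
    (hr : ∀ z ∈ Z, Rch H Rt Z z r) : Has H Z (fun B => B.card ≤ 3 * r) ∅ := by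
  let d := lev H Rt Z
  let dp : W → ℕ := fun v => sInf {l | Rl H Rt Z v (d v) l}
  have hdp : ∀ v, Rl H Rt Z v (d v) (dp v) := fun v =>
    Nat.sInf_mem (s := {l | Rl H Rt Z v (d v) l}) (rch_lev hR Z v)
  have hdp' : ∀ v l, Rl H Rt Z v (d v) l → dp v ≤ l := fun v l h => Nat.sInf_le h
  have h0 : ∀ v, dp v = 0 → v ∈ Rt ∧ (v ∈ Z → 1 ≤ d v) := by
    intro v hv
    have := hdp v
    rw [hv] at this
    generalize d v = n at this
    cases this with
    | root _ _ a b => exact ⟨a, b⟩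
  have h1 : ∀ v, ∃ u, dp v ≠ 0 → (H.Adj v u ∧ dp v = dp u + 1) ∧
      (d v = d u + 1 ∨ (d v = d u ∧ v ∉ Z)) := by
    intro v
    by_cases hv : dp v = 0
    · exact ⟨v, fun h => (h hv).elim⟩
    have inv : ∀ n l, Rl H Rt Z v n l → l ≠ 0 → ∃ u, H.Adj u v ∧
        ((∃ n', n = n' + 1 ∧ Rl H Rt Z u n' (l - 1)) ∨ (v ∉ Z ∧ Rl H Rt Z u n (l - 1))) := by
      intro n l h hl
      cases h with
      | root _ _ a b => exact (hl rfl).elim
      | step1 u _ n l a b => exact ⟨u, b, Or.inl ⟨n, rfl, a⟩⟩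
      | step0 u _ n l a b c => exact ⟨u, b, Or.inr ⟨c, a⟩⟩
    obtain ⟨u, huv, h | h⟩ := inv _ _ (hdp v) hv
    · obtain ⟨n, hn, h⟩ := h
      have a1 : d u ≤ n := lev_le ⟨_, h⟩
      have a2 : d v ≤ d u + 1 := lev_le ((rch_lev hR Z u).step1 huv)
      have a3 : d u = n := by omega
      have a4 := hdp' u _ (a3 ▸ h)
      have a5 := hdp' v _ (by
        rw [hn, ← a3]; exact Rl.step1 u v _ _ (hdp u) huv)
      exact ⟨u, fun _ => ⟨⟨huv.symm, by omega⟩, Or.inl (by omega)⟩⟩
    · have a1 : d u ≤ d v := lev_le ⟨_, h.2⟩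
      have a2 : d v ≤ d u := lev_le ((rch_lev hR Z u).step0 huv h.1)
      have a3 : d u = d v := by omega
      have a4 := hdp' u _ (a3 ▸ h.2)
      have a5 := hdp' v _ (by
        rw [← a3]; exact Rl.step0 u v _ _ (hdp u) huv h.1)
      exact ⟨u, fun _ => ⟨⟨huv.symm, by omega⟩, Or.inr ⟨a3.symm, h.1⟩⟩⟩
  choose par hpar using h1
  let F : Forest H := ⟨par, dp, fun v hv => (hpar v hv).1,
    fun u v hu hv h => hR.2 u (h0 u hu).1 v (h0 v hv).1 h⟩
  have hP : ∀ v, (F.P Z v).card ≤ d v ∧ (F.P Z v).card ≤ r := by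
    intro v
    induction hn : dp v generalizing v with
    | zero =>
      by_cases hv : v ∈ Z
      · have : F.P Z v ⊆ {v} := by
          intro z hz
          rcases F.anc_cases (F.mem_P.1 hz).2 with h | h
          · simp [h]
          · exact (h.1 hn).elim
        have a1 := Finset.card_le_card this
        rw [Finset.card_singleton] at a1
        have a2 := (h0 v hn).2 hv
        have a3 : d v ≤ r := lev_le (hr v hv)
        omega
      · have : F.P Z v = ∅ := by
          rw [Finset.eq_empty_iff_forall_notMem]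
          intro z hz
          rcases F.anc_cases (F.mem_P.1 hz).2 with h | h
          · exact hv (h ▸ (F.mem_P.1 hz).1)
          · exact (h.1 hn).elim
        simp [this]
    | succ n ih =>
      have hv0 : dp v ≠ 0 := by omega
      have b := hpar v hv0
      have ih' := ih (par v) (by omega)
      by_cases hv : v ∈ Z
      · have : F.P Z v ⊆ insert v (F.P Z (par v)) := by
          intro z hz
          rcases F.anc_cases (F.mem_P.1 hz).2 with h | h
          · simp [h]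
          · exact Finset.mem_insert_of_mem (F.mem_P.2 ⟨(F.mem_P.1 hz).1, h.2⟩)
        have a1 := (Finset.card_le_card this).trans (Finset.card_insert_le _ _)
        have a3 : d v ≤ r := lev_le (hr v hv)
        have a4 : d v = d (par v) + 1 := by
          rcases b.2 with h | h
          · exact h
          · exact (h.2 hv).elim
        omega
      · have : F.P Z v ⊆ F.P Z (par v) := by
          intro z hz
          rcases F.anc_cases (F.mem_P.1 hz).2 with h | h
          · exact (hv (h ▸ (F.mem_P.1 hz).1)).elim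
          · exact F.mem_P.2 ⟨(F.mem_P.1 hz).1, h.2⟩
        have a1 := Finset.card_le_card this
        omega
  exact F.tc_all hH Z r (fun v => (hP v).2)

end Pool.Agent.Lib.MP_f8d2b9_co
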