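import Mathlib
import Pool.Agent.Lib.MP_f8d2b9_co.Radius

set_option autoImplicit false
open Classical Relation

namespace Pool.Agent.Lib.MP_f8d2b9_co

section generic

variable {W : Type} {H : SimpleGraph W} {Rt : Set W}

theorem Rch.inv {Z : Set W} {v : W} {n : ℕ} (h : Rch H Rt Z v n) (hv : v ∈ Z) :
    v ∈ Rt ∨ ∃ u n', n = n' + 1 ∧ Rch H Rt Z u n' ∧ H.Adj u v := by
  obtain ⟨l, h⟩ := h
  cases h with
  | root _ _ a b => exact Or.inl a
  | step1 u _ n l a b => exact Or.inr ⟨u, n, rfl, ⟨l, a⟩, b⟩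
  | step0 u _ n l a b c => exact (c hv).elim

theorem lev_adj (hR : IsRoots H Rt) (Z : Set W) {a b : W} (h : H.Adj a b) :
    lev H Rt Z b ≤ lev H Rt Z a + 1 := lev_le ((rch_lev hR Z a).step1 h)

theorem lev_adj' (hR : IsRoots H Rt) {Z : Set W} {a b : W} (h : H.Adj a b) (hb : b ∉ Z) :
    lev H Rt Z b ≤ lev H Rt Z a := lev_le ((rch_lev hR Z a).step0 h hb)

theorem rch_extend (hR : IsRoots H Rt) {Z Z' : Set W} {n g : ℕ}
    (h : ∀ a ∈ Z', lev H Rt Z a ≤ n → Rch H Rt Z' a g) (a : W) (ha : lev H Rt Z a ≤ n) :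
    Rch H Rt Z' a g := by
  refine Rch.ind (M := fun v m => m ≤ n → Rch H Rt Z' v g) ?_ ?_ ?_ (rch_lev hR Z a) ha
  · intro v m h1 h2 hm
    by_cases hv : v ∈ Z'
    · exact h v hv ((lev_le (Rch.root h1 h2)).trans hm)
    · exact Rch.root h1 (fun h => (hv h).elim)
  · intro u v m h1 ih huv hm
    by_cases hv : v ∈ Z'
    · exact h v hv ((lev_le (h1.step1 huv)).trans hm)
    · exact (ih (by omega)).step0 huv hv
  · intro u v m h1 ih huv hv' hm
    by_cases hv : v ∈ Z'
    · exact h v hv ((lev_le (h1.step0 huv hv')).trans hm)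
    · exact (ih hm).step0 huv hv

theorem Has.attach {G : SimpleGraph W} {P : Finset W → Prop} {S0 A : Set W} (h : Has G S0 P A)
    (hA : A ⊆ S0) (cls : W → Set W) (T : Finset W)
    (hc : ∀ v ∈ T, ∀ v' ∈ T, ∀ u, u ∈ cls v → u ∈ cls v' → cls v = cls v')
    (hd : ∀ v ∈ T, ∀ u ∈ cls v, u ∉ S0)
    (hp : ∀ v ∈ T, ∃ W' ⊆ A, Has G (cls v ∪ W') P W' ∧
      ∀ u ∈ cls v, ∀ w, G.Adj u w → w ∈ cls v ∨ w ∈ W') :
    Has G (S0 ∪ {u | ∃ v ∈ T, u ∈ cls v}) P A := by
  induction T using Finset.induction_on with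
  | empty => exact h.congr (by simp)
  | insert v T hv ih =>
    have ih' := ih (fun a ha b hb => hc a (Finset.mem_insert_of_mem ha) b (Finset.mem_insert_of_mem hb))
      (fun a ha => hd a (Finset.mem_insert_of_mem ha)) (fun a ha => hp a (Finset.mem_insert_of_mem ha))
    by_cases hex : ∃ v' ∈ T, cls v = cls v'
    · obtain ⟨v', hv', he⟩ := hex
      refine ih'.congr ?_
      ext u
      simp only [Set.mem_union, Set.mem_ofPred_eq, Finset.mem_insert, exists_eq_or_imp]
      constructor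
      · rintro (h | h)
        exacts [Or.inl h, Or.inr (Or.inr h)]
      · rintro (h | h | h)
        exacts [Or.inl h, Or.inr ⟨v', hv', he ▸ h⟩, Or.inr h]
    · obtain ⟨W', hW', h1, h2⟩ := hp v (Finset.mem_insert_self _ _)
      refine (ih'.glue h1 ?_ ?_).congr ?_
      · rintro u hu (hu' | hu')
        · rcases hu with hu | ⟨v', hv', hu⟩
          · exact (hd v (Finset.mem_insert_self _ _) u hu' hu).elim
          · exact (hex ⟨v', hv', hc v (Finset.mem_insert_self _ _) v'
              (Finset.mem_insert_of_mem hv') u hu' hu⟩).elim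
        · exact ⟨hW' hu', hu'⟩
      · rintro u - w (hw | hw) huw
        · exact Or.inl (h2 w hw u huw.symm)
        · exact Or.inr (Or.inl (hA (hW' hw)))
      · ext u
        simp only [Set.mem_union, Set.mem_ofPred_eq, Finset.mem_insert, exists_eq_or_imp]
        constructor
        · rintro ((h | h) | h | h)
          exacts [Or.inl h, Or.inr (Or.inr h), Or.inr (Or.inl h), Or.inl (hA (hW' h))]
        · rintro (h | h | h)
          exacts [Or.inl (Or.inl h), Or.inr (Or.inl h), Or.inl (Or.inr h)]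

end generic

variable {V X : Type} {G : SimpleGraph V} {e : X × Bool → Sym2 V}

theorem adj_ll {u v : V} (h : G.Adj u v) (h' : ∀ p, e p ≠ s(u, v)) :
    (planarisation G e).Adj (Sum.inl u) (Sum.inl v) :=
  (SimpleGraph.fromRel_adj _ _ _).2 ⟨by simpa using h.ne, Or.inl (Or.inl ⟨u, v, rfl, rfl, h, h'⟩)⟩

theorem adj_lr {u : V} {x : X} {i : Bool} (h : u ∈ e (x, i)) :
    (planarisation G e).Adj (Sum.inl u) (Sum.inr x) :=
  (SimpleGraph.fromRel_adj _ _ _).2 ⟨by simp, Or.inl (Or.inr ⟨u, x, i, rfl, rfl, h⟩)⟩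

/-- the vertices of `B` and the crossings on edges inside `B` -/
def cl (e : X × Bool → Sym2 V) (B : Set V) : Set (V ⊕ X) :=
  fun a => Sum.elim (fun v => v ∈ B) (fun x => ∃ i, ∀ u ∈ e (x, i), u ∈ B) a

theorem inl_mem_cl {B : Set V} {v : V} : Sum.inl v ∈ cl e B ↔ v ∈ B := Iff.rfl

theorem inr_mem_cl {B : Set V} {x : X} : Sum.inr x ∈ cl e B ↔ ∃ i, ∀ u ∈ e (x, i), u ∈ B :=
  Iff.rfl

theorem cl_mono {B B' : Set V} (h : B ⊆ B') : cl e B ⊆ cl e B' := by
  rintro (v | x) hv
  · exact h hv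
  · obtain ⟨i, hi⟩ := hv
    exact ⟨i, fun u hu => h (hi u hu)⟩

theorem sym2_exists_mem (z : Sym2 V) : ∃ u, u ∈ z := ⟨z.out.1, Sym2.out_fst_mem z⟩

variable [Fintype V] [Fintype X]

omit [Fintype X] in
theorem card_ends (x : X) : (Finset.univ.filter (fun u => ∃ i, u ∈ e (x, i))).card ≤ 4 := by
  obtain ⟨⟨a, b⟩, h1⟩ := Quot.exists_rep (e (x, false))
  obtain ⟨⟨c, d⟩, h2⟩ := Quot.exists_rep (e (x, true))
  have h1' : e (x, false) = s(a, b) := h1.symm
  have h2' : e (x, true) = s(c, d) := h2.symm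
  refine le_trans (Finset.card_le_card (t := {a, b, c, d}) ?_) Finset.card_le_four
  intro u hu
  obtain ⟨i, hi⟩ := (Finset.mem_filter.1 hu).2
  cases i
  · rw [h1', Sym2.mem_iff] at hi
    rcases hi with rfl | rfl <;> simp
  · rw [h2', Sym2.mem_iff] at hi
    rcases hi with rfl | rfl <;> simp

variable {Rt : Set (V ⊕ X)} (hH : IsPlanar (planarisation G e))
  (hR : IsRoots (planarisation G e) Rt)

include hH hR in
theorem tw_of_rch (B : Set V) (r : ℕ)
    (hr : ∀ z ∈ cl e B, Rch (planarisation G e) Rt (cl e B) z r) :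
    Has G B (fun C => C.card ≤ 3 * r * 4) ∅ := by
  refine (tc hH hR (cl e B) r hr).map
    (Sum.elim (fun v => {v}) (fun x => Finset.univ.filter (fun u => u ∈ B ∧ ∃ i, u ∈ e (x, i))))
    ?_ ?_ ?_ ?_ ?_
  · rintro (v | x) -
    · simp
    · refine le_trans (Finset.card_le_card ?_) (card_ends (e := e) x)
      intro u hu
      simp only [Sum.elim_inr, Finset.mem_filter, Finset.mem_univ, true_and] at hu ⊢
      exact hu.2
  · rintro (v | x) hp u hu
    · simp only [Sum.elim_inl, Finset.mem_singleton] at hu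
      exact hu ▸ hp
    · simp only [Sum.elim_inr, Finset.mem_filter, Finset.mem_univ, true_and] at hu
      exact hu.1
  · intro u hu
    exact ⟨Sum.inl u, hu, by simp⟩
  · intro u hu v hv huv
    by_cases h : ∀ p, e p ≠ s(u, v)
    · exact ⟨Sum.inl u, hu, Sum.inl v, hv, by simp, by simp, Or.inr (adj_ll huv h)⟩
    · push Not at h
      obtain ⟨⟨x, i⟩, hx⟩ := h
      have hm : Sum.inr x ∈ cl e B := ⟨i, by
        intro w hw
        rw [hx, Sym2.mem_iff] at hw
        rcases hw with rfl | rfl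
        exacts [hu, hv]⟩
      refine ⟨Sum.inr x, hm, Sum.inr x, hm, ?_, ?_, Or.inl rfl⟩
      · simp only [Sum.elim_inr, Finset.mem_filter, Finset.mem_univ, true_and]
        exact ⟨hu, i, by simp [hx]⟩
      · simp only [Sum.elim_inr, Finset.mem_filter, Finset.mem_univ, true_and]
        exact ⟨hv, i, by simp [hx]⟩
  · intro u
    have key : ∀ p ∈ cl e B, u ∈ (Sum.elim (fun v => {v})
        (fun x => Finset.univ.filter (fun u => u ∈ B ∧ ∃ i, u ∈ e (x, i))) p : Finset V) →
        Ch (planarisation G e) (fun a => a ∈ cl e B ∧ u ∈ (Sum.elim (fun v => {v})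
        (fun x => Finset.univ.filter (fun u => u ∈ B ∧ ∃ i, u ∈ e (x, i))) a : Finset V))
          (Sum.inl u) p := by
      rintro (v | x) hp hu
      · simp only [Sum.elim_inl, Finset.mem_singleton] at hu
        subst hu
        exact Ch.refl _
      · have hu' := hu
        simp only [Sum.elim_inr, Finset.mem_filter, Finset.mem_univ, true_and] at hu'
        obtain ⟨h1, i, hi⟩ := hu'
        exact Ch.single (adj_lr hi) ⟨h1, by simp⟩ ⟨hp, hu⟩
    intro p hp q hq hup huq
    exact (key p hp hup).symm.trans (key q hq huq)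

variable (G e Rt) in
/-- the level function of `Y` -/
noncomputable abbrev lv (Y : Set V) : V ⊕ X → ℕ := lev (planarisation G e) Rt (cl e Y)

variable (G e Rt) in
/-- ends of edges crossing an edge inside `Y`, on the level of the crossing -/
def IsC (Y : Set V) (v : V) : Prop :=
  v ∉ Y ∧ ∃ x, Sum.inr x ∈ cl e Y ∧ (∃ i, v ∈ e (x, i)) ∧
    lv G e Rt Y (Sum.inr x) = lv G e Rt Y (Sum.inl v)

omit [Fintype V] [Fintype X] in
include hR in
theorem lv_adj (Y : Set V) {v u : V} (h : G.Adj v u) :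
    lv G e Rt Y (Sum.inl u) ≤ lv G e Rt Y (Sum.inl v) + 2 ∧
    (u ∉ Y → lv G e Rt Y (Sum.inl v) < lv G e Rt Y (Sum.inl u) → IsC G e Rt Y u) := by
  by_cases h' : ∀ p, e p ≠ s(v, u)
  · have h1 := lev_adj hR (cl e Y) (adj_ll h h')
    refine ⟨by unfold lv; omega, fun hu hlt => ?_⟩
    have h2 := lev_adj' hR (Z := cl e Y) (adj_ll h h') hu
    unfold lv at hlt
    omega
  · push Not at h'
    obtain ⟨⟨x, i⟩, hx⟩ := h'
    have a1 : (planarisation G e).Adj (Sum.inl v) (Sum.inr x) := adj_lr (i := i) (by simp [hx])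
    have a2 : (planarisation G e).Adj (Sum.inl u) (Sum.inr x) := adj_lr (i := i) (by simp [hx])
    have h1 := lev_adj hR (cl e Y) a1
    have h2 := lev_adj hR (cl e Y) a2.symm
    refine ⟨by unfold lv; omega, fun hu hlt => ⟨hu, x, ?_, ⟨i, by simp [hx]⟩, ?_⟩⟩
    · by_contra hc
      have h3 := lev_adj' hR (Z := cl e Y) a1 hc
      have h4 := lev_adj' hR (Z := cl e Y) a2.symm hu
      unfold lv at hlt
      omega
    · have h4 := lev_adj' hR (Z := cl e Y) a2.symm hu
      unfold lv at hlt ⊢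
      omega

omit [Fintype V] [Fintype X] in
include hR in
/-- the hub bound -/
theorem hub (Y M : Set V) (j : ℕ)
    (hM : ∀ v ∈ M, (v ∈ Y ∨ IsC G e Rt Y v) ∧ j ≤ lv G e Rt Y (Sum.inl v)) (n : ℕ) :
    ∀ a, lv G e Rt Y a < n → Rch (planarisation G e) Rt (cl e M) a (3 * (n + 1 - j)) := by
  induction n with
  | zero => intro a ha; omega
  | succ n ih =>
    intro a ha
    refine rch_extend hR (Z := cl e Y) (n := n) ?_ a (by unfold lv at ha; omega)
    intro b hb hbn
    by_cases hj : n + 2 ≤ j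
    · exfalso
      rcases b with v | x
      · have := (hM v hb).2
        unfold lv at this
        omega
      · obtain ⟨i, hi⟩ := hb
        obtain ⟨u, hu⟩ := sym2_exists_mem (e (x, i))
        have h1 := (hM u (hi u hu)).2
        have h2 := lev_adj hR (cl e Y) (adj_lr (G := G) hu).symm
        unfold lv at h1
        omega
    have hA : ∀ a ∈ cl e Y, lv G e Rt Y a ≤ n →
        Rch (planarisation G e) Rt (cl e M) a (3 * (n + 1 - j) + 1) := by
      intro a ha han
      rcases (rch_lev hR (cl e Y) a).inv ha with h | ⟨u, n', h1, h2, h3⟩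
      · exact Rch.root h (fun _ => by omega)
      · have := lev_le h2
        exact (ih u (by unfold lv at *; omega)).step1 h3
    have hB : ∀ v, IsC G e Rt Y v → lv G e Rt Y (Sum.inl v) ≤ n →
        Rch (planarisation G e) Rt (cl e M) (Sum.inl v) (3 * (n + 1 - j) + 1 + 1) := by
      rintro v ⟨-, x, h1, ⟨i, h2⟩, h3⟩ hv
      exact (hA _ h1 (h3 ▸ hv)).step1 (adj_lr h2).symm
    rcases b with v | x
    · rcases (hM v hb).1 with h | h
      · exact (hA _ h hbn).mono le_rfl (by omega)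
      · exact (hB v h hbn).mono le_rfl (by omega)
    · by_cases hx : Sum.inr x ∈ cl e Y
      · exact (hA _ hx hbn).mono le_rfl (by omega)
      · obtain ⟨i, hi⟩ := hb
        have : ∃ u ∈ e (x, i), u ∉ Y := by
          by_contra hc
          push Not at hc
          exact hx ⟨i, hc⟩
        obtain ⟨u, hu, huY⟩ := this
        have h1 := (hM u (hi u hu)).1.resolve_left huY
        have h2 := lev_adj' hR (Z := cl e Y) (adj_lr (G := G) hu).symm huY
        exact ((hB u h1 (h2.trans hbn)).step1 (adj_lr hu)).mono le_rfl (by omega)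

omit [Fintype V] [Fintype X] in
include hR in
theorem rch_layer (Y M : Set V) (j : ℕ)
    (hM : ∀ v ∈ M, (v ∈ Y ∨ IsC G e Rt Y v) ∧ j ≤ lv G e Rt Y (Sum.inl v) ∧
      lv G e Rt Y (Sum.inl v) ≤ j + 2) :
    ∀ z ∈ cl e M, Rch (planarisation G e) Rt (cl e M) z 15 := by
  intro z hz
  refine (hub hR Y M j (fun v hv => ⟨(hM v hv).1, (hM v hv).2.1⟩) (j + 4) z ?_).mono le_rfl
    (by omega)
  rcases z with v | x
  · have := (hM v hz).2.2
    omega
  · obtain ⟨i, hi⟩ := hz
    obtain ⟨u, hu⟩ := sym2_exists_mem (e (x, i))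
    have h1 := (hM u (hi u hu)).2.2
    have h2 := lev_adj hR (cl e Y) (adj_lr (G := G) hu)
    unfold lv at *
    omega

omit [Fintype V] [Fintype X] in
include hR in
theorem rch_bag (Y Wb M : Set V) (j : ℕ)
    (hW : ∀ z ∈ cl e Wb, Rch (planarisation G e) Rt (cl e Wb) z 15)
    (hM : ∀ v ∈ M, (v ∈ Y ∨ IsC G e Rt Y v) ∧ j ≤ lv G e Rt Y (Sum.inl v) ∧
      (v ∈ Wb ∨ lv G e Rt Y (Sum.inl v) ≤ j + 2)) :
    ∀ z ∈ cl e M, Rch (planarisation G e) Rt (cl e M) z 30 := by
  have h1 : ∀ z, lv G e Rt Y z < j + 4 → Rch (planarisation G e) Rt (cl e M) z 15 := fun z hz =>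
    (hub hR Y M j (fun v hv => ⟨(hM v hv).1, (hM v hv).2.1⟩) (j + 4) z hz).mono le_rfl (by omega)
  have h2 : ∀ z ∈ cl e M, ¬ lv G e Rt Y z < j + 4 → z ∈ cl e Wb := by
    rintro (v | x) hz hl
    · exact (hM v hz).2.2.resolve_right (by omega)
    · obtain ⟨i, hi⟩ := hz
      refine ⟨i, fun u hu => (hM u (hi u hu)).2.2.resolve_right ?_⟩
      have h2 := lev_adj hR (cl e Y) (adj_lr (G := G) hu)
      unfold lv at *
      omega
  intro z hz
  by_cases hl : lv G e Rt Y z < j + 4
  · exact (h1 z hl).mono le_rfl (by omega)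
  refine Rch.ind (M := fun v m => Rch (planarisation G e) Rt (cl e M) v (15 + m)) ?_ ?_ ?_
    (hW z (h2 z hz hl))
  · exact fun v n a _ => Rch.root a (fun _ => by omega)
  · exact fun u v n _ ih huv => ih.step1 huv
  · intro u v n _ ih huv hv
    by_cases hl : lv G e Rt Y v < j + 4
    · exact (h1 v hl).mono le_rfl (by omega)
    · exact ih.step0 huv (fun h => hv (h2 v h hl))

include hH hR in
theorem exists_orient : ∃ A : V → Finset V, (∀ v, (A v).card ≤ 540) ∧
    ∀ u v, G.Adj u v → v ∈ A u ∨ u ∈ A v := by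
  let d : V → ℕ := fun v => lv G e Rt Set.univ (Sum.inl v)
  have h1 : ∀ j, ∃ N : V → Finset V, (∀ v, (N v).card ≤ 3 * 15 * 4) ∧
      ∀ u ∈ {v | j ≤ d v ∧ d v ≤ j + 2}, ∀ v ∈ {v | j ≤ d v ∧ d v ≤ j + 2},
        G.Adj u v → v ∈ N u ∨ u ∈ N v := fun j =>
    (tw_of_rch hH hR _ 15 (rch_layer hR Set.univ _ j (fun v hv => ⟨Or.inl trivial, hv⟩))).orient
  choose N hN hN' using h1
  refine ⟨fun v => N (d v) v ∪ N (d v - 1) v ∪ N (d v - 2) v, fun v => ?_, ?_⟩
  · have a1 := hN (d v) v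
    have a2 := hN (d v - 1) v
    have a3 := hN (d v - 2) v
    have a4 := Finset.card_union_le (N (d v) v ∪ N (d v - 1) v) (N (d v - 2) v)
    have a5 := Finset.card_union_le (N (d v) v) (N (d v - 1) v)
    dsimp only
    omega
  · have key : ∀ u v, G.Adj u v → d u ≤ d v →
        v ∈ N (d u) u ∪ N (d u - 1) u ∪ N (d u - 2) u ∨
        u ∈ N (d v) v ∪ N (d v - 1) v ∪ N (d v - 2) v := by
      intro u v huv hle
      have h2 : d v ≤ d u + 2 := (lv_adj hR Set.univ huv).1
      rcases hN' (d u) u ⟨le_rfl, by omega⟩ v ⟨hle, h2⟩ huv with h | h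
      · left; simp [h]
      · right
        have : d u = d v ∨ d u = d v - 1 ∨ d u = d v - 2 := by omega
        rcases this with h' | h' | h' <;> simp [← h', h]
    intro u v huv
    rcases le_total (d u) (d v) with h | h
    · exact key u v huv h
    · exact (key v u huv.symm h).symm

include hH hR in
theorem exists_cr (he : Function.Injective e) (hG : ∀ p, e p ∈ G.edgeSet) :
    ∃ cr : V → Finset V, (∀ v, (cr v).card ≤ 2160) ∧
      ∀ x i, ∃ y ∈ e (x, i), ∀ j, ∀ u ∈ e (x, j), u ∈ cr y := by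
  obtain ⟨A, hA, hA'⟩ := exists_orient hH hR
  let ce : Sym2 V → Finset V := fun z =>
    Finset.univ.filter (fun u => ∃ x i j, e (x, i) = z ∧ u ∈ e (x, j))
  have hce : ∀ z, (ce z).card ≤ 4 := by
    intro z
    by_cases h : ∃ p, e p = z
    · obtain ⟨⟨x, i⟩, hx⟩ := h
      refine le_trans (Finset.card_le_card ?_) (card_ends (e := e) x)
      intro u hu
      simp only [ce, Finset.mem_filter, Finset.mem_univ, true_and] at hu ⊢
      obtain ⟨x', i', j, h1, h2⟩ := hu
      have := he (h1.trans hx.symm)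
      rw [Prod.mk.injEq] at this
      exact ⟨j, this.1 ▸ h2⟩
    · have : ce z = ∅ := by
        rw [Finset.eq_empty_iff_forall_notMem]
        intro u hu
        simp only [ce, Finset.mem_filter, Finset.mem_univ, true_and] at hu
        obtain ⟨x', i', j, h1, h2⟩ := hu
        exact h ⟨_, h1⟩
      simp [this]
  refine ⟨fun y => (A y).biUnion (fun y' => ce s(y, y')), fun v => ?_, ?_⟩
  · refine (Finset.card_biUnion_le_card_mul _ _ 4 (fun p _ => hce _)).trans ?_
    have := hA v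
    omega
  · intro x i
    obtain ⟨⟨a, b⟩, h1⟩ := Quot.exists_rep (e (x, i))
    have h1' : e (x, i) = s(a, b) := h1.symm
    have hab : G.Adj a b := by
      have := hG (x, i)
      rwa [h1'] at this
    rcases hA' a b hab with h | h
    · refine ⟨a, by simp [h1'], fun j u hu => Finset.mem_biUnion.2 ⟨b, h, ?_⟩⟩
      simp only [ce, Finset.mem_filter, Finset.mem_univ, true_and]
      exact ⟨x, i, j, h1', hu⟩
    · refine ⟨b, by simp [h1'], fun j u hu => Finset.mem_biUnion.2 ⟨a, h, ?_⟩⟩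
      simp only [ce, Finset.mem_filter, Finset.mem_univ, true_and]
      exact ⟨x, i, j, h1'.trans Sym2.eq_swap, hu⟩

end Pool.Agent.Lib.MP_f8d2b9_co
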