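import Mathlib
import Pool.Agent.Lib.MP_f8d2b9_co.Layers

set_option autoImplicit false
open Classical Relation

namespace Pool.Agent.Lib.MP_f8d2b9_co

variable {V X : Type} {G : SimpleGraph V} {e : X × Bool → Sym2 V} [Fintype V] [Fintype X]
  {Rt : Set (V ⊕ X)}

/-- good bags: small and of bounded treewidth -/
def Good (G : SimpleGraph V) (m : ℕ) (B : Finset V) : Prop :=
  B.card ≤ m ∧ Has G (B : Set V) (fun C => C.card ≤ 360) ∅

theorem recursion (hH : IsPlanar (planarisation G e)) (hR : IsRoots (planarisation G e) Rt)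
    (cr : V → Finset V) (a : ℕ) (hcr : ∀ v, (cr v).card ≤ a)
    (hcr' : ∀ x i, ∃ y ∈ e (x, i), ∀ j, ∀ u ∈ e (x, j), u ∈ cr y)
    (q s : ℕ) (hqs : (s + 1) * (a + 1) ≤ q)
    (hsep : ∀ Z : Finset V, Z.card ≤ 2 * q * (a + 1) → ∃ S : Finset V, S.card ≤ s ∧ ∀ v, v ∉ S →
      (Z.filter (fun z => Ch G (fun a => a ∉ S) v z)).card ≤ q) (n : ℕ) :
    ∀ R W : Finset V, R.card = n → (∀ u ∈ R, ∀ w, G.Adj u w → w ∈ R ∨ w ∈ W) →
      W.card ≤ 2 * q → (∀ z ∈ cl e (W : Set V), Rch (planarisation G e) Rt (cl e (W : Set V)) z 15) →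
      Has G ((R : Set V) ∪ W) (Good G (3 * q * (a + 1))) W := by
  induction n using Nat.strong_induction_on with
  | _ n ih =>
  intro R W hn hN hW hWr
  have hext : ∀ A : Finset V, (A ∪ A.biUnion cr).card ≤ A.card * (a + 1) := by
    intro A
    have h1 := Finset.card_union_le A (A.biUnion cr)
    have h2 := Finset.card_biUnion_le_card_mul A cr a (fun p _ => hcr p)
    rw [mul_add, mul_one]
    omega
  rcases R.eq_empty_or_nonempty with rfl | ⟨r0, hr0⟩
  · refine (Has.leaf G W ⟨?_, ?_⟩).congr (by simp)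
    · calc W.card ≤ 2 * q := hW
        _ ≤ 3 * q * 1 := by omega
        _ ≤ 3 * q * (a + 1) := Nat.mul_le_mul_left _ (by omega)
    · exact (tw_of_rch hH hR _ 15 hWr).mono (fun B h => by omega) le_rfl
  obtain ⟨S, hS, hS'⟩ := hsep (W ∪ W.biUnion cr)
    ((hext W).trans (Nat.mul_le_mul_right _ hW))
  let S' : Finset V := insert r0 S
  have hS'c : S'.card ≤ s + 1 := (Finset.card_insert_le _ _).trans (by omega)
  let Y : Finset V := W ∪ S'.filter (· ∈ R)
  have hYc : Y.card ≤ 3 * q := by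
    have h1 := Finset.card_union_le W (S'.filter (· ∈ R))
    have h2 := Finset.card_filter_le S' (· ∈ R)
    have h3 : (s + 1) * 1 ≤ (s + 1) * (a + 1) := Nat.mul_le_mul_left _ (by omega)
    simp only [Y]
    omega
  let d : V → ℕ := fun v => lv G e Rt (Y : Set V) (Sum.inl v)
  let Q : Finset V := Finset.univ.filter (fun v => v ∈ Y ∨ (v ∈ R ∧ IsC G e Rt (Y : Set V) v))
  have hQ : ∀ v, v ∈ Q ↔ v ∈ Y ∨ (v ∈ R ∧ IsC G e Rt (Y : Set V) v) := by simp [Q]
  have hCcr : ∀ v, IsC G e Rt (Y : Set V) v → ∃ y ∈ Y, v ∈ cr y := by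
    rintro v ⟨-, x, ⟨i, hi⟩, ⟨j, hj⟩, -⟩
    obtain ⟨y, hy, hy'⟩ := hcr' x i
    exact ⟨y, hi y hy, hy' j v hj⟩
  have hQc : Q.card ≤ 3 * q * (a + 1) := by
    refine le_trans (Finset.card_le_card ?_) ((hext Y).trans (Nat.mul_le_mul_right _ hYc))
    intro v hv
    rcases (hQ v).1 hv with h | h
    · exact Finset.mem_union_left _ h
    · exact Finset.mem_union_right _ (Finset.mem_biUnion.2 (hCcr v h.2))
  have hWY : ∀ v ∈ W, v ∈ Y := fun v hv => Finset.mem_union_left _ hv
  have hYRW : ∀ v ∈ Y, v ∈ R ∨ v ∈ W := by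
    intro v hv
    rcases Finset.mem_union.1 hv with h | h
    · exact Or.inr h
    · exact Or.inl (Finset.mem_filter.1 h).2
  have hQRW : ∀ v ∈ Q, v ∈ R ∨ v ∈ W := by
    intro v hv
    rcases (hQ v).1 hv with h | h
    · exact hYRW v h
    · exact Or.inl h.1
  have hkey : ∀ v u, G.Adj v u → (u ∈ R ∨ u ∈ W) → d v < d u → u ∈ Q ∧ d u ≤ d v + 2 := by
    intro v u hvu hu hlt
    have h1 := lv_adj hR (Y : Set V) hvu
    refine ⟨(hQ u).2 ?_, h1.1⟩
    by_cases huY : u ∈ Y
    · exact Or.inl huY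
    · exact Or.inr ⟨hu.resolve_right (fun h => huY (hWY u h)), h1.2 huY hlt⟩
  let B : ℕ → Finset V := fun j => Q.filter (fun v => j ≤ d v ∧ (v ∈ W ∨ d v ≤ j + 2))
  have hB : ∀ j v, v ∈ B j ↔ v ∈ Q ∧ j ≤ d v ∧ (v ∈ W ∨ d v ≤ j + 2) := by simp [B]
  have hBgood : ∀ j, Good G (3 * q * (a + 1)) (B j) := by
    intro j
    refine ⟨(Finset.card_filter_le _ _).trans hQc, ?_⟩
    refine tw_of_rch hH hR _ 30 (rch_bag hR (Y : Set V) (W : Set V) _ j hWr ?_)
    intro v hv
    obtain ⟨h1, h2, h3⟩ := (hB j v).1 hv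
    exact ⟨((hQ v).1 h1).imp id (fun h => h.2), h2, h3⟩
  let U : ℕ → Set V := fun j => {v | (v ∈ R ∨ v ∈ W) ∧ j ≤ d v}
  have hstep : ∀ j, Has G (U (j + 1)) (Good G (3 * q * (a + 1))) (B (j + 1)) →
      Has G (U j) (Good G (3 * q * (a + 1))) (B j) := by
    intro j hU
    have h1 := (Has.leaf G (B j) (hBgood j)).glue hU (by
      intro v hv hv'
      refine ⟨hv, (hB _ v).2 ?_⟩
      obtain ⟨a1, a2, a3⟩ := (hB j v).1 hv
      exact ⟨a1, hv'.2, a3.imp id (fun h => by omega)⟩) (by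
      intro u hu v hv huv
      obtain ⟨a1, a2, a3⟩ := (hB j u).1 hu
      by_cases h : j + 1 ≤ d u
      · exact Or.inl ⟨hQRW u a1, h⟩
      · have h2 : j + 1 ≤ d v := hv.2
        have := hkey u v huv hv.1 (by omega)
        exact Or.inr ((hB j v).2 ⟨this.1, by omega, Or.inr (by omega)⟩))
    let F : Finset V := R.filter (fun v => v ∉ Q ∧ d v = j)
    have hF : ∀ v, v ∈ F ↔ v ∈ R ∧ v ∉ Q ∧ d v = j := by simp [F]
    have hFS : ∀ v ∈ F, v ∉ S' := by
      intro v hv hvS
      obtain ⟨a1, a2, -⟩ := (hF v).1 hv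
      exact a2 ((hQ v).2 (Or.inl (Finset.mem_union_right _ (Finset.mem_filter.2 ⟨hvS, a1⟩))))
    let cls : V → Set V := fun v => {u | u ∈ F ∧ Ch G (fun a => a ∉ S) v u}
    have h2 := h1.attach Set.subset_union_left cls F (by
      intro v _ v' _ u hu hu'
      ext w
      exact ⟨fun h => ⟨h.1, (hu'.2.trans hu.2.symm).trans h.2⟩,
        fun h => ⟨h.1, (hu.2.trans hu'.2.symm).trans h.2⟩⟩) (by
      rintro v - u hu (h | h)
      · exact ((hF u).1 hu.1).2.1 ((hB j u).1 h).1
      · have h3 := ((hF u).1 hu.1).2.2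
        have h4 : j + 1 ≤ d u := h.2
        omega) (by
      intro v hv
      have hvS : v ∉ S := fun h => hFS v hv (Finset.mem_insert_of_mem h)
      let L : Finset V := F.filter (fun u => Ch G (fun a => a ∉ S) v u)
      have hL : ∀ u, u ∈ L ↔ u ∈ cls v := by simp [L, cls]
      let W' : Finset V := Q.filter (fun w => (j ≤ d w ∧ d w ≤ j + 2) ∧ ∃ u ∈ L, G.Adj u w)
      have hnb : ∀ u ∈ L, ∀ w, G.Adj u w → w ∈ L ∨ w ∈ W' := by
        intro u hu w huw
        have hu' := (hL u).1 hu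
        obtain ⟨a1, a2, a3⟩ := (hF u).1 hu'.1
        have hw := hN u a1 w huw
        have hge : j ≤ d w := by
          by_contra hc
          exact a2 (hkey w u huw.symm (Or.inl a1) (by omega)).1
        have hle : d w ≤ j + 2 := a3 ▸ (lv_adj hR (Y : Set V) huw).1
        by_cases hwQ : w ∈ Q
        · exact Or.inr (Finset.mem_filter.2 ⟨hwQ, ⟨hge, hle⟩, u, hu, huw⟩)
        · have hwF : w ∈ F := by
            refine (hF w).2 ⟨hw.resolve_right (fun h => hwQ ((hQ w).2 (Or.inl (hWY w h)))), hwQ, ?_⟩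
            by_contra hc
            exact hwQ (hkey u w huw hw (by omega)).1
          refine Or.inl ((hL w).2 ⟨hwF, hu'.2.trans (Ch.single huw (hu'.2.right hvS) ?_)⟩)
          exact fun h => hFS w hwF (Finset.mem_insert_of_mem h)
      have hLc : L.card < n := by
        rw [← hn]
        refine Finset.card_lt_card ⟨fun u hu => ((hF u).1 ((hL u).1 hu).1).1, fun h => ?_⟩
        exact hFS r0 ((hL r0).1 (h hr0)).1 (Finset.mem_insert_self _ _)
      have hW'c : W'.card ≤ 2 * q := by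
        have hsub : W' ⊆ ((W ∪ W.biUnion cr).filter (fun z => Ch G (fun a => a ∉ S) v z)) ∪
            (S' ∪ S'.biUnion cr) := by
          intro w hw
          obtain ⟨b1, -, u, hu, huw⟩ := Finset.mem_filter.1 hw
          by_cases hwS : w ∈ S
          · exact Finset.mem_union_right _ (Finset.mem_union_left _ (Finset.mem_insert_of_mem hwS))
          have hu' := (hL u).1 hu
          have hch : Ch G (fun a => a ∉ S) v w :=
            hu'.2.trans (Ch.single huw (hu'.2.right hvS) hwS)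
          rcases (hQ w).1 b1 with h | h
          · rcases Finset.mem_union.1 h with h | h
            · exact Finset.mem_union_left _ (Finset.mem_filter.2 ⟨Finset.mem_union_left _ h, hch⟩)
            · exact Finset.mem_union_right _ (Finset.mem_union_left _ (Finset.mem_filter.1 h).1)
          · obtain ⟨y, hy, hy'⟩ := hCcr w h.2
            rcases Finset.mem_union.1 hy with h | h
            · exact Finset.mem_union_left _ (Finset.mem_filter.2
                ⟨Finset.mem_union_right _ (Finset.mem_biUnion.2 ⟨y, h, hy'⟩), hch⟩)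
            · exact Finset.mem_union_right _ (Finset.mem_union_right _
                (Finset.mem_biUnion.2 ⟨y, (Finset.mem_filter.1 h).1, hy'⟩))
        have c1 := (Finset.card_le_card hsub).trans (Finset.card_union_le _ _)
        have c2 := hS' v hvS
        have c3 := (hext S').trans (Nat.mul_le_mul_right _ hS'c)
        omega
      have hrec := ih L.card hLc L W' rfl hnb hW'c (rch_layer hR (Y : Set V) _ j (by
        intro w hw
        obtain ⟨b1, b2, -⟩ := Finset.mem_filter.1 hw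
        exact ⟨((hQ w).1 b1).imp id (fun h => h.2), b2⟩))
      refine ⟨W', ?_, hrec.congr ?_, ?_⟩
      · intro w hw
        obtain ⟨b1, b2, -⟩ := Finset.mem_filter.1 hw
        exact (hB j w).2 ⟨b1, b2.1, Or.inr b2.2⟩
      · congr 1
        ext u
        exact hL u
      · intro u hu w huw
        exact (hnb u ((hL u).2 hu) w huw).imp (fun h => (hL w).1 h) id)
    refine h2.congr ?_
    ext u
    constructor
    · rintro ((h | h) | ⟨v, -, h⟩)
      · obtain ⟨a1, a2, -⟩ := (hB j u).1 h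
        exact ⟨hQRW u a1, a2⟩
      · exact ⟨h.1, (Nat.le_succ j).trans h.2⟩
      · obtain ⟨a1, -, a3⟩ := (hF u).1 h.1
        exact ⟨Or.inl a1, a3.ge⟩
    · rintro ⟨a1, a2⟩
      by_cases h : j + 1 ≤ d u
      · exact Or.inl (Or.inr ⟨a1, h⟩)
      by_cases huQ : u ∈ Q
      · exact Or.inl (Or.inl ((hB j u).2 ⟨huQ, a2, Or.inr (by omega)⟩))
      · have huF : u ∈ F :=
          (hF u).2 ⟨a1.resolve_right (fun h => huQ ((hQ u).2 (Or.inl (hWY u h)))), huQ, by omega⟩
        exact Or.inr ⟨u, huF, huF, Ch.refl _⟩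
  obtain ⟨J, hJ⟩ : ∃ J, ∀ v, d v < J :=
    ⟨Finset.univ.sup d + 1, fun v => Nat.lt_succ_of_le (Finset.le_sup (f := d) (Finset.mem_univ v))⟩
  have hall : ∀ t j, j + t = J → Has G (U j) (Good G (3 * q * (a + 1))) (B j) := by
    intro t
    induction t with
    | zero =>
      intro j hj
      refine (Has.leaf G (B j) (hBgood j)).congr ?_
      ext u
      have := hJ u
      constructor
      · intro h
        have := ((hB j u).1 h).2.1
        omega
      · intro h
        have : j ≤ d u := h.2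
        omega
    | succ t iht => exact fun j hj => hstep j (iht (j + 1) (by omega))
  refine ((hall J 0 (by omega)).congr ?_).mono (fun _ h => h) ?_
  · ext u
    simp [U]
  · intro w hw
    exact (hB 0 w).2 ⟨(hQ w).2 (Or.inl (hWY w hw)), Nat.zero_le _, Or.inl hw⟩

theorem main_has (hH : IsPlanar (planarisation G e)) (he : Function.Injective e)
    (hG : ∀ p, e p ∈ G.edgeSet) (k : ℕ) (hk : 1 ≤ k)
    (h : Has G Set.univ (fun B => B.card ≤ k) ∅) :
    Has G Set.univ (Good G (3 * (4323 * 2161 * k) * 2161)) ∅ := by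
  obtain ⟨Rt, hR⟩ := exists_roots (planarisation G e)
  obtain ⟨cr, hcr, hcr'⟩ := exists_cr hH hR he hG
  have := recursion hH hR cr 2160 hcr hcr' (4323 * 2161 * k) (4322 * k) (by omega) (by
    intro Z hZ
    obtain ⟨S, hS, hS'⟩ := h.sep (4323 * 2161 * k) Z
    refine ⟨S, ?_, hS'⟩
    have h1 : S.card * (4323 * 2161 * k) ≤ (4322 * k) * (4323 * 2161 * k) :=
      hS.trans ((Nat.mul_le_mul_left k hZ).trans (le_of_eq (by ring)))
    exact Nat.le_of_mul_le_mul_right h1 (by omega)) _ Finset.univ ∅ rfl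
    (fun _ _ w _ => Or.inl (Finset.mem_univ w)) (by simp) (by
      rintro (v | x) hz
      · exact absurd hz (by simp [inl_mem_cl])
      · obtain ⟨i, hi⟩ := hz
        obtain ⟨u, hu⟩ := sym2_exists_mem (e (x, i))
        exact absurd (hi u hu) (by simp))
  exact (this.congr (by simp)).mono (fun _ h => h) (Set.empty_subset _)

omit [Fintype V] in
theorem has_of_isTreeDecomp {ι : Type} [Finite ι] {T : SimpleGraph ι} {B : ι → Finset V}
    (h : IsTreeDecomp G T B) {P : Finset V → Prop} (hP : ∀ x, P (B x)) : Has G Set.univ P ∅ := by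
  obtain ⟨x0⟩ := h.1.connected.nonempty
  refine ⟨⟨ι, inferInstance, T, B, h.1, fun _ _ _ => trivial, fun v _ => ?_,
    fun u _ v _ huv => h.2.1 u v huv, ?_⟩, hP, x0, fun _ h => h.elim⟩
  · obtain ⟨x⟩ := (h.2.2 v).nonempty
    exact ⟨x.1, x.2⟩
  · intro v x y hx hy
    have := (h.2.2 v).preconnected ⟨x, hx⟩ ⟨y, hy⟩
    rw [SimpleGraph.reachable_iff_reflTransGen] at this
    have key : ∀ a b : {x | v ∈ B x}, ReflTransGen (T.induce {x | v ∈ B x}).Adj a b →
        Ch T (fun a => v ∈ B a) a.1 b.1 := by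
      intro a b hab
      induction hab with
      | refl => exact Ch.refl _
      | @tail b c _ h ih => exact ih.trans (Ch.single h b.2 c.2)
    exact key _ _ this

theorem connected_of_ch {ι : Type} {T : SimpleGraph ι} {A : Set ι} (hne : A.Nonempty)
    (h : ∀ x y, x ∈ A → y ∈ A → Ch T (fun a => a ∈ A) x y) : (T.induce A).Connected := by
  have : Nonempty A := hne.to_subtype
  refine ⟨fun x y => ?_⟩
  have key : ∀ b, Ch T (fun a => a ∈ A) x.1 b → ∀ hb : b ∈ A, (T.induce A).Reachable x ⟨b, hb⟩ := by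
    intro b hb
    induction hb with
    | refl => exact fun _ => SimpleGraph.Reachable.refl _
    | @tail b c _ h ih =>
      intro hc
      exact (ih h.2.1).trans (SimpleGraph.Adj.reachable (show (T.induce A).Adj ⟨b, h.2.1⟩ ⟨c, hc⟩
        from h.1))
  exact key y.1 (h x.1 y.1 x.2 y.2) y.2

omit [Fintype V] in
theorem TD.isTreeDecomp (D : TD G Set.univ) : IsTreeDecomp G D.T D.B :=
  ⟨D.tree, fun u v h => D.edge u trivial v trivial h,
    fun v => connected_of_ch (D.cov v trivial) (D.conn v)⟩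

omit [Fintype V] in
theorem treewidth_induce_le {S : Set V} {k : ℕ} (h : Has G S (fun C => C.card ≤ k + 1) ∅) :
    treewidth (G.induce S) ≤ k := by
  obtain ⟨D, hD, -⟩ := h
  refine Nat.sInf_le ⟨D.ι, D.fin, D.T, fun x => (D.B x).subtype (· ∈ S), ⟨D.tree, ?_, ?_⟩, ?_⟩
  · intro u v huv
    obtain ⟨x, hx⟩ := D.edge u.1 u.2 v.1 v.2 huv
    exact ⟨x, Finset.mem_subtype.2 hx.1, Finset.mem_subtype.2 hx.2⟩
  · intro v
    have : {x | v ∈ (D.B x).subtype (· ∈ S)} = {x | v.1 ∈ D.B x} := by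
      ext x
      exact Finset.mem_subtype
    rw [this]
    exact connected_of_ch (D.cov v.1 v.2) (D.conn v.1)
  · intro x
    rw [Finset.card_subtype]
    exact (Finset.card_filter_le _ _).trans (hD x)

theorem exists_optimal (G : SimpleGraph V) : ∃ (ι : Type) (_ : Finite ι) (T : SimpleGraph ι)
    (B : ι → Finset V), IsTreeDecomp G T B ∧ ∀ x, (B x).card ≤ treewidth G + 1 := by
  refine Nat.sInf_mem (s := {w | ∃ (ι : Type) (_ : Finite ι) (T : SimpleGraph ι)
    (B : ι → Finset V), IsTreeDecomp G T B ∧ ∀ x, (B x).card ≤ w + 1}) ?_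
  obtain ⟨D, hD, -⟩ := (Has.leaf G (P := fun B => B.card ≤ Fintype.card V + 1) Finset.univ
    (by simp)).congr Finset.coe_univ
  exact ⟨Fintype.card V, D.ι, D.fin, D.T, D.B, D.isTreeDecomp, hD⟩

end Pool.Agent.Lib.MP_f8d2b9_co
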