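import Mathlib
import Pool.Agent.Lib.MP_f8d2b9_co.Main

/-! The main recursion, with planarity replaced by the radius property that it uses. -/

set_option autoImplicit false
open Classical Relation

namespace Pool.Agent.Lib.MP_f8d2b9_co

/-- Small radius forces small treewidth, the vertices outside `Z` being free. -/
def TC {W : Type} (H : SimpleGraph W) : Prop :=
  ∀ Rt : Set W, IsRoots H Rt → ∀ (Z : Set W) (r : ℕ), (∀ z ∈ Z, Rch H Rt Z z r) →
    Has H Z (fun B => B.card ≤ 3 * r) ∅

variable {V X : Type} {G : SimpleGraph V} {e : X × Bool → Sym2 V} [Fintype V] [Fintype X]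
  {Rt : Set (V ⊕ X)}

section

variable (hH : TC (planarisation G e)) (hR : IsRoots (planarisation G e) Rt)

include hH hR in
theorem tw_of_rchT (B : Set V) (r : ℕ)
    (hr : ∀ z ∈ cl e B, Rch (planarisation G e) Rt (cl e B) z r) :
    Has G B (fun C => C.card ≤ 3 * r * 4) ∅ := by
  refine (hH _ hR (cl e B) r hr).map
    (Sum.elim (fun v => {v}) (fun x => Finset.univ.filter (fun u => u ∈ B ∧ ∃ i, u ∈ e (x, i))))
    ?_ ?_ ?_ ?_ ?_
  · rintro (v | x) -
    · simp
    · refine le_trans (Finset.card_le_card ?_) (card_ends (e := e) x)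
      intro u hu
      simp only [Sum.elim_inr, Finset.mem_filter, Finset.mem_univ, true_and] at hu ⊢
      exact hu.2
  · rintro (v | x) hp u hu
    · simp only [Sum.elim_inl, Finset.mem_singleton] at hu
      exact hu ▸ hp
    · simp only [Sum.elim_inr, Finset.mem_filter, Finset.mem_univ, true_and] at hu
      exact hu.1
  · intro u hu
    exact ⟨Sum.inl u, hu, by simp⟩
  · intro u hu v hv huv
    by_cases h : ∀ p, e p ≠ s(u, v)
    · exact ⟨Sum.inl u, hu, Sum.inl v, hv, by simp, by simp, Or.inr (adj_ll huv h)⟩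
    · push Not at h
      obtain ⟨⟨x, i⟩, hx⟩ := h
      have hm : Sum.inr x ∈ cl e B := ⟨i, by
        intro w hw
        rw [hx, Sym2.mem_iff] at hw
        rcases hw with rfl | rfl
        exacts [hu, hv]⟩
      refine ⟨Sum.inr x, hm, Sum.inr x, hm, ?_, ?_, Or.inl rfl⟩
      · simp only [Sum.elim_inr, Finset.mem_filter, Finset.mem_univ, true_and]
        exact ⟨hu, i, by simp [hx]⟩
      · simp only [Sum.elim_inr, Finset.mem_filter, Finset.mem_univ, true_and]
        exact ⟨hv, i, by simp [hx]⟩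
  · intro u
    have key : ∀ p ∈ cl e B, u ∈ (Sum.elim (fun v => {v})
        (fun x => Finset.univ.filter (fun u => u ∈ B ∧ ∃ i, u ∈ e (x, i))) p : Finset V) →
        Ch (planarisation G e) (fun a => a ∈ cl e B ∧ u ∈ (Sum.elim (fun v => {v})
        (fun x => Finset.univ.filter (fun u => u ∈ B ∧ ∃ i, u ∈ e (x, i))) a : Finset V))
          (Sum.inl u) p := by
      rintro (v | x) hp hu
      · simp only [Sum.elim_inl, Finset.mem_singleton] at hu
        subst hu
        exact Ch.refl _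
      · have hu' := hu
        simp only [Sum.elim_inr, Finset.mem_filter, Finset.mem_univ, true_and] at hu'
        obtain ⟨h1, i, hi⟩ := hu'
        exact Ch.single (adj_lr hi) ⟨h1, by simp⟩ ⟨hp, hu⟩
    intro p hp q hq hup huq
    exact (key p hp hup).symm.trans (key q hq huq)

include hH hR in
theorem exists_orientT : ∃ A : V → Finset V, (∀ v, (A v).card ≤ 540) ∧
    ∀ u v, G.Adj u v → v ∈ A u ∨ u ∈ A v := by
  let d : V → ℕ := fun v => lv G e Rt Set.univ (Sum.inl v)
  have h1 : ∀ j, ∃ N : V → Finset V, (∀ v, (N v).card ≤ 3 * 15 * 4) ∧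
      ∀ u ∈ {v | j ≤ d v ∧ d v ≤ j + 2}, ∀ v ∈ {v | j ≤ d v ∧ d v ≤ j + 2},
        G.Adj u v → v ∈ N u ∨ u ∈ N v := fun j =>
    (tw_of_rchT hH hR _ 15 (rch_layer hR Set.univ _ j (fun v hv => ⟨Or.inl trivial, hv⟩))).orient
  choose N hN hN' using h1
  refine ⟨fun v => N (d v) v ∪ N (d v - 1) v ∪ N (d v - 2) v, fun v => ?_, ?_⟩
  · have a1 := hN (d v) v
    have a2 := hN (d v - 1) v
    have a3 := hN (d v - 2) v
    have a4 := Finset.card_union_le (N (d v) v ∪ N (d v - 1) v) (N (d v - 2) v)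
    have a5 := Finset.card_union_le (N (d v) v) (N (d v - 1) v)
    dsimp only
    omega
  · have key : ∀ u v, G.Adj u v → d u ≤ d v →
        v ∈ N (d u) u ∪ N (d u - 1) u ∪ N (d u - 2) u ∨
        u ∈ N (d v) v ∪ N (d v - 1) v ∪ N (d v - 2) v := by
      intro u v huv hle
      have h2 : d v ≤ d u + 2 := (lv_adj hR Set.univ huv).1
      rcases hN' (d u) u ⟨le_rfl, by omega⟩ v ⟨hle, h2⟩ huv with h | h
      · left; simp [h]
      · right
        have : d u = d v ∨ d u = d v - 1 ∨ d u = d v - 2 := by omega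
        rcases this with h' | h' | h' <;> simp [← h', h]
    intro u v huv
    rcases le_total (d u) (d v) with h | h
    · exact key u v huv h
    · exact (key v u huv.symm h).symm

include hH hR in
theorem exists_crT (he : Function.Injective e) (hG : ∀ p, e p ∈ G.edgeSet) :
    ∃ cr : V → Finset V, (∀ v, (cr v).card ≤ 2160) ∧
      ∀ x i, ∃ y ∈ e (x, i), ∀ j, ∀ u ∈ e (x, j), u ∈ cr y := by
  obtain ⟨A, hA, hA'⟩ := exists_orientT hH hR
  let ce : Sym2 V → Finset V := fun z =>
    Finset.univ.filter (fun u => ∃ x i j, e (x, i) = z ∧ u ∈ e (x, j))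
  have hce : ∀ z, (ce z).card ≤ 4 := by
    intro z
    by_cases h : ∃ p, e p = z
    · obtain ⟨⟨x, i⟩, hx⟩ := h
      refine le_trans (Finset.card_le_card ?_) (card_ends (e := e) x)
      intro u hu
      simp only [ce, Finset.mem_filter, Finset.mem_univ, true_and] at hu ⊢
      obtain ⟨x', i', j, h1, h2⟩ := hu
      have := he (h1.trans hx.symm)
      rw [Prod.mk.injEq] at this
      exact ⟨j, this.1 ▸ h2⟩
    · have : ce z = ∅ := by
        rw [Finset.eq_empty_iff_forall_notMem]
        intro u hu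
        simp only [ce, Finset.mem_filter, Finset.mem_univ, true_and] at hu
        obtain ⟨x', i', j, h1, h2⟩ := hu
        exact h ⟨_, h1⟩
      simp [this]
  refine ⟨fun y => (A y).biUnion (fun y' => ce s(y, y')), fun v => ?_, ?_⟩
  · refine (Finset.card_biUnion_le_card_mul _ _ 4 (fun p _ => hce _)).trans ?_
    have := hA v
    omega
  · intro x i
    obtain ⟨⟨a, b⟩, h1⟩ := Quot.exists_rep (e (x, i))
    have h1' : e (x, i) = s(a, b) := h1.symm
    have hab : G.Adj a b := by
      have := hG (x, i)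
      rwa [h1'] at this
    rcases hA' a b hab with h | h
    · refine ⟨a, by simp [h1'], fun j u hu => Finset.mem_biUnion.2 ⟨b, h, ?_⟩⟩
      simp only [ce, Finset.mem_filter, Finset.mem_univ, true_and]
      exact ⟨x, i, j, h1', hu⟩
    · refine ⟨b, by simp [h1'], fun j u hu => Finset.mem_biUnion.2 ⟨a, h, ?_⟩⟩
      simp only [ce, Finset.mem_filter, Finset.mem_univ, true_and]
      exact ⟨x, i, j, h1'.trans Sym2.eq_swap, hu⟩

end

theorem recursionT (hH : TC (planarisation G e)) (hR : IsRoots (planarisation G e) Rt)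
    (cr : V → Finset V) (a : ℕ) (hcr : ∀ v, (cr v).card ≤ a)
    (hcr' : ∀ x i, ∃ y ∈ e (x, i), ∀ j, ∀ u ∈ e (x, j), u ∈ cr y)
    (q s : ℕ) (hqs : (s + 1) * (a + 1) ≤ q)
    (hsep : ∀ Z : Finset V, Z.card ≤ 2 * q * (a + 1) → ∃ S : Finset V, S.card ≤ s ∧ ∀ v, v ∉ S →
      (Z.filter (fun z => Ch G (fun a => a ∉ S) v z)).card ≤ q) (n : ℕ) :
    ∀ R W : Finset V, R.card = n → (∀ u ∈ R, ∀ w, G.Adj u w → w ∈ R ∨ w ∈ W) →
      W.card ≤ 2 * q → (∀ z ∈ cl e (W : Set V), Rch (planarisation G e) Rt (cl e (W : Set V)) z 15) →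
      Has G ((R : Set V) ∪ W) (Good G (3 * q * (a + 1))) W := by
  induction n using Nat.strong_induction_on with
  | _ n ih =>
  intro R W hn hN hW hWr
  have hext : ∀ A : Finset V, (A ∪ A.biUnion cr).card ≤ A.card * (a + 1) := by
    intro A
    have h1 := Finset.card_union_le A (A.biUnion cr)
    have h2 := Finset.card_biUnion_le_card_mul A cr a (fun p _ => hcr p)
    rw [mul_add, mul_one]
    omega
  rcases R.eq_empty_or_nonempty with rfl | ⟨r0, hr0⟩
  · refine (Has.leaf G W ⟨?_, ?_⟩).congr (by simp)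
    · calc W.card ≤ 2 * q := hW
        _ ≤ 3 * q * 1 := by omega
        _ ≤ 3 * q * (a + 1) := Nat.mul_le_mul_left _ (by omega)
    · exact (tw_of_rchT hH hR _ 15 hWr).mono (fun B h => by omega) le_rfl
  obtain ⟨S, hS, hS'⟩ := hsep (W ∪ W.biUnion cr)
    ((hext W).trans (Nat.mul_le_mul_right _ hW))
  let S' : Finset V := insert r0 S
  have hS'c : S'.card ≤ s + 1 := (Finset.card_insert_le _ _).trans (by omega)
  let Y : Finset V := W ∪ S'.filter (· ∈ R)
  have hYc : Y.card ≤ 3 * q := by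
    have h1 := Finset.card_union_le W (S'.filter (· ∈ R))
    have h2 := Finset.card_filter_le S' (· ∈ R)
    have h3 : (s + 1) * 1 ≤ (s + 1) * (a + 1) := Nat.mul_le_mul_left _ (by omega)
    simp only [Y]
    omega
  let d : V → ℕ := fun v => lv G e Rt (Y : Set V) (Sum.inl v)
  let Q : Finset V := Finset.univ.filter (fun v => v ∈ Y ∨ (v ∈ R ∧ IsC G e Rt (Y : Set V) v))
  have hQ : ∀ v, v ∈ Q ↔ v ∈ Y ∨ (v ∈ R ∧ IsC G e Rt (Y : Set V) v) := by simp [Q]
  have hCcr : ∀ v, IsC G e Rt (Y : Set V) v → ∃ y ∈ Y, v ∈ cr y := by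
    rintro v ⟨-, x, ⟨i, hi⟩, ⟨j, hj⟩, -⟩
    obtain ⟨y, hy, hy'⟩ := hcr' x i
    exact ⟨y, hi y hy, hy' j v hj⟩
  have hQc : Q.card ≤ 3 * q * (a + 1) := by
    refine le_trans (Finset.card_le_card ?_) ((hext Y).trans (Nat.mul_le_mul_right _ hYc))
    intro v hv
    rcases (hQ v).1 hv with h | h
    · exact Finset.mem_union_left _ h
    · exact Finset.mem_union_right _ (Finset.mem_biUnion.2 (hCcr v h.2))
  have hWY : ∀ v ∈ W, v ∈ Y := fun v hv => Finset.mem_union_left _ hv
  have hYRW : ∀ v ∈ Y, v ∈ R ∨ v ∈ W := by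
    intro v hv
    rcases Finset.mem_union.1 hv with h | h
    · exact Or.inr h
    · exact Or.inl (Finset.mem_filter.1 h).2
  have hQRW : ∀ v ∈ Q, v ∈ R ∨ v ∈ W := by
    intro v hv
    rcases (hQ v).1 hv with h | h
    · exact hYRW v h
    · exact Or.inl h.1
  have hkey : ∀ v u, G.Adj v u → (u ∈ R ∨ u ∈ W) → d v < d u → u ∈ Q ∧ d u ≤ d v + 2 := by
    intro v u hvu hu hlt
    have h1 := lv_adj hR (Y : Set V) hvu
    refine ⟨(hQ u).2 ?_, h1.1⟩
    by_cases huY : u ∈ Y
    · exact Or.inl huY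
    · exact Or.inr ⟨hu.resolve_right (fun h => huY (hWY u h)), h1.2 huY hlt⟩
  let B : ℕ → Finset V := fun j => Q.filter (fun v => j ≤ d v ∧ (v ∈ W ∨ d v ≤ j + 2))
  have hB : ∀ j v, v ∈ B j ↔ v ∈ Q ∧ j ≤ d v ∧ (v ∈ W ∨ d v ≤ j + 2) := by simp [B]
  have hBgood : ∀ j, Good G (3 * q * (a + 1)) (B j) := by
    intro j
    refine ⟨(Finset.card_filter_le _ _).trans hQc, ?_⟩
    refine tw_of_rchT hH hR _ 30 (rch_bag hR (Y : Set V) (W : Set V) _ j hWr ?_)
    intro v hv
    obtain ⟨h1, h2, h3⟩ := (hB j v).1 hv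
    exact ⟨((hQ v).1 h1).imp id (fun h => h.2), h2, h3⟩
  let U : ℕ → Set V := fun j => {v | (v ∈ R ∨ v ∈ W) ∧ j ≤ d v}
  have hstep : ∀ j, Has G (U (j + 1)) (Good G (3 * q * (a + 1))) (B (j + 1)) →
      Has G (U j) (Good G (3 * q * (a + 1))) (B j) := by
    intro j hU
    have h1 := (Has.leaf G (B j) (hBgood j)).glue hU (by
      intro v hv hv'
      refine ⟨hv, (hB _ v).2 ?_⟩
      obtain ⟨a1, a2, a3⟩ := (hB j v).1 hv
      exact ⟨a1, hv'.2, a3.imp id (fun h => by omega)⟩) (by
      intro u hu v hv huv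
      obtain ⟨a1, a2, a3⟩ := (hB j u).1 hu
      by_cases h : j + 1 ≤ d u
      · exact Or.inl ⟨hQRW u a1, h⟩
      · have h2 : j + 1 ≤ d v := hv.2
        have := hkey u v huv hv.1 (by omega)
        exact Or.inr ((hB j v).2 ⟨this.1, by omega, Or.inr (by omega)⟩))
    let F : Finset V := R.filter (fun v => v ∉ Q ∧ d v = j)
    have hF : ∀ v, v ∈ F ↔ v ∈ R ∧ v ∉ Q ∧ d v = j := by simp [F]
    have hFS : ∀ v ∈ F, v ∉ S' := by
      intro v hv hvS
      obtain ⟨a1, a2, -⟩ := (hF v).1 hv
      exact a2 ((hQ v).2 (Or.inl (Finset.mem_union_right _ (Finset.mem_filter.2 ⟨hvS, a1⟩))))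
    let cls : V → Set V := fun v => {u | u ∈ F ∧ Ch G (fun a => a ∉ S) v u}
    have h2 := h1.attach Set.subset_union_left cls F (by
      intro v _ v' _ u hu hu'
      ext w
      exact ⟨fun h => ⟨h.1, (hu'.2.trans hu.2.symm).trans h.2⟩,
        fun h => ⟨h.1, (hu.2.trans hu'.2.symm).trans h.2⟩⟩) (by
      rintro v - u hu (h | h)
      · exact ((hF u).1 hu.1).2.1 ((hB j u).1 h).1
      · have h3 := ((hF u).1 hu.1).2.2
        have h4 : j + 1 ≤ d u := h.2
        omega) (by
      intro v hv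
      have hvS : v ∉ S := fun h => hFS v hv (Finset.mem_insert_of_mem h)
      let L : Finset V := F.filter (fun u => Ch G (fun a => a ∉ S) v u)
      have hL : ∀ u, u ∈ L ↔ u ∈ cls v := by simp [L, cls]
      let W' : Finset V := Q.filter (fun w => (j ≤ d w ∧ d w ≤ j + 2) ∧ ∃ u ∈ L, G.Adj u w)
      have hnb : ∀ u ∈ L, ∀ w, G.Adj u w → w ∈ L ∨ w ∈ W' := by
        intro u hu w huw
        have hu' := (hL u).1 hu
        obtain ⟨a1, a2, a3⟩ := (hF u).1 hu'.1
        have hw := hN u a1 w huw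
        have hge : j ≤ d w := by
          by_contra hc
          exact a2 (hkey w u huw.symm (Or.inl a1) (by omega)).1
        have hle : d w ≤ j + 2 := a3 ▸ (lv_adj hR (Y : Set V) huw).1
        by_cases hwQ : w ∈ Q
        · exact Or.inr (Finset.mem_filter.2 ⟨hwQ, ⟨hge, hle⟩, u, hu, huw⟩)
        · have hwF : w ∈ F := by
            refine (hF w).2 ⟨hw.resolve_right (fun h => hwQ ((hQ w).2 (Or.inl (hWY w h)))), hwQ, ?_⟩
            by_contra hc
            exact hwQ (hkey u w huw hw (by omega)).1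
          refine Or.inl ((hL w).2 ⟨hwF, hu'.2.trans (Ch.single huw (hu'.2.right hvS) ?_)⟩)
          exact fun h => hFS w hwF (Finset.mem_insert_of_mem h)
      have hLc : L.card < n := by
        rw [← hn]
        refine Finset.card_lt_card ⟨fun u hu => ((hF u).1 ((hL u).1 hu).1).1, fun h => ?_⟩
        exact hFS r0 ((hL r0).1 (h hr0)).1 (Finset.mem_insert_self _ _)
      have hW'c : W'.card ≤ 2 * q := by
        have hsub : W' ⊆ ((W ∪ W.biUnion cr).filter (fun z => Ch G (fun a => a ∉ S) v z)) ∪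
            (S' ∪ S'.biUnion cr) := by
          intro w hw
          obtain ⟨b1, -, u, hu, huw⟩ := Finset.mem_filter.1 hw
          by_cases hwS : w ∈ S
          · exact Finset.mem_union_right _ (Finset.mem_union_left _ (Finset.mem_insert_of_mem hwS))
          have hu' := (hL u).1 hu
          have hch : Ch G (fun a => a ∉ S) v w :=
            hu'.2.trans (Ch.single huw (hu'.2.right hvS) hwS)
          rcases (hQ w).1 b1 with h | h
          · rcases Finset.mem_union.1 h with h | h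
            · exact Finset.mem_union_left _ (Finset.mem_filter.2 ⟨Finset.mem_union_left _ h, hch⟩)
            · exact Finset.mem_union_right _ (Finset.mem_union_left _ (Finset.mem_filter.1 h).1)
          · obtain ⟨y, hy, hy'⟩ := hCcr w h.2
            rcases Finset.mem_union.1 hy with h | h
            · exact Finset.mem_union_left _ (Finset.mem_filter.2
                ⟨Finset.mem_union_right _ (Finset.mem_biUnion.2 ⟨y, h, hy'⟩), hch⟩)
            · exact Finset.mem_union_right _ (Finset.mem_union_right _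
                (Finset.mem_biUnion.2 ⟨y, (Finset.mem_filter.1 h).1, hy'⟩))
        have c1 := (Finset.card_le_card hsub).trans (Finset.card_union_le _ _)
        have c2 := hS' v hvS
        have c3 := (hext S').trans (Nat.mul_le_mul_right _ hS'c)
        omega
      have hrec := ih L.card hLc L W' rfl hnb hW'c (rch_layer hR (Y : Set V) _ j (by
        intro w hw
        obtain ⟨b1, b2, -⟩ := Finset.mem_filter.1 hw
        exact ⟨((hQ w).1 b1).imp id (fun h => h.2), b2⟩))
      refine ⟨W', ?_, hrec.congr ?_, ?_⟩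
      · intro w hw
        obtain ⟨b1, b2, -⟩ := Finset.mem_filter.1 hw
        exact (hB j w).2 ⟨b1, b2.1, Or.inr b2.2⟩
      · congr 1
        ext u
        exact hL u
      · intro u hu w huw
        exact (hnb u ((hL u).2 hu) w huw).imp (fun h => (hL w).1 h) id)
    refine h2.congr ?_
    ext u
    constructor
    · rintro ((h | h) | ⟨v, -, h⟩)
      · obtain ⟨a1, a2, -⟩ := (hB j u).1 h
        exact ⟨hQRW u a1, a2⟩
      · exact ⟨h.1, (Nat.le_succ j).trans h.2⟩
      · obtain ⟨a1, -, a3⟩ := (hF u).1 h.1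
        exact ⟨Or.inl a1, a3.ge⟩
    · rintro ⟨a1, a2⟩
      by_cases h : j + 1 ≤ d u
      · exact Or.inl (Or.inr ⟨a1, h⟩)
      by_cases huQ : u ∈ Q
      · exact Or.inl (Or.inl ((hB j u).2 ⟨huQ, a2, Or.inr (by omega)⟩))
      · have huF : u ∈ F :=
          (hF u).2 ⟨a1.resolve_right (fun h => huQ ((hQ u).2 (Or.inl (hWY u h)))), huQ, by omega⟩
        exact Or.inr ⟨u, huF, huF, Ch.refl _⟩
  obtain ⟨J, hJ⟩ : ∃ J, ∀ v, d v < J :=
    ⟨Finset.univ.sup d + 1, fun v => Nat.lt_succ_of_le (Finset.le_sup (f := d) (Finset.mem_univ v))⟩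
  have hall : ∀ t j, j + t = J → Has G (U j) (Good G (3 * q * (a + 1))) (B j) := by
    intro t
    induction t with
    | zero =>
      intro j hj
      refine (Has.leaf G (B j) (hBgood j)).congr ?_
      ext u
      have := hJ u
      constructor
      · intro h
        have := ((hB j u).1 h).2.1
        omega
      · intro h
        have : j ≤ d u := h.2
        omega
    | succ t iht => exact fun j hj => hstep j (iht (j + 1) (by omega))
  refine ((hall J 0 (by omega)).congr ?_).mono (fun _ h => h) ?_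
  · ext u
    simp [U]
  · intro w hw
    exact (hB 0 w).2 ⟨(hQ w).2 (Or.inl (hWY w hw)), Nat.zero_le _, Or.inl hw⟩

theorem main_hasT (hH : TC (planarisation G e)) (he : Function.Injective e)
    (hG : ∀ p, e p ∈ G.edgeSet) (k : ℕ) (hk : 1 ≤ k)
    (h : Has G Set.univ (fun B => B.card ≤ k) ∅) :
    Has G Set.univ (Good G (3 * (4323 * 2161 * k) * 2161)) ∅ := by
  obtain ⟨Rt, hR⟩ := exists_roots (planarisation G e)
  obtain ⟨cr, hcr, hcr'⟩ := exists_crT hH hR he hG
  have := recursionT hH hR cr 2160 hcr hcr' (4323 * 2161 * k) (4322 * k) (by omega) (by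
    intro Z hZ
    obtain ⟨S, hS, hS'⟩ := h.sep (4323 * 2161 * k) Z
    refine ⟨S, ?_, hS'⟩
    have h1 : S.card * (4323 * 2161 * k) ≤ (4322 * k) * (4323 * 2161 * k) :=
      hS.trans ((Nat.mul_le_mul_left k hZ).trans (le_of_eq (by ring)))
    exact Nat.le_of_mul_le_mul_right h1 (by omega)) _ Finset.univ ∅ rfl
    (fun _ _ w _ => Or.inl (Finset.mem_univ w)) (by simp) (by
      rintro (v | x) hz
      · exact absurd hz (by simp [inl_mem_cl])
      · obtain ⟨i, hi⟩ := hz
        obtain ⟨u, hu⟩ := sym2_exists_mem (e (x, i))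
        exact absurd (hi u hu) (by simp))
  exact (this.congr (by simp)).mono (fun _ h => h) (Set.empty_subset _)

end Pool.Agent.Lib.MP_f8d2b9_co
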