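import Mathlib
import Pool.Agent.Lib.MP_f8d2b9_co.Radius

/-! Tree-decompositions of plane graphs whose bags lie on three root paths. -/

set_option autoImplicit false
open Classical Relation Equiv Equiv.Perm

namespace Pool.Agent.Lib.MP_f8d2b9_co

theorem Has.mapP {V W : Type} {O : SimpleGraph V} {G : SimpleGraph W} {S : Set V} {S' : Set W}
    {P : Finset V → Prop} {Q : Finset W → Prop} {A : Set V} (h : Has O S P A) (f : V → Finset W)
    (hf : ∀ B : Finset V, P B → Q (B.biUnion f))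
    (hsub : ∀ p ∈ S, ∀ u ∈ f p, u ∈ S')
    (hcov : ∀ u ∈ S', ∃ p ∈ S, u ∈ f p)
    (hedge : ∀ u ∈ S', ∀ v ∈ S', G.Adj u v → ∃ p ∈ S, ∃ q ∈ S, u ∈ f p ∧ v ∈ f q ∧
      (p = q ∨ O.Adj p q))
    (hconn : ∀ u, ∀ p ∈ S, ∀ q ∈ S, u ∈ f p → u ∈ f q → Ch O (fun a => a ∈ S ∧ u ∈ f a) p q) :
    Has G S' Q ∅ := by
  obtain ⟨D, hP, x0, -⟩ := h
  refine ⟨⟨D.ι, D.fin, D.T, fun x => (D.B x).biUnion f, D.tree, ?_, ?_, ?_, ?_⟩, ?_, x0,
    fun _ h => h.elim⟩
  · intro x v hv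
    obtain ⟨p, hp, hv⟩ := Finset.mem_biUnion.1 hv
    exact hsub p (D.sub x p hp) v hv
  · intro v hv
    obtain ⟨p, hp, hv⟩ := hcov v hv
    obtain ⟨x, hx⟩ := D.cov p hp
    exact ⟨x, Finset.mem_biUnion.2 ⟨p, hx, hv⟩⟩
  · intro u hu v hv huv
    obtain ⟨p, hp, q, hq, hu, hv, hpq⟩ := hedge u hu v hv huv
    rcases hpq with rfl | hpq
    · obtain ⟨x, hx⟩ := D.cov p hp
      exact ⟨x, Finset.mem_biUnion.2 ⟨p, hx, hu⟩, Finset.mem_biUnion.2 ⟨p, hx, hv⟩⟩
    · obtain ⟨x, hx, hx'⟩ := D.edge p hp q hq hpq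
      exact ⟨x, Finset.mem_biUnion.2 ⟨p, hx, hu⟩, Finset.mem_biUnion.2 ⟨q, hx', hv⟩⟩
  · intro v x y hx hy
    obtain ⟨p, hp, hv⟩ := Finset.mem_biUnion.1 hx
    obtain ⟨q, hq, hv'⟩ := Finset.mem_biUnion.1 hy
    have := D.conn_set (fun a => a ∈ S ∧ v ∈ f a) (fun _ h => h.1)
      (hconn v p (D.sub x p hp) q (D.sub y q hq) hv hv') ⟨D.sub x p hp, hv⟩ hp hq
    exact this.mono (fun a ⟨r, hr, hr'⟩ => Finset.mem_biUnion.2 ⟨r, hr, hr'.2⟩)
  · exact fun x => hf _ (hP x)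

variable {W : Type} {H : SimpleGraph W} [Fintype W]

namespace Forest

variable (F : Forest H)

theorem tc_paths (hH : IsPlanar H) (Z : Set W) (ρ : W) (hρ : F.dp ρ = 0) :
    Has H {z | z ∈ Z ∧ H.Reachable ρ z}
      (fun B => ∃ T : Finset W, T.card ≤ 3 ∧ ∀ z ∈ B, ∃ v ∈ T, F.Anc z v) ∅ := by
  by_cases hx0 : ∃ x0 : H.Dart, x0.fst = ρ
  swap
  · have := Has.leaf H (P := fun B => ∃ T : Finset W, T.card ≤ 3 ∧ ∀ z ∈ B, ∃ v ∈ T, F.Anc z v)
      (F.P Z ρ) ⟨{ρ}, by simp, fun z hz => ⟨ρ, by simp, (F.mem_P.1 hz).2⟩⟩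
    refine (this.congr ?_).mono (fun _ h => h) (Set.empty_subset _)
    ext z
    simp only [Finset.mem_coe, mem_P, Set.mem_ofPred_eq]
    constructor
    · exact fun h => ⟨h.1, (F.anc_reach h.2).symm⟩
    · rintro ⟨h1, h2⟩
      refine ⟨h1, ?_⟩
      by_cases h : ρ = z
      · exact h ▸ F.anc_refl ρ
      · obtain ⟨c, hc⟩ := h2.nonempty_neighborSet_left h
        exact (hx0 ⟨⟨(ρ, c), hc⟩, rfl⟩).elim
  obtain ⟨x0, hx0⟩ := hx0
  obtain ⟨σ, hσ, hσ', hE⟩ := hH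
  set τ := σ * flipE H F.ET with hτ
  let L := Function.minimalPeriod τ x0
  let pos : ℕ → H.Dart := fun i => τ^[i] x0
  have hL : 0 < L := Function.minimalPeriod_pos_of_mem_periodicPts
    (Function.mk_mem_periodicPts (orderOf_pos τ) (by
      show τ^[orderOf τ] x0 = x0
      rw [iterate_eq_pow, pow_orderOf_eq_one]; rfl))
  have hinj : ∀ i j, i < L → j < L → pos i = pos j → i = j := fun i j hi hj h =>
    Function.iterate_injOn_Iio_minimalPeriod hi hj h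
  have hsucc : ∀ i, pos (i + 1) = τ (pos i) := fun i => Function.iterate_succ_apply' _ _ _
  have hposL : pos L = x0 := Function.isPeriodicPt_minimalPeriod τ x0
  have hsurj : ∀ e : H.Dart, H.Reachable ρ e.fst → ∃ i < L, pos i = e := by
    intro e he
    obtain ⟨n, hn⟩ := (F.same_anc hσ hσ' (F.anc_of_reach hρ he) hx0 rfl).exists_nat_pow_eq
    exact ⟨n % L, Nat.mod_lt _ hL, Function.iterate_mod_minimalPeriod_eq.trans hn⟩
  have hreach : ∀ i, H.Reachable ρ (pos i).fst := by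
    intro i
    induction i with
    | zero => exact hx0 ▸ SimpleGraph.Reachable.refl _
    | succ i ih =>
      rw [hsucc, hτ, F.tau_fst hσ]
      split_ifs
      · exact ih.trans (pos i).adj.reachable
      · exact ih
  let O : SimpleGraph ℕ := SimpleGraph.fromRel (fun i j => j = i + 1 ∨
    (i < L ∧ j < L ∧ (pos i).edge ∉ F.ET ∧ pos j = (pos i).symm))
  have hchord : ∀ a a', a + 1 < a' → O.Adj a a' →
      a < L ∧ a' < L ∧ (pos a).edge ∉ F.ET ∧ pos a' = (pos a).symm := by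
    intro a a' h hadj
    rw [SimpleGraph.fromRel_adj] at hadj
    rcases hadj.2 with (h1 | h1) | (h1 | h1)
    · omega
    · exact h1
    · omega
    · refine ⟨h1.2.1, h1.1, ?_, ?_⟩
      · rw [h1.2.2.2]; simpa using h1.2.2.1
      · rw [h1.2.2.2, SimpleGraph.Dart.symm_symm]
  have hnc := noncrossing O L (by
    intro a b a' b' h1 h2 h3 _ ha hb
    obtain ⟨a1, a2, a3, a4⟩ := hchord a a' (by omega) ha
    obtain ⟨b1, b2, b3, b4⟩ := hchord b b' (by omega) hb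
    have hne : (pos b).edge ≠ (pos a).edge := by
      intro h
      rcases (SimpleGraph.dart_edge_eq_iff _ _).1 h with h | h
      · have := hinj _ _ b1 a1 h; omega
      · have := hinj _ _ b1 a2 (h.trans a4.symm); omega
    have hs := F.no_cross hσ hσ' hE a3 b3 hne
    have := mem_of_sameCycle (I := fun x => ∃ i, a < i ∧ i ≤ a' ∧ pos i = x) (by
      rintro x ⟨i, hi1, hi2, rfl⟩
      by_cases hi : i = a'
      · subst hi
        refine ⟨a + 1, by omega, by omega, ?_⟩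
        rw [Perm.mul_apply, a4, swap_apply_right, hsucc]
      · refine ⟨i + 1, by omega, by omega, ?_⟩
        rw [Perm.mul_apply, swap_apply_of_ne_of_ne, hsucc]
        · intro h
          have := hinj _ _ (by omega) a1 h; omega
        · intro h
          exact hi (hinj _ _ (by omega) a2 (h.trans a4.symm))) hs ⟨b, h1, h2.le, rfl⟩
    obtain ⟨i, hi1, hi2, hi3⟩ := this
    have := hinj _ _ (by omega) b2 (hi3.trans b4.symm)
    omega) _ 0 L rfl hL le_rfl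
  refine hnc.mapP (fun i => F.P Z (pos i).fst) ?_ ?_ ?_ ?_ ?_
  · intro B hB
    refine ⟨B.image (fun i => (pos i).fst), Finset.card_image_le.trans hB, fun z hz => ?_⟩
    obtain ⟨i, hi, hz⟩ := Finset.mem_biUnion.1 hz
    exact ⟨_, Finset.mem_image_of_mem _ hi, (F.mem_P.1 hz).2⟩
  · intro p _ u hu
    rw [mem_P] at hu
    exact ⟨hu.1, (hreach p).trans (F.anc_reach hu.2).symm⟩
  · intro u hu
    obtain ⟨e, he⟩ : ∃ e : H.Dart, e.fst = u := by
      by_cases h : u = ρ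
      · exact ⟨x0, h ▸ hx0⟩
      · obtain ⟨c, hc⟩ := hu.2.symm.nonempty_neighborSet_left h
        exact ⟨⟨(u, c), hc⟩, rfl⟩
    obtain ⟨i, hi, rfl⟩ := hsurj e (he ▸ hu.2)
    exact ⟨i, ⟨Nat.zero_le _, hi.le⟩, F.mem_P.2 ⟨hu.1, he ▸ F.anc_refl _⟩⟩
  · intro u hu v hv huv
    obtain ⟨i, hi, hi'⟩ := hsurj ⟨(u, v), huv⟩ hu.2
    obtain ⟨j, hj, hj'⟩ := hsurj ⟨(v, u), huv.symm⟩ hv.2
    have hiu : (pos i).fst = u := by rw [hi']
    have hjv : (pos j).fst = v := by rw [hj']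
    have hui : u ∈ F.P Z (pos i).fst := F.mem_P.2 ⟨hu.1, hiu ▸ F.anc_refl _⟩
    have hvj : v ∈ F.P Z (pos j).fst := F.mem_P.2 ⟨hv.1, hjv ▸ F.anc_refl _⟩
    by_cases ht : (pos i).edge ∈ F.ET
    · rw [hi'] at ht
      rcases (F.mem_ET _).1 ht with h | h
      · refine ⟨i, ⟨Nat.zero_le _, hi.le⟩, i, ⟨Nat.zero_le _, hi.le⟩, hui,
          F.mem_P.2 ⟨hv.1, ?_⟩, Or.inl rfl⟩
        rw [hiu]
        exact F.anc_par h.1 (h.2 ▸ F.anc_refl _)
      · refine ⟨j, ⟨Nat.zero_le _, hj.le⟩, j, ⟨Nat.zero_le _, hj.le⟩,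
          F.mem_P.2 ⟨hu.1, ?_⟩, hvj, Or.inl rfl⟩
        rw [hjv]
        exact F.anc_par h.1 (h.2 ▸ F.anc_refl _)
    · refine ⟨i, ⟨Nat.zero_le _, hi.le⟩, j, ⟨Nat.zero_le _, hj.le⟩, hui, hvj, ?_⟩
      by_cases hij : i = j
      · exact Or.inl hij
      · refine Or.inr ((SimpleGraph.fromRel_adj _ _ _).2 ⟨hij, Or.inl (Or.inr ⟨hi, hj, ht, ?_⟩)⟩)
        rw [hi', hj']; rfl
  · intro u p hp q hq hup huq
    have key : ∀ i, i ≤ L → u ∈ F.P Z (pos i).fst → ∃ s ≤ L, u ∈ F.P Z (pos s).fst ∧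
        (s = 0 ∨ ∃ t, s = t + 1 ∧ u ∉ F.P Z (pos t).fst) ∧
        Ch O (fun a => a ∈ Set.Icc 0 L ∧ u ∈ F.P Z (pos a).fst) s i := by
      intro i
      induction i with
      | zero => exact fun h hu => ⟨0, h, hu, Or.inl rfl, Ch.refl _⟩
      | succ i ih =>
        intro h hu
        by_cases hi : u ∈ F.P Z (pos i).fst
        · obtain ⟨s, h1, h2, h3, h4⟩ := ih (by omega) hi
          refine ⟨s, h1, h2, h3, h4.trans (Ch.single ?_ ⟨⟨Nat.zero_le _, by omega⟩, hi⟩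
            ⟨⟨Nat.zero_le _, h⟩, hu⟩)⟩
          exact (SimpleGraph.fromRel_adj _ _ _).2 ⟨by omega, Or.inl (Or.inl rfl)⟩
        · exact ⟨i + 1, h, hu, Or.inr ⟨i, rfl, hi⟩, Ch.refl _⟩
    obtain ⟨s, s1, s2, s3, s4⟩ := key p hp.2 hup
    obtain ⟨s', s1', s2', s3', s4'⟩ := key q hq.2 huq
    have huZ := (F.mem_P.1 hup).1
    have h0 : u ∈ F.P Z (pos 0).fst → ∀ t, u ∈ F.P Z (pos t).fst := by
      intro h t
      have h1 : F.Anc u ρ := hx0 ▸ (F.mem_P.1 h).2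
      have h2 : u = ρ := by
        rcases F.anc_cases h1 with h | h
        · exact h
        · exact (h.1 hρ).elim
      exact F.mem_P.2 ⟨huZ, h2 ▸ F.anc_of_reach hρ (hreach t)⟩
    have hent : ∀ t, u ∈ F.P Z (pos (t + 1)).fst → u ∉ F.P Z (pos t).fst →
        (pos t).snd = u ∧ F.par u = (pos t).fst := by
      intro t h1 h2
      refine F.enter hσ ?_ (fun h => h2 (F.mem_P.2 ⟨huZ, h⟩))
      rw [← hτ, ← hsucc]
      exact (F.mem_P.1 h1).2
    have hss : s = s' := by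
      rcases s3 with rfl | ⟨t, rfl, ht⟩
      · rcases s3' with rfl | ⟨t', rfl, ht'⟩
        · rfl
        · exact (ht' (h0 s2 _)).elim
      · rcases s3' with rfl | ⟨t', rfl, ht'⟩
        · exact (ht (h0 s2' _)).elim
        · have e1 := hent t s2 ht
          have e2 := hent t' s2' ht'
          have : pos t = pos t' := by
            ext
            · exact e1.2.symm.trans e2.2
            · exact e1.1.trans e2.1.symm
          rw [hinj t t' (by omega) (by omega) this]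
    subst hss
    exact s4.symm.trans s4'

end Forest

end Pool.Agent.Lib.MP_f8d2b9_co
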