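import Mathlib
import Pool.Agent.Lib.MP_f8d2b9_co.H57Paths
import Pool.Agent.Lib.MP_f8d2b9_co.H57Main

/-! The radius property passes from a connected plane graph to its minors. -/

set_option autoImplicit false
open Classical Relation

namespace Pool.Agent.Lib.MP_f8d2b9_co

variable {W A : Type} {H : SimpleGraph W} {K : SimpleGraph A}

/-- walks from `p`, of length `l`, entering at most `n` marked regions -/
inductive Rm (H : SimpleGraph W) (mk : W → A → Prop) (p : W) : W → ℕ → ℕ → Prop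
  | root (n : ℕ) : ((∃ a, mk p a) → 1 ≤ n) → Rm H mk p p n 0
  | step1 (u v : W) (n l : ℕ) : Rm H mk p u n l → H.Adj u v → Rm H mk p v (n + 1) (l + 1)
  | step0 (u v : W) (n l : ℕ) : Rm H mk p u n l → H.Adj u v → (∀ a, mk v a → mk u a) →
      Rm H mk p v n (l + 1)

theorem exists_forest [Fintype W] [Fintype A] (mk : W → A → Prop)
    (hmk : ∀ v a b, mk v a → mk v b → a = b) (p : W) (hc : ∀ v, H.Reachable p v) (r : ℕ)
    (hr : ∀ v a, mk v a → ∃ n ≤ r, ∃ l, Rm H mk p v n l) :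
    ∃ F : Forest H, F.dp p = 0 ∧ ∃ L : W → Finset A,
      (∀ v a, a ∈ L v ↔ ∃ z, mk z a ∧ F.Anc z v) ∧ ∀ v, (L v).card ≤ r := by
  have hex : ∀ v, ∃ n l, Rm H mk p v n l := by
    intro v
    have h2 := hc v
    rw [SimpleGraph.reachable_iff_reflTransGen] at h2
    induction h2 with
    | refl => exact ⟨1, 0, Rm.root 1 (fun _ => le_rfl)⟩
    | tail _ h ih =>
      obtain ⟨n, l, ih⟩ := ih
      exact ⟨n + 1, l + 1, Rm.step1 _ _ _ _ ih h⟩
  let d : W → ℕ := fun v => sInf {n | ∃ l, Rm H mk p v n l}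
  have hd : ∀ v, ∃ l, Rm H mk p v (d v) l := fun v =>
    Nat.sInf_mem (s := {n | ∃ l, Rm H mk p v n l}) (hex v)
  have hd' : ∀ v n l, Rm H mk p v n l → d v ≤ n := fun v n l h => Nat.sInf_le ⟨l, h⟩
  let dp : W → ℕ := fun v => sInf {l | Rm H mk p v (d v) l}
  have hdp : ∀ v, Rm H mk p v (d v) (dp v) := fun v =>
    Nat.sInf_mem (s := {l | Rm H mk p v (d v) l}) (hd v)
  have hdp' : ∀ v l, Rm H mk p v (d v) l → dp v ≤ l := fun v l h => Nat.sInf_le h
  have inv0 : ∀ v n, Rm H mk p v n 0 → v = p ∧ ((∃ a, mk p a) → 1 ≤ n) := by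
    intro v n h
    cases h with
    | root _ b => exact ⟨rfl, b⟩
  have h0 : ∀ v, dp v = 0 → v = p ∧ ((∃ a, mk p a) → 1 ≤ d v) := by
    intro v hv
    have := hdp v
    rw [hv] at this
    exact inv0 _ _ this
  have hroot : ∀ v n l, Rm H mk p v n l → (∃ a, mk p a) → 1 ≤ n := by
    intro v n l h ha
    induction h with
    | root n b => exact b ha
    | step1 _ _ _ _ _ _ ih => omega
    | step0 _ _ _ _ _ _ _ ih => exact ih
  have hp0 : dp p = 0 := Nat.le_zero.1 (hdp' p 0 (Rm.root _ (hroot _ _ _ (hdp p))))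
  have h1 : ∀ v, ∃ u, dp v ≠ 0 → (H.Adj v u ∧ dp v = dp u + 1) ∧
      (d v = d u + 1 ∨ (d v = d u ∧ ∀ a, mk v a → mk u a)) := by
    intro v
    by_cases hv : dp v = 0
    · exact ⟨v, fun h => (h hv).elim⟩
    have inv : ∀ n l, Rm H mk p v n l → l ≠ 0 → ∃ u, H.Adj u v ∧
        ((∃ n', n = n' + 1 ∧ Rm H mk p u n' (l - 1)) ∨
          ((∀ a, mk v a → mk u a) ∧ Rm H mk p u n (l - 1))) := by
      intro n l h hl
      cases h with
      | root _ b => exact (hl rfl).elim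
      | step1 u _ n l a b => exact ⟨u, b, Or.inl ⟨n, rfl, a⟩⟩
      | step0 u _ n l a b c => exact ⟨u, b, Or.inr ⟨c, a⟩⟩
    obtain ⟨u, huv, h | h⟩ := inv _ _ (hdp v) hv
    · obtain ⟨n, hn, h⟩ := h
      have a1 : d u ≤ n := hd' _ _ _ h
      have a2 : d v ≤ d u + 1 := hd' _ _ _ (Rm.step1 u v _ _ (hdp u) huv)
      have a3 : d u = n := by omega
      have a4 := hdp' u _ (a3 ▸ h)
      have a5 := hdp' v _ (by
        rw [hn, ← a3]; exact Rm.step1 u v _ _ (hdp u) huv)
      exact ⟨u, fun _ => ⟨⟨huv.symm, by omega⟩, Or.inl (by omega)⟩⟩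
    · have a1 : d u ≤ d v := hd' _ _ _ h.2
      have a2 : d v ≤ d u := hd' _ _ _ (Rm.step0 u v _ _ (hdp u) huv h.1)
      have a3 : d u = d v := by omega
      have a4 := hdp' u _ (a3 ▸ h.2)
      have a5 := hdp' v _ (by
        rw [← a3]; exact Rm.step0 u v _ _ (hdp u) huv h.1)
      exact ⟨u, fun _ => ⟨⟨huv.symm, by omega⟩, Or.inr ⟨a3.symm, h.1⟩⟩⟩
  choose par hpar using h1
  let F : Forest H := ⟨par, dp, fun v hv => (hpar v hv).1,
    fun u v hu hv _ => (h0 u hu).1.trans (h0 v hv).1.symm⟩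
  refine ⟨F, hp0, ?_⟩
  obtain ⟨L, mL⟩ : ∃ L : W → Finset A, ∀ v a, a ∈ L v ↔ ∃ z, mk z a ∧ F.Anc z v :=
    ⟨fun v => Finset.univ.filter (fun a => ∃ z, mk z a ∧ F.Anc z v), by simp⟩
  have hdr : ∀ v a, mk v a → d v ≤ r := by
    intro v a h
    obtain ⟨n, hn, l, h⟩ := hr v a h
    exact (hd' _ _ _ h).trans hn
  have hP : ∀ v, (L v).card ≤ d v ∧ (L v).card ≤ r := by
    intro v
    induction hn : dp v generalizing v with
    | zero =>
      by_cases hv : ∃ a, mk v a
      · obtain ⟨a, ha⟩ := hv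
        have : L v ⊆ {a} := by
          intro b hb
          obtain ⟨z, hz, hz'⟩ := (mL _ _).1 hb
          rcases F.anc_cases hz' with h | h
          · exact Finset.mem_singleton.2 (hmk v b a (h ▸ hz) ha)
          · exact (h.1 hn).elim
        have a1 := Finset.card_le_card this
        rw [Finset.card_singleton] at a1
        have a2 := (h0 v hn).2 ⟨a, (h0 v hn).1 ▸ ha⟩
        have a3 := hdr v a ha
        omega
      · have : L v = ∅ := by
          rw [Finset.eq_empty_iff_forall_notMem]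
          intro b hb
          obtain ⟨z, hz, hz'⟩ := (mL _ _).1 hb
          rcases F.anc_cases hz' with h | h
          · exact hv ⟨b, h ▸ hz⟩
          · exact (h.1 hn).elim
        simp [this]
    | succ n ih =>
      have hv0 : dp v ≠ 0 := by omega
      have b := hpar v hv0
      have ih' := ih (par v) (by omega)
      by_cases hv : ∀ a, mk v a → mk (par v) a
      · have : L v ⊆ L (par v) := by
          intro c hc
          obtain ⟨z, hz, hz'⟩ := (mL _ _).1 hc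
          rcases F.anc_cases hz' with h | h
          · exact (mL _ _).2 ⟨par v, hv c (h ▸ hz), F.anc_refl _⟩
          · exact (mL _ _).2 ⟨z, hz, h.2⟩
        have a1 := Finset.card_le_card this
        omega
      · have a4 : d v = d (par v) + 1 := by
          rcases b.2 with h | h
          · exact h
          · exact (hv h.2).elim
        push Not at hv
        obtain ⟨a, ha, -⟩ := hv
        have : L v ⊆ insert a (L (par v)) := by
          intro c hc
          obtain ⟨z, hz, hz'⟩ := (mL _ _).1 hc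
          rcases F.anc_cases hz' with h | h
          · exact Finset.mem_insert.2 (Or.inl (hmk v c a (h ▸ hz) ha))
          · exact Finset.mem_insert_of_mem ((mL _ _).2 ⟨z, hz, h.2⟩)
        have a1 := (Finset.card_le_card this).trans (Finset.card_insert_le _ _)
        have a3 := hdr v a ha
        omega
  exact ⟨L, mL, fun v => (hP v).2⟩

/-- `K` is a minor of `H` with branch sets `Br`. -/
structure IsModel (H : SimpleGraph W) (K : SimpleGraph A) (Br : A → Set W) : Prop where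
  ne : ∀ a, ∃ p, p ∈ Br a
  conn : ∀ a, ∀ p ∈ Br a, ∀ q ∈ Br a, Ch H (fun x => x ∈ Br a) p q
  disj : ∀ a b p, p ∈ Br a → p ∈ Br b → a = b
  adj : ∀ a b, K.Adj a b → ∃ p ∈ Br a, ∃ q ∈ Br b, H.Adj p q

theorem IsModel.comp [Fintype W] [Fintype A] {Br : A → Set W} (M : IsModel H K Br)
    (hH : IsPlanar H) (hc : ∀ u v, H.Reachable u v) {Rt : Set A} (hR : IsRoots K Rt) (Z : Set A)
    (r : ℕ) (hr : ∀ z ∈ Z, Rch K Rt Z z r) (ρ : A) (hρ : ρ ∈ Rt) :
    Has K {z | z ∈ Z ∧ K.Reachable ρ z} (fun B => B.card ≤ 3 * r) ∅ := by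
  obtain ⟨p, hp⟩ := M.ne ρ
  let mk : W → A → Prop := fun v a => v ∈ Br a ∧ a ∈ Z ∧ K.Reachable ρ a
  have inside : ∀ a u v n, Ch H (fun x => x ∈ Br a) u v → (∃ l, Rm H mk p u n l) →
      ∃ l, Rm H mk p v n l := by
    intro a u v n h hu
    induction h with
    | refl => exact hu
    | tail _ h ih =>
      obtain ⟨l, ih⟩ := ih
      refine ⟨l + 1, Rm.step0 _ _ _ _ ih h.1 (fun b hb => ⟨?_, hb.2⟩)⟩
      rw [M.disj b a _ hb.1 h.2.2]
      exact h.2.1
  have lift : ∀ z n, Rch K Rt Z z n → K.Reachable ρ z → ∀ v ∈ Br z, ∃ l, Rm H mk p v n l := by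
    intro z n h
    refine Rch.ind (M := fun z n => K.Reachable ρ z → ∀ v ∈ Br z, ∃ l, Rm H mk p v n l)
      ?_ ?_ ?_ h
    · intro z n h1 h2 h3 v hv
      obtain rfl := hR.2 ρ hρ z h1 h3
      refine inside _ p v n (M.conn _ p hp v hv) ⟨0, Rm.root n ?_⟩
      rintro ⟨a, ha⟩
      exact h2 (M.disj _ _ p ha.1 hp ▸ ha.2.1)
    · intro a b n _ ih hab hb v hv
      obtain ⟨x, hx, y, hy, hxy⟩ := M.adj a b hab
      obtain ⟨l, hl⟩ := ih (hb.trans hab.symm.reachable) x hx
      exact inside _ y v _ (M.conn _ y hy v hv) ⟨l + 1, Rm.step1 _ _ _ _ hl hxy⟩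
    · intro a b n _ ih hab hZ hb v hv
      obtain ⟨x, hx, y, hy, hxy⟩ := M.adj a b hab
      obtain ⟨l, hl⟩ := ih (hb.trans hab.symm.reachable) x hx
      refine inside _ y v _ (M.conn _ y hy v hv) ⟨l + 1, Rm.step0 _ _ _ _ hl hxy ?_⟩
      intro c hc
      exact (hZ (M.disj _ _ y hc.1 hy ▸ hc.2.1)).elim
  obtain ⟨F, hF, L, mL, hL⟩ := exists_forest (H := H) mk
    (fun v a b ha hb => M.disj a b v ha.1 hb.1) p
    (hc p) r (fun v a ha => ⟨r, le_rfl, lift a r (hr a ha.2.1) ha.2.2 v ha.1⟩)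
  obtain ⟨f, mf⟩ : ∃ f : W → Finset A, ∀ v a, a ∈ f v ↔ mk v a :=
    ⟨fun v => Finset.univ.filter (mk v), by simp⟩
  refine (F.tc_paths hH Set.univ p hF).mapP f ?_ ?_ ?_ ?_ ?_
  · rintro B ⟨T, hT, hB⟩
    refine le_trans (Finset.card_le_card (t := T.biUnion L) ?_) ?_
    · intro a ha
      obtain ⟨z, hz, ha⟩ := Finset.mem_biUnion.1 ha
      obtain ⟨v, hv, hzv⟩ := hB z hz
      exact Finset.mem_biUnion.2 ⟨v, hv, (mL _ _).2 ⟨z, (mf _ _).1 ha, hzv⟩⟩
    · exact (Finset.card_biUnion_le_card_mul _ _ r (fun v _ => hL v)).trans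
        (Nat.mul_le_mul_right _ hT)
  · intro v _ a ha
    exact ((mf _ _).1 ha).2
  · intro a ha
    obtain ⟨v, hv⟩ := M.ne a
    exact ⟨v, ⟨trivial, hc _ _⟩, (mf _ _).2 ⟨hv, ha⟩⟩
  · intro a ha b hb hab
    obtain ⟨x, hx, y, hy, hxy⟩ := M.adj a b hab
    exact ⟨x, ⟨trivial, hc _ _⟩, y, ⟨trivial, hc _ _⟩, (mf _ _).2 ⟨hx, ha⟩,
      (mf _ _).2 ⟨hy, hb⟩, Or.inr hxy⟩
  · intro a x _ y _ hx hy
    have hx' := (mf _ _).1 hx
    have hy' := (mf _ _).1 hy
    exact (M.conn a x hx'.1 y hy'.1).mono (fun z hz => ⟨⟨trivial, hc _ _⟩,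
      (mf _ _).2 ⟨hz, hx'.2⟩⟩)

theorem IsModel.tc [Fintype W] [Fintype A] {Br : A → Set W} (M : IsModel H K Br)
    (hH : IsPlanar H) (hc : ∀ u v, H.Reachable u v) : TC K := by
  intro Rt hR Z r hr
  have key : ∀ Rs : Finset A, (∀ ρ ∈ Rs, ρ ∈ Rt) →
      Has K {z | z ∈ Z ∧ ∃ ρ ∈ Rs, K.Reachable ρ z} (fun B => B.card ≤ 3 * r) ∅ := by
    intro Rs
    induction Rs using Finset.induction_on with
    | empty =>
      intro _
      have := Has.leaf K (P := fun B => B.card ≤ 3 * r) ∅ (by simp)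
      exact (this.congr (by ext; simp)).mono (fun _ h => h) (Set.empty_subset _)
    | insert ρ Rs hρ ih =>
      intro h
      have h1 := ih (fun x hx => h x (Finset.mem_insert_of_mem hx))
      have h2 := M.comp hH hc hR Z r hr ρ (h ρ (Finset.mem_insert_self _ _))
      refine (h1.glue h2 ?_ ?_).congr ?_
      · rintro v ⟨-, ρ', h3, h4⟩ ⟨-, h5⟩
        have := hR.2 ρ (h ρ (Finset.mem_insert_self _ _)) ρ' (h ρ' (Finset.mem_insert_of_mem h3))
          (h5.trans h4.symm)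
        exact (hρ (this ▸ h3)).elim
      · rintro u hu v hv huv
        exact Or.inl ⟨hu.1, hv.2.trans huv.symm.reachable⟩
      · ext z
        simp only [Set.mem_union, Set.mem_ofPred_eq, Finset.mem_insert, exists_eq_or_imp]
        rw [← and_or_left, or_comm]
  refine (key (Finset.univ.filter (fun v => v ∈ Rt))
    (fun ρ h => (Finset.mem_filter.1 h).2)).congr ?_
  ext z
  simp only [Set.mem_ofPred_eq, Finset.mem_filter, Finset.mem_univ, true_and, and_iff_left_iff_imp]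
  intro _
  exact hR.1 z

end Pool.Agent.Lib.MP_f8d2b9_co
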