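import Mathlib
import Pool.Agent.Lib.MP_f8d2b9_co.H57Minor
import Pool.Agent.Lib.MP_f8d2b9_co.H57Grid
import Pool.Agent.Lib.MP_25cd9a_co.Discretize

/-! From a drawing in the plane to a planarisation that is a minor of a grid. -/

set_option autoImplicit false
open Classical Relation

namespace Pool.Agent.Lib.MP_f8d2b9_co

open Pool.Agent.Lib.MP_25cd9a_co (grid Model KPlanar Conn Tch)

theorem IsModel.mono {W W' A : Type} {H : SimpleGraph W} {H' : SimpleGraph W'} {K : SimpleGraph A}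
    {Br : A → Set W} (M : IsModel H K Br) (f : W → W') (hf : Function.Injective f)
    (ha : ∀ u v, H.Adj u v → H'.Adj (f u) (f v)) : IsModel H' K (fun a => f '' Br a) := by
  refine ⟨fun a => ?_, ?_, ?_, fun a b h => ?_⟩
  · obtain ⟨p, hp⟩ := M.ne a
    exact ⟨f p, p, hp, rfl⟩
  · rintro a _ ⟨p, hp, rfl⟩ _ ⟨q, hq, rfl⟩
    exact (M.conn a p hp q hq).map f
      (fun u v h hu hv => ⟨ha u v h, ⟨u, hu, rfl⟩, ⟨v, hv, rfl⟩⟩)
  · rintro a b _ ⟨p, hp, rfl⟩ ⟨q, hq, h⟩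
    exact M.disj a b p hp (hf h ▸ hq)
  · obtain ⟨p, hp, q, hq, h⟩ := M.adj a b h
    exact ⟨f p, ⟨p, hp, rfl⟩, f q, ⟨q, hq, rfl⟩, ha _ _ h⟩

theorem model_planarisation {W V : Type} [Fintype V] {Γ : SimpleGraph W} {G : SimpleGraph V}
    (M : Model Γ G 1) :
    ∃ (X : Type) (_ : Fintype X) (e : X × Bool → Sym2 V) (Br : V ⊕ X → Set W),
      Function.Injective e ∧ (∀ p, e p ∈ G.edgeSet) ∧ IsModel Γ (planarisation G e) Br := by
  obtain ⟨o, ho⟩ : ∃ o : Sym2 V → ℕ, Function.Injective o :=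
    ⟨fun z => (Fintype.equivFin (Sym2 V) z : ℕ), fun a b h =>
      (Fintype.equivFin (Sym2 V)).injective (Fin.ext h)⟩
  have uniq : ∀ g f f', f ≠ g → f' ≠ g → (M.D g ∩ M.D f).Nonempty → (M.D g ∩ M.D f').Nonempty →
      f = f' := by
    intro g f f' h1 h2 h3 h4
    obtain ⟨Y, hY, h⟩ := M.cross g
    exact Finset.card_le_one.1 hY f (h f h1 h3) f' (h f' h2 h4)
  have edge : ∀ g, (M.D g).Nonempty → g ∈ G.edgeSet := by
    intro g
    induction g using Sym2.ind with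
    | _ u v => exact M.edgeD u v
  let X := {x : Sym2 V × Sym2 V // o x.1 < o x.2 ∧ (M.D x.1 ∩ M.D x.2).Nonempty}
  obtain ⟨e, e0, e1⟩ : ∃ e : X × Bool → Sym2 V, (∀ x, e (x, false) = x.1.1) ∧
      ∀ x, e (x, true) = x.1.2 :=
    ⟨fun p => if p.2 then p.1.1.2 else p.1.1.1, fun _ => by simp, fun _ => by simp⟩
  have hne : ∀ x : X, x.1.2 ≠ x.1.1 := fun x h => (h ▸ x.2.1).false
  have einj : Function.Injective e := by
    rintro ⟨x, _ | _⟩ ⟨y, _ | _⟩ h <;> simp only [e0, e1] at h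
    · have := uniq x.1.1 x.1.2 y.1.2 (hne x) (h ▸ hne y) x.2.2 (h ▸ y.2.2)
      rw [Subtype.ext (Prod.ext h this)]
    · have := uniq x.1.1 x.1.2 y.1.1 (hne x) (h ▸ (hne y).symm) x.2.2
        (by rw [h, Set.inter_comm]; exact y.2.2)
      have a1 := x.2.1
      have a2 := y.2.1
      rw [h, this] at a1
      omega
    · have := uniq y.1.1 y.1.2 x.1.1 (hne y) (h ▸ (hne x).symm) y.2.2
        (by rw [← h, Set.inter_comm]; exact x.2.2)
      have a1 := x.2.1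
      have a2 := y.2.1
      rw [← h, this] at a2
      omega
    · have := uniq x.1.2 x.1.1 y.1.1 (hne x).symm (h ▸ (hne y).symm)
        (by rw [Set.inter_comm]; exact x.2.2) (by rw [h, Set.inter_comm]; exact y.2.2)
      rw [Subtype.ext (Prod.ext this h)]
  have eD : ∀ p, (M.D (e p)).Nonempty := by
    rintro ⟨x, _ | _⟩
    · rw [e0]; exact x.2.2.left
    · rw [e1]; exact x.2.2.right
  have pair : ∀ g f, g ≠ f → (M.D g ∩ M.D f).Nonempty →
      ∃ x i j, e (x, i) = g ∧ e (x, j) = f := by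
    intro g f h1 h2
    rcases lt_or_gt_of_ne (ho.ne h1) with h | h
    · exact ⟨⟨(g, f), h, h2⟩, false, true, e0 _, e1 _⟩
    · exact ⟨⟨(f, g), h, by rwa [Set.inter_comm]⟩, true, false, e1 _, e0 _⟩
  let Br : V ⊕ X → Set W := Sum.elim
    (fun u => {w | w ∈ M.B u ∨ ∃ g, (∀ p, e p ≠ g) ∧ g.out.1 = u ∧ w ∈ M.D g})
    (fun x => M.D (e (x, false)) ∪ M.D (e (x, true)))
  have bl : ∀ u w, w ∈ Br (.inl u) ↔
      w ∈ M.B u ∨ ∃ g, (∀ p, e p ≠ g) ∧ g.out.1 = u ∧ w ∈ M.D g := fun _ _ => Iff.rfl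
  have br : ∀ x w, w ∈ Br (.inr x) ↔ ∃ i, w ∈ M.D (e (x, i)) := by
    intro x w
    rw [Bool.exists_bool]
    rfl
  have lr : ∀ u x w, w ∈ Br (.inl u) → w ∈ Br (.inr x) → False := by
    intro u x w h1 h2
    obtain ⟨i, h2⟩ := (br _ _).1 h2
    rcases (bl _ _).1 h1 with h1 | ⟨g, h1, -, h3⟩
    · exact M.disjBD u _ w h1 h2
    · obtain ⟨y, a, b, h4, -⟩ := pair g (e (x, i)) (h1 _).symm ⟨w, h3, h2⟩
      exact h1 _ h4
  have ad : ∀ u x i, u ∈ e (x, i) → ∃ p ∈ Br (.inl u), ∃ q ∈ Br (.inr x), Γ.Adj p q := by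
    intro u x i hu
    obtain ⟨q, hq, p, hp, h⟩ := M.tch' hu (eD (x, i))
    exact ⟨p, Or.inl hp, q, (br _ _).2 ⟨i, hq⟩, h.symm⟩
  have ad' : ∀ u v, G.Adj u v → (∀ p, e p ≠ s(u, v)) →
      ∃ p ∈ Br (.inl u), ∃ q ∈ Br (.inl v), Γ.Adj p q := by
    intro u v huv h
    rcases Sym2.mem_iff.1 (Sym2.out_fst_mem s(u, v)) with h1 | h1
    · obtain ⟨p, hp, q, hq, hpq⟩ := M.tch v u huv.symm
      rw [Sym2.eq_swap] at hp
      exact ⟨p, Or.inr ⟨_, h, h1, hp⟩, q, Or.inl hq, hpq⟩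
    · obtain ⟨q, hq, p, hp, hpq⟩ := M.tch u v huv
      exact ⟨p, Or.inl hp, q, Or.inr ⟨_, h, h1, hq⟩, hpq.symm⟩
  refine ⟨X, Fintype.ofFinite X, e, Br, einj, fun p => edge _ (eD p), ?_, ?_, ?_, ?_⟩
  · rintro (u | x)
    · obtain ⟨p, hp⟩ := M.neB u
      exact ⟨p, Or.inl hp⟩
    · obtain ⟨p, hp⟩ := eD (x, false)
      exact ⟨p, Or.inl hp⟩
  · rintro (u | x)
    · have : Conn Γ (Br (.inl u)) := by
        refine MP_25cd9a_co.conn_of_base (M.connB u) (fun w h => Or.inl h) ?_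
        obtain ⟨b, hb⟩ := M.neB u
        rintro w (h | ⟨g, h1, h2, h⟩)
        · exact ⟨w, h, MP_25cd9a_co.Rch.refl _ _⟩
        · refine ⟨b, hb, (M.conn_BD (h2 ▸ Sym2.out_fst_mem g) w (Or.inr h) b (Or.inl hb)).mono ?_⟩
          rintro z (hz | hz)
          exacts [Or.inl hz, Or.inr ⟨g, h1, h2, hz⟩]
      exact this
    · obtain ⟨w, h1, h2⟩ := x.2.2
      have : Conn Γ (Br (.inr x)) :=
        (M.connD _).union_inter (M.connD _) (e0 x ▸ h1) (e1 x ▸ h2)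
      exact this
  · rintro (u | x) (v | y) w h1 h2
    · rcases (bl _ _).1 h1 with h1 | ⟨g, a1, a2, a3⟩ <;>
        rcases (bl _ _).1 h2 with h2 | ⟨f, b1, b2, b3⟩
      · rw [M.disjB u v w h1 h2]
      · exact (M.disjBD u _ w h1 b3).elim
      · exact (M.disjBD v _ w h2 a3).elim
      · by_cases h : g = f
        · rw [← a2, ← b2, h]
        · obtain ⟨y, a, b, h4, -⟩ := pair g f h ⟨w, a3, b3⟩
          exact (a1 _ h4).elim
    · exact (lr _ _ _ h1 h2).elim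
    · exact (lr _ _ _ h2 h1).elim
    · obtain ⟨i, h1⟩ := (br _ _).1 h1
      obtain ⟨j, h2⟩ := (br _ _).1 h2
      by_cases h : e (x, i) = e (y, j)
      · exact congrArg Sum.inr (Prod.ext_iff.1 (einj h)).1
      · obtain ⟨z, a, b, h4, h5⟩ := pair _ _ h ⟨w, h1, h2⟩
        have c1 : z = x := (Prod.ext_iff.1 (einj h4)).1
        have c2 : z = y := (Prod.ext_iff.1 (einj h5)).1
        rw [← c1, ← c2]
  · intro a b hab
    rcases ((SimpleGraph.fromRel_adj _ _ _).1 hab).2 with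
      (⟨u, v, rfl, rfl, h1, h2⟩ | ⟨u, x, i, rfl, rfl, h⟩) |
      (⟨u, v, rfl, rfl, h1, h2⟩ | ⟨u, x, i, rfl, rfl, h⟩)
    · exact ad' u v h1 h2
    · exact ad u x i h
    · obtain ⟨p, hp, q, hq, h⟩ := ad' u v h1 h2
      exact ⟨q, hq, p, hp, h.symm⟩
    · obtain ⟨p, hp, q, hq, h⟩ := ad u x i h
      exact ⟨q, hq, p, hp, h.symm⟩

theorem tc_of_drawing {V : Type} [Fintype V] {G : SimpleGraph V} (h : KPlanar 1 G) :
    ∃ (X : Type) (_ : Fintype X) (e : X × Bool → Sym2 V),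
      Function.Injective e ∧ (∀ p, e p ∈ G.edgeSet) ∧ TC (planarisation G e) := by
  obtain ⟨U, hU, ⟨M⟩⟩ := h.model
  obtain ⟨X, hX, e, Br, h1, h2, h3⟩ := model_planarisation M
  obtain ⟨N, hN, hUN⟩ : ∃ N : ℕ, 1 ≤ N ∧ U ⊆ sq N := by
    obtain ⟨n, hn⟩ := (hU.image (fun p => p.1.natAbs + p.2.natAbs)).bddAbove
    refine ⟨n + 1, by omega, fun p hp => ?_⟩
    have : p.1.natAbs + p.2.natAbs ≤ n := hn ⟨p, hp, rfl⟩
    rw [mem_sq]
    omega
  exact ⟨X, hX, e, h1, h2, (h3.mono (H' := grid.induce (sq N)) (Set.inclusion hUN)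
    (Set.inclusion_injective hUN) (fun _ _ h => h)).tc (sq_planar N hN) (sq_reach N)⟩

end Pool.Agent.Lib.MP_f8d2b9_co
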